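import Mathlib

set_option autoImplicit false

namespace Pool.Agent.TH997

open MvPolynomial

section L0

variable {K : Type*} [Field K] {N : ℕ}

/-- the linear form with coefficients `l` -/
noncomputable def lin (l : Fin (N + 1) → K) : MvPolynomial (Fin (N + 1)) K :=
  ∑ a, C (l a) * X a

theorem lin_hom (l : Fin (N + 1) → K) : (lin l).IsHomogeneous 1 := by
  unfold lin
  refine IsHomogeneous.sum _ _ _ fun a _ => ?_
  simpa using (isHomogeneous_C (Fin (N + 1)) (l a)).mul (isHomogeneous_X K a)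

/-- there is a linear form that is regular on all the modules `M i` -/
theorem exists_lin_regular [Infinite K]
    (M : Fin (N + 1) → Type*) [∀ i, AddCommGroup (M i)]
    [∀ i, Module (MvPolynomial (Fin (N + 1)) K) (M i)]
    [∀ i, Module.Finite (MvPolynomial (Fin (N + 1)) K) (M i)]
    (hX : ∀ i (m : M i), (X i : MvPolynomial (Fin (N + 1)) K) • m = m) :
    ∃ l : Fin (N + 1) → K, ∀ i (m : M i), lin l • m = 0 → m = 0 := by
  classical
  let L : (Fin (N + 1) → K) →ₗ[K] MvPolynomial (Fin (N + 1)) K :=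
    { toFun := lin
      map_add' := by
        intro x y
        simp [lin, add_mul, Finset.sum_add_distrib]
      map_smul' := by
        intro c x
        simp [lin, Finset.smul_sum, MvPolynomial.smul_eq_C_mul, mul_assoc] }
  let ι := Σ i : Fin (N + 1), associatedPrimes (MvPolynomial (Fin (N + 1)) K) (M i)
  haveI : ∀ i, Finite (associatedPrimes (MvPolynomial (Fin (N + 1)) K) (M i)) :=
    fun i => (associatedPrimes.finite _ _).to_subtype
  haveI : Finite ι := inferInstance
  let p : ι → Subspace K (Fin (N + 1) → K) := fun x =>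
    ((x.2 : Ideal (MvPolynomial (Fin (N + 1)) K)).restrictScalars K).comap L
  by_contra hcon
  push Not at hcon
  have hcov : ⋃ x, (p x : Set (Fin (N + 1) → K)) = Set.univ := by
    refine Set.eq_univ_of_forall fun l => ?_
    obtain ⟨i, m, hm, hm0⟩ := hcon l
    have h1 : lin l ∈ ⋃ P ∈ associatedPrimes (MvPolynomial (Fin (N + 1)) K) (M i), (P : Set _) := by
      rw [biUnion_associatedPrimes_eq_zero_divisors]
      exact ⟨m, hm0, hm⟩
    simp only [Set.mem_iUnion] at h1
    obtain ⟨P, hP, hl⟩ := h1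
    refine Set.mem_iUnion.2 ⟨⟨i, ⟨P, hP⟩⟩, ?_⟩
    exact hl
  obtain ⟨x, hx⟩ := Subspace.exists_eq_top_of_iUnion_eq_univ hcov
  obtain ⟨i, P, hP⟩ := x
  have h2 : (Pi.single i 1 : Fin (N + 1) → K) ∈ p ⟨i, ⟨P, hP⟩⟩ := by
    rw [hx]; trivial
  have h3 : lin (Pi.single i 1 : Fin (N + 1) → K) ∈ P := h2
  have h4 : lin (Pi.single i 1 : Fin (N + 1) → K) = X i := by
    unfold lin
    rw [Finset.sum_eq_single i]
    · simp
    · intro b _ hb
      simp [Pi.single_eq_of_ne hb]
    · simp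
  rw [h4] at h3
  have h5 : (X i : MvPolynomial (Fin (N + 1)) K) ∈
      ⋃ P ∈ associatedPrimes (MvPolynomial (Fin (N + 1)) K) (M i), (P : Set _) :=
    Set.mem_iUnion₂.2 ⟨P, hP, h3⟩
  rw [biUnion_associatedPrimes_eq_zero_divisors] at h5
  obtain ⟨m, hm0, hm⟩ := h5
  rw [hX] at hm
  exact hm0 hm

end L0

section L1

variable {K : Type*} [Field K] {τ : Type*}

theorem homComp_mul {b n : ℕ} (G z : MvPolynomial τ K) (hz : z.IsHomogeneous b) :
    homogeneousComponent n (G * z) =
      if b ≤ n then homogeneousComponent (n - b) G * z else 0 := by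
  classical
  conv_lhs => rw [← sum_homogeneousComponent G, Finset.sum_mul, map_sum]
  have h1 : ∀ a ∈ Finset.range (G.totalDegree + 1),
      homogeneousComponent n (homogeneousComponent a G * z) =
        if n = a + b then homogeneousComponent a G * z else 0 := by
    intro a _
    exact homogeneousComponent_of_mem ((homogeneousComponent_isHomogeneous a G).mul hz)
  rw [Finset.sum_congr rfl h1]
  split_ifs with hb
  · by_cases hd : n - b < G.totalDegree + 1
    · rw [Finset.sum_eq_single (n - b)]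
      · rw [if_pos (by omega)]
      · intro c _ hc
        rw [if_neg (by omega)]
      · intro h
        exact absurd (Finset.mem_range.2 hd) h
    · rw [homogeneousComponent_eq_zero (n - b) G (by omega), zero_mul]
      refine Finset.sum_eq_zero fun a ha => ?_
      have := Finset.mem_range.1 ha
      rw [if_neg (by omega)]
  · refine Finset.sum_eq_zero fun a _ => ?_
    rw [if_neg (by omega)]

variable {q : ℕ} {P : Type*} [AddCommGroup P] [Module (MvPolynomial τ K) P]

/-- the degree-`e` part of the image of `ev` -/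
def Aset (ev : (Fin q → MvPolynomial τ K) →ₗ[MvPolynomial τ K] P) (e : ℕ) : Set P :=
  {x | ∃ F : Fin q → MvPolynomial τ K, (∀ a, (F a).IsHomogeneous e) ∧ ev F = x}

theorem Aset_add {ev : (Fin q → MvPolynomial τ K) →ₗ[MvPolynomial τ K] P} {e : ℕ} {x y : P}
    (hx : x ∈ Aset ev e) (hy : y ∈ Aset ev e) : x + y ∈ Aset ev e := by
  obtain ⟨F, hF, rfl⟩ := hx
  obtain ⟨G, hG, rfl⟩ := hy
  exact ⟨F + G, fun a => (hF a).add (hG a), map_add _ _ _⟩

theorem Aset_zero {ev : (Fin q → MvPolynomial τ K) →ₗ[MvPolynomial τ K] P} {e : ℕ} :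
    (0 : P) ∈ Aset ev e :=
  ⟨0, fun _ => isHomogeneous_zero _ _ _, map_zero _⟩

theorem Aset_smul {ev : (Fin q → MvPolynomial τ K) →ₗ[MvPolynomial τ K] P} {e k : ℕ} {x : P}
    {G : MvPolynomial τ K} (hG : G.IsHomogeneous k) (hx : x ∈ Aset ev e) :
    G • x ∈ Aset ev (e + k) := by
  obtain ⟨F, hF, rfl⟩ := hx
  refine ⟨G • F, fun a => ?_, map_smul _ _ _⟩
  rw [add_comm]
  exact hG.mul (hF a)

theorem Aset_sum {ι : Type*} {ev : (Fin q → MvPolynomial τ K) →ₗ[MvPolynomial τ K] P} {e : ℕ}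
    (s : Finset ι) (f : ι → P) (h : ∀ i ∈ s, f i ∈ Aset ev e) : ∑ i ∈ s, f i ∈ Aset ev e := by
  classical
  induction s using Finset.induction_on with
  | empty => simpa using Aset_zero
  | insert a s ha ih =>
    rw [Finset.sum_insert ha]
    exact Aset_add (h a (Finset.mem_insert_self _ _))
      (ih fun i hi => h i (Finset.mem_insert_of_mem hi))

/-- stabilisation -/
theorem stab [Finite τ] (ev : (Fin q → MvPolynomial τ K) →ₗ[MvPolynomial τ K] P)
    (B : ℕ → Set P)
    (ℓ : MvPolynomial τ K)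
    (hinj : ∀ x : P, ℓ • x = 0 → x = 0)
    (h3 : ∀ e, ∀ s ∈ B e, ∃ f, ∀ k ≥ f, ∀ F : MvPolynomial τ K, F.IsHomogeneous k →
      F • s ∈ Aset ev (e + k)) :
    ∃ e0, ∀ e ≥ e0, ∀ s ∈ B e, ℓ • s ∈ Aset ev (e + 1) → s ∈ Aset ev e := by
  classical
  let R : Set (Fin q → MvPolynomial τ K) :=
    {F | ∃ e, (∀ a, (F a).IsHomogeneous (e + 1)) ∧ ∃ s ∈ B e, ev F = ℓ • s}
  have hfg : (Submodule.span (MvPolynomial τ K) R).FG := IsNoetherian.noetherian _
  obtain ⟨Z, hZR, hZ⟩ := (Submodule.fg_span_iff_fg_span_finset_subset R).1 hfg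
  have hch : ∀ z : Fin q → MvPolynomial τ K, ∃ e : ℕ, ∃ s : P, ∃ f : ℕ, z ∈ Z →
      (∀ a, (z a).IsHomogeneous (e + 1)) ∧ ev z = ℓ • s ∧
      ∀ k ≥ f, ∀ F : MvPolynomial τ K, F.IsHomogeneous k → F • s ∈ Aset ev (e + k) := by
    intro z
    by_cases hz : z ∈ Z
    · obtain ⟨e, he, s, hs, hev⟩ := hZR hz
      obtain ⟨f, hf⟩ := h3 e s hs
      exact ⟨e, s, f, fun _ => ⟨he, hev, hf⟩⟩
    · exact ⟨0, 0, 0, fun h => absurd h hz⟩
  choose de sz fz hz using hch
  refine ⟨∑ z ∈ Z, (de z + 1 + fz z), ?_⟩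
  intro e he s hs hls
  obtain ⟨F, hF, hFs⟩ := hls
  have hFR : F ∈ Submodule.span (MvPolynomial τ K) (Z : Set (Fin q → MvPolynomial τ K)) := by
    rw [← hZ]
    exact Submodule.subset_span ⟨e, hF, s, hs, hFs⟩
  obtain ⟨G, hGs, hG⟩ := Submodule.mem_span_finset.1 hFR
  have hle : ∀ z ∈ Z, de z + 1 + fz z ≤ e := fun z hz =>
    (Finset.single_le_sum (f := fun z => de z + 1 + fz z) (fun _ _ => Nat.zero_le _) hz).trans he
  -- component of degree e+1
  have hcomp : F = ∑ z ∈ Z, homogeneousComponent (e - de z) (G z) • z := by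
    funext a
    have h1 : F a = homogeneousComponent (e + 1) (F a) :=
      (homogeneousComponent_eq_self (hF a)).symm
    have h2 : F a = ∑ z ∈ Z, G z * z a := by
      rw [← hG]; simp [Finset.sum_apply]
    rw [h1, h2, map_sum, Finset.sum_apply]
    refine Finset.sum_congr rfl fun z hzZ => ?_
    rw [homComp_mul _ _ ((hz z hzZ).1 a)]
    have := hle z hzZ
    rw [if_pos (by omega)]
    simp only [Pi.smul_apply, smul_eq_mul]
    congr 3
    omega
  have hs2 : ℓ • s = ℓ • ∑ z ∈ Z, homogeneousComponent (e - de z) (G z) • sz z := by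
    rw [← hFs, hcomp, map_sum, Finset.smul_sum]
    refine Finset.sum_congr rfl fun z hzZ => ?_
    rw [map_smul, (hz z hzZ).2.1, smul_comm]
  have hs3 : s = ∑ z ∈ Z, homogeneousComponent (e - de z) (G z) • sz z := by
    have : ℓ • (s - ∑ z ∈ Z, homogeneousComponent (e - de z) (G z) • sz z) = 0 := by
      rw [smul_sub, hs2, sub_self]
    exact sub_eq_zero.1 (hinj _ this)
  rw [hs3]
  refine Aset_sum _ _ fun z hzZ => ?_
  have := hle z hzZ
  have h4 := (hz z hzZ).2.2 (e - de z) (by omega) _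
    (homogeneousComponent_isHomogeneous (e - de z) (G z))
  have h5 : de z + (e - de z) = e := by omega
  rwa [h5] at h4

theorem stab' [Finite τ] (ev : (Fin q → MvPolynomial τ K) →ₗ[MvPolynomial τ K] P)
    (B : ℕ → Set P)
    (hB : ∀ e k (F : MvPolynomial τ K), F.IsHomogeneous k → ∀ s ∈ B e, F • s ∈ B (e + k))
    (ℓ : MvPolynomial τ K) (hℓ : ℓ.IsHomogeneous 1)
    (hinj : ∀ x : P, ℓ • x = 0 → x = 0)
    (h3 : ∀ e, ∀ s ∈ B e, ∃ f, ∀ k ≥ f, ∀ F : MvPolynomial τ K, F.IsHomogeneous k →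
      F • s ∈ Aset ev (e + k)) :
    ∃ e0, ∀ e ≥ e0, ∀ s ∈ B e, s ∈ Aset ev e := by
  obtain ⟨e0, h0⟩ := stab ev B ℓ hinj h3
  refine ⟨e0, fun e he s hs => ?_⟩
  obtain ⟨f, hf⟩ := h3 e s hs
  have h1 : ∀ k, ℓ ^ k • s ∈ B (e + k) := fun k => by
    have := hB e (1 * k) (ℓ ^ k) (hℓ.pow k) s hs
    simpa using this
  have h2 : ∀ k, ℓ ^ k • s ∈ Aset ev (e + k) → s ∈ Aset ev e := by
    intro k
    induction k with
    | zero => intro h; simpa using h
    | succ k ih =>
      intro h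
      apply ih
      apply h0 (e + k) (by omega) _ (h1 k)
      rw [smul_smul, ← pow_succ', add_assoc]
      exact h
  apply h2 f
  apply hf f le_rfl
  simpa using hℓ.pow f

end L1

end Pool.Agent.TH997
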