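import Mathlib
import Pool.Agent.TH997.FDa

set_option autoImplicit false

namespace Pool.Agent.TH997

open MvPolynomial

section G

variable {K : Type*} [Field K] {N : ℕ}

theorem mono_mem {P : Type*} [AddCommGroup P] [Module (MvPolynomial (Fin (N + 1)) K) P] {q : ℕ}
    (ev : (Fin q → MvPolynomial (Fin (N + 1)) K) →ₗ[MvPolynomial (Fin (N + 1)) K] P)
    (e : ℕ) (m : P)
    (h : ∀ l, ∃ k, (X l : MvPolynomial (Fin (N + 1)) K) ^ k • m ∈ Aset ev (e + k)) :
    ∃ f, ∀ k ≥ f, ∀ F : MvPolynomial (Fin (N + 1)) K, F.IsHomogeneous k →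
      F • m ∈ Aset ev (e + k) := by
  classical
  choose kk hk using h
  refine ⟨∑ l, kk l, fun k hkf F hF => ?_⟩
  rw [F.as_sum, Finset.sum_smul]
  refine Aset_sum _ _ fun α hα => ?_
  have hdeg : α.degree = k := by
    have := hF (mem_support_iff.1 hα)
    rw [Finsupp.degree_eq_weight_one]
    exact this
  have hex : ∃ l, kk l ≤ α l := by
    by_contra hcon
    push Not at hcon
    have h1 : α.degree = ∑ l, α l := by
      rw [Finsupp.degree_eq_sum]
    have h2 : ∑ l, α l < ∑ l, kk l :=
      Finset.sum_lt_sum_of_nonempty Finset.univ_nonempty fun l _ => hcon l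
    omega
  obtain ⟨l, hl⟩ := hex
  have hle : Finsupp.single l (kk l) ≤ α := by
    rw [Finsupp.single_le_iff]; exact hl
  have hmon : (monomial α (coeff α F) : MvPolynomial (Fin (N + 1)) K) =
      monomial (α - Finsupp.single l (kk l)) (coeff α F) * X l ^ kk l := by
    rw [X_pow_eq_monomial, monomial_mul, mul_one, tsub_add_cancel_of_le hle]
  rw [hmon, mul_smul]
  have hd : (α - Finsupp.single l (kk l)).degree = k - kk l := by
    have h3 : (α - Finsupp.single l (kk l)).degree + (Finsupp.single l (kk l)).degree = k := by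
      rw [← map_add, tsub_add_cancel_of_le hle, hdeg]
    rw [Finsupp.degree_single] at h3
    omega
  have hlk : kk l ≤ k := by
    have : (Finsupp.single l (kk l)).degree ≤ α.degree := by
      have h3 : (α - Finsupp.single l (kk l)).degree + (Finsupp.single l (kk l)).degree =
          α.degree := by
        rw [← map_add, tsub_add_cancel_of_le hle]
      omega
    rw [Finsupp.degree_single, hdeg] at this
    exact this
  have := Aset_smul (isHomogeneous_monomial (coeff α F) hd) (hk l)
  have he : e + kk l + (k - kk l) = e + k := by omega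
  rwa [he] at this

theorem lemG [Infinite K]
    (M : Fin (N + 1) → Type*) [∀ i, AddCommGroup (M i)]
    [∀ i, Module (MvPolynomial (Fin (N + 1)) K) (M i)]
    [∀ i, Module K (M i)] [∀ i, IsScalarTower K (MvPolynomial (Fin (N + 1)) K) (M i)]
    [∀ i, Module.Finite (MvPolynomial (Fin (N + 1)) K) (M i)]
    (hX : ∀ i (m : M i), (X i : MvPolynomial (Fin (N + 1)) K) • m = m)
    (H : ℕ → Submodule K (∀ i, M i))
    (hH2 : ∀ n k (F : MvPolynomial (Fin (N + 1)) K), F.IsHomogeneous k →
      ∀ m ∈ H n, F • m ∈ H (n + k))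
    (hH3 : ∀ n, ∀ m ∈ H n, ∀ l, m l = 0 →
      ∃ t : ℕ, (X l : MvPolynomial (Fin (N + 1)) K) ^ t • m = 0)
    (d q : ℕ) (σ : Fin q → ∀ i, M i) (hσ : ∀ s, σ s ∈ H d)
    (hgen : ∀ i, Submodule.span (MvPolynomial (Fin (N + 1)) K)
      (Set.range fun s => σ s i) = ⊤) :
    (∃ n0, ∀ e ≥ n0, ∀ m ∈ H (d + e), ∃ F : Fin q → MvPolynomial (Fin (N + 1)) K,
      (∀ a, (F a).IsHomogeneous e) ∧ ∑ s, F s • σ s = m) ∧
      ∀ n, Module.Finite K (H n) := by
  classical
  let ev : (Fin q → MvPolynomial (Fin (N + 1)) K) →ₗ[MvPolynomial (Fin (N + 1)) K] (∀ i, M i) :=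
    Fintype.linearCombination _ σ
  have hev : ∀ F, ev F = ∑ s, F s • σ s := fun F => by
    simp [ev, Fintype.linearCombination_apply]
  obtain ⟨l₀, hl₀⟩ := exists_lin_regular M hX
  have hinj : ∀ x : (∀ i, M i), lin l₀ • x = 0 → x = 0 := by
    intro x hx
    funext i
    exact hl₀ i _ (congrFun hx i)
  -- (A)
  have hA : ∀ e, ∀ m ∈ H (d + e), ∃ f, ∀ k ≥ f, ∀ F : MvPolynomial (Fin (N + 1)) K,
      F.IsHomogeneous k → F • m ∈ Aset ev (e + k) := by
    intro e m hm
    apply mono_mem
    intro l
    have h1 : m l ∈ Submodule.span (MvPolynomial (Fin (N + 1)) K)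
        (Set.range fun s => σ s l) := by rw [hgen]; trivial
    obtain ⟨G, hG⟩ := (Submodule.mem_span_range_iff_exists_fun _).1 h1
    let D := e + ∑ s, (G s).totalDegree
    have hD : ∀ s, (G s).totalDegree ≤ D := fun s =>
      (Finset.single_le_sum (f := fun s => (G s).totalDegree) (fun _ _ => Nat.zero_le _)
        (Finset.mem_univ s)).trans (Nat.le_add_left _ _)
    let F : Fin q → MvPolynomial (Fin (N + 1)) K := fun s =>
      ∑ b ∈ Finset.range (D + 1), homogeneousComponent b (G s) * X l ^ (D - b)
    have hF : ∀ s, (F s).IsHomogeneous D := by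
      intro s
      refine IsHomogeneous.sum _ _ _ fun b hb => ?_
      have hb' := Finset.mem_range.1 hb
      have h2 := (homogeneousComponent_isHomogeneous b (G s)).mul
        (((isHomogeneous_X K l).pow (D - b)))
      have h3 : b + 1 * (D - b) = D := by omega
      rwa [h3] at h2
    have hXp : ∀ (k : ℕ) (x : M l), (X l : MvPolynomial (Fin (N + 1)) K) ^ k • x = x := by
      intro k x
      induction k with
      | zero => simp
      | succ k ih => rw [pow_succ, mul_smul, hX, ih]
    have hFl : ∀ s, F s • σ s l = G s • σ s l := by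
      intro s
      simp only [F, Finset.sum_smul]
      have h2 : ∀ b ∈ Finset.range (D + 1),
          (homogeneousComponent b (G s) * X l ^ (D - b)) • σ s l =
            homogeneousComponent b (G s) • σ s l := by
        intro b _
        rw [mul_smul, hXp]
      rw [Finset.sum_congr rfl h2, ← Finset.sum_smul]
      congr 1
      have h3 : ∑ b ∈ Finset.range (D + 1), homogeneousComponent b (G s) =
          ∑ b ∈ Finset.range ((G s).totalDegree + 1), homogeneousComponent b (G s) := by
        symm
        apply Finset.sum_subset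
        · intro b hb
          have := Finset.mem_range.1 hb
          exact Finset.mem_range.2 (lt_of_lt_of_le this (Nat.succ_le_succ (hD s)))
        · intro b _ hb
          apply homogeneousComponent_eq_zero
          rw [Finset.mem_range] at hb
          omega
      rw [h3, sum_homogeneousComponent]
    have hevl : ev F l = m l := by
      rw [hev, Finset.sum_apply, ← hG]
      exact Finset.sum_congr rfl fun s _ => hFl s
    have hev_mem : ev F ∈ H (d + D) := by
      rw [hev]
      exact Submodule.sum_mem _ fun s _ => hH2 d D (F s) (hF s) _ (hσ s)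
    have hxm : (X l : MvPolynomial (Fin (N + 1)) K) ^ (D - e) • m ∈ H (d + D) := by
      have h2 := hH2 (d + e) (1 * (D - e)) _ ((isHomogeneous_X K l).pow (D - e)) m hm
      have h3 : d + e + 1 * (D - e) = d + D := by
        have : e ≤ D := Nat.le_add_right _ _
        omega
      rwa [h3] at h2
    obtain ⟨t, ht⟩ := hH3 (d + D) _ (Submodule.sub_mem _ hxm hev_mem) l (by
      simp only [Pi.sub_apply, Pi.smul_apply]
      rw [hXp, hevl, sub_self])
    refine ⟨t + (D - e), ?_⟩
    rw [smul_sub, sub_eq_zero, smul_smul, ← pow_add] at ht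
    rw [ht]
    have h4 : (X l : MvPolynomial (Fin (N + 1)) K) ^ t • ev F ∈ Aset ev (D + 1 * t) :=
      Aset_smul ((isHomogeneous_X K l).pow t) ⟨F, hF, rfl⟩
    have h5 : e + (t + (D - e)) = D + 1 * t := by
      have : e ≤ D := Nat.le_add_right _ _
      omega
    rwa [h5]
  obtain ⟨e0, he0⟩ := stab' ev (fun e => (H (d + e) : Set (∀ i, M i)))
    (fun e k F hF s hs => by
      have := hH2 (d + e) k F hF s hs
      rwa [add_assoc] at this)
    (lin l₀) (lin_hom l₀) hinj (fun e s hs => hA e s hs)
  refine ⟨⟨e0, fun e he m hm => ?_⟩, fun n => ?_⟩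
  · obtain ⟨F, hF, hFm⟩ := he0 e he m hm
    exact ⟨F, hF, by rw [← hev]; exact hFm⟩
  · -- finite dimension
    let e := e0 + n
    let t := d + e0
    haveI : Module.Finite K (homogeneousSubmodule (Fin (N + 1)) K e) :=
      Module.Finite.iff_fg.2 (homogeneousSubmodule_fg _ _ _)
    let Φ : (Fin q → homogeneousSubmodule (Fin (N + 1)) K e) →ₗ[K] (∀ i, M i) :=
      (ev.restrictScalars K) ∘ₗ
        (LinearMap.pi fun s => (homogeneousSubmodule (Fin (N + 1)) K e).subtype ∘ₗ
          LinearMap.proj s)
    let μ : (∀ i, M i) →ₗ[K] (∀ i, M i) := Algebra.lsmul K K (∀ i, M i) (lin l₀ ^ t)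
    have hμ : ∀ x, μ x = lin l₀ ^ t • x := fun x => rfl
    have hμinj : Function.Injective μ := by
      rw [injective_iff_map_eq_zero]
      intro x hx
      rw [hμ] at hx
      have : ∀ k : ℕ, lin l₀ ^ k • x = 0 → x = 0 := by
        intro k
        induction k with
        | zero => intro h; simpa using h
        | succ k ih =>
          intro h
          rw [pow_succ', mul_smul] at h
          exact ih (hinj _ h)
      exact this t hx
    have hrange : ∀ x ∈ H n, μ x ∈ LinearMap.range Φ := by
      intro x hx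
      have h1 : μ x ∈ H (d + e) := by
        have h2 := hH2 n (1 * t) _ ((lin_hom l₀).pow t) x hx
        have h3 : n + 1 * t = d + e := by simp only [t, e]; omega
        rwa [h3] at h2
      obtain ⟨F, hF, hFm⟩ := he0 e (Nat.le_add_right _ _) _ h1
      exact ⟨fun s => ⟨F s, hF s⟩, hFm⟩
    let ψ : H n →ₗ[K] LinearMap.range Φ :=
      LinearMap.codRestrict _ (μ ∘ₗ (H n).subtype) fun x => hrange x x.2
    haveI : Module.Finite K (LinearMap.range Φ) := Module.Finite.range Φ
    refine Module.Finite.of_injective ψ ?_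
    intro x y hxy
    have : μ x = μ y := congrArg Subtype.val hxy
    exact Subtype.ext (hμinj this)

end G

end Pool.Agent.TH997
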