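import Mathlib
import Pool.Agent.TH997.FDa
import Pool.Agent.TH997.FDb

set_option autoImplicit false

namespace Pool.Agent.TH997

open MvPolynomial

section aux

theorem exists_fg_lift {K A B : Type*} [Field K] [AddCommGroup A] [Module K A] [AddCommGroup B]
    [Module K B] (f : A →ₗ[K] B) (T : Submodule K B) (hT : Module.Finite K T)
    (hle : LinearMap.range f ≤ T) :
    ∃ W : Submodule K A, W.FG ∧ ∀ x : A, ∃ y ∈ W, f y = f x := by
  have : Module.Finite K (LinearMap.range f) :=
    Module.Finite.of_injective (Submodule.inclusion hle) (Submodule.inclusion_injective hle)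
  obtain ⟨g, hg⟩ := f.rangeRestrict.exists_rightInverse_of_surjective
    (LinearMap.range_rangeRestrict f)
  refine ⟨LinearMap.range g, Module.Finite.iff_fg.1 (Module.Finite.range g), fun x => ?_⟩
  refine ⟨g (f.rangeRestrict x), ⟨_, rfl⟩, ?_⟩
  have := LinearMap.congr_fun hg (f.rangeRestrict x)
  exact congrArg Subtype.val this

variable {K : Type} [Field K] {N : ℕ}

theorem hrF {A B : Type} [AddCommGroup A] [AddCommGroup B]
    [Module (MvPolynomial (Fin (N + 1)) K) A] [Module (MvPolynomial (Fin (N + 1)) K) B]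
    (r' : A →+ B) (j : Fin (N + 1))
    (hr' : ∀ l (m : A), (X j : MvPolynomial (Fin (N + 1)) K) •
      r' ((X l : MvPolynomial (Fin (N + 1)) K) • m) =
        (X l : MvPolynomial (Fin (N + 1)) K) • r' m)
    (hr'C : ∀ (a : K) (m : A), r' ((C a : MvPolynomial (Fin (N + 1)) K) • m) =
      (C a : MvPolynomial (Fin (N + 1)) K) • r' m)
    (k : ℕ) (F : MvPolynomial (Fin (N + 1)) K) (hF : F.IsHomogeneous k) (m : A) :
    (X j : MvPolynomial (Fin (N + 1)) K) ^ k • r' (F • m) = F • r' m := by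
  classical
  have hmon : ∀ (k : ℕ) (α : Fin (N + 1) →₀ ℕ) (c : K), α.degree = k → ∀ m : A,
      (X j : MvPolynomial (Fin (N + 1)) K) ^ k • r' ((monomial α c) • m) =
        (monomial α c) • r' m := by
    intro k
    induction k with
    | zero =>
      intro α c hα m
      have h0 : α = 0 := (Finsupp.degree_eq_zero_iff α).1 hα
      subst h0
      have h1 : (monomial 0 c : MvPolynomial (Fin (N + 1)) K) = C c := rfl
      rw [pow_zero, one_smul, h1, hr'C]
    | succ k ih =>
      intro α c hα m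
      have hne : ∃ l, α l ≠ 0 := by
        by_contra hcon
        push Not at hcon
        have : α = 0 := Finsupp.ext hcon
        subst this
        simp at hα
      obtain ⟨l, hl⟩ := hne
      have hle : Finsupp.single l 1 ≤ α := by
        rw [Finsupp.single_le_iff]; omega
      have hm2 : (monomial α c : MvPolynomial (Fin (N + 1)) K) =
          X l * monomial (α - Finsupp.single l 1) c := by
        rw [X, monomial_mul, one_mul, add_tsub_cancel_of_le hle]
      have hd : (α - Finsupp.single l 1).degree = k := by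
        have h3 : (α - Finsupp.single l 1).degree + (Finsupp.single l 1).degree = k + 1 := by
          rw [← map_add, tsub_add_cancel_of_le hle, hα]
        rw [Finsupp.degree_single] at h3
        omega
      rw [hm2, mul_smul, pow_succ, mul_smul, hr', smul_comm, ih _ c hd, mul_smul]
  rw [F.as_sum, Finset.sum_smul, map_sum, Finset.smul_sum, Finset.sum_smul]
  refine Finset.sum_congr rfl fun α hα => ?_
  apply hmon
  have := hF (mem_support_iff.1 hα)
  rw [Finsupp.degree_eq_weight_one]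
  exact this

end aux

/-- FD (Serre finiteness for `H^1` of a coherent sheaf on a projective scheme, in the form needed).
`M i` = sections on the chart `D_+(X i)`; `M2 i j` = sections on the overlap, in the trivialisation `i`;
`r i j`, `r' i j` the two restriction maps. -/
theorem FD {K : Type} [Field K] [Infinite K] {N : ℕ}
    (M : Fin (N + 1) → Type) [∀ i, AddCommGroup (M i)]
    [∀ i, Module (MvPolynomial (Fin (N + 1)) K) (M i)]
    [∀ i, Module.Finite (MvPolynomial (Fin (N + 1)) K) (M i)]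
    (hX : ∀ i (m : M i), (X i : MvPolynomial (Fin (N + 1)) K) • m = m)
    (M2 : Fin (N + 1) → Fin (N + 1) → Type) [∀ i j, AddCommGroup (M2 i j)]
    [∀ i j, Module (MvPolynomial (Fin (N + 1)) K) (M2 i j)]
    (r : ∀ i j, M i →ₗ[MvPolynomial (Fin (N + 1)) K] M2 i j)
    (r' : ∀ i j, M j →+ M2 i j)
    (hrker : ∀ i j m, r i j m = 0 → ∃ t : ℕ, (X j : MvPolynomial (Fin (N + 1)) K) ^ t • m = 0)
    (hrsurj : ∀ i j (c : M2 i j), ∃ (t : ℕ) (m : M i),
      r i j m = (X j : MvPolynomial (Fin (N + 1)) K) ^ t • c)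
    (hinj : ∀ i j (c : M2 i j), (X j : MvPolynomial (Fin (N + 1)) K) • c = 0 → c = 0)
    (hr' : ∀ i j l (m : M j), (X j : MvPolynomial (Fin (N + 1)) K) •
      r' i j ((X l : MvPolynomial (Fin (N + 1)) K) • m) =
        (X l : MvPolynomial (Fin (N + 1)) K) • r' i j m)
    (hr'C : ∀ i j (a : K) (m : M j), r' i j ((C a : MvPolynomial (Fin (N + 1)) K) • m) =
      (C a : MvPolynomial (Fin (N + 1)) K) • r' i j m)
    (d q : ℕ) (σ : Fin q → ∀ i, M i)
    (hσ : ∀ s i j, r i j (σ s i) = (X j : MvPolynomial (Fin (N + 1)) K) ^ d • r' i j (σ s j))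
    (hgen : ∀ i, Submodule.span (MvPolynomial (Fin (N + 1)) K) (Set.range fun s => σ s i) = ⊤) :
    ∃ l : Fin (N + 1) → K, ∃ h : ℕ, ∀ θ : Fin h → ∀ i j, M2 i j,
      (∀ n, ∃ (t : ℕ) (b : ∀ i, M i), ∀ i j,
        r i j (b i) - (X j : MvPolynomial (Fin (N + 1)) K) ^ t • r' i j (b j) =
          (∑ a, C (l a) * X a : MvPolynomial (Fin (N + 1)) K) ^ t • θ n i j) →
      ∃ a : Fin h → K, a ≠ 0 ∧ ∃ η : ∀ i, M i, ∀ i j,
        ∑ n, (C (a n) : MvPolynomial (Fin (N + 1)) K) • θ n i j = r i j (η i) - r' i j (η j) := by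
  classical
  letI iM : ∀ i, Module K (M i) := fun i =>
    Module.compHom (M i) (C : K →+* MvPolynomial (Fin (N + 1)) K)
  letI iM2 : ∀ i j, Module K (M2 i j) := fun i j =>
    Module.compHom (M2 i j) (C : K →+* MvPolynomial (Fin (N + 1)) K)
  have cM : ∀ i (a : K) (m : M i), a • m = (C a : MvPolynomial (Fin (N + 1)) K) • m :=
    fun _ _ _ => rfl
  have cM2 : ∀ i j (a : K) (m : M2 i j), a • m = (C a : MvPolynomial (Fin (N + 1)) K) • m :=
    fun _ _ _ _ => rfl
  haveI sM : ∀ i, IsScalarTower K (MvPolynomial (Fin (N + 1)) K) (M i) := fun i =>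
    ⟨fun a F m => by rw [cM, MvPolynomial.smul_eq_C_mul, mul_smul]⟩
  haveI sM2 : ∀ i j, IsScalarTower K (MvPolynomial (Fin (N + 1)) K) (M2 i j) := fun i j =>
    ⟨fun a F m => by rw [cM2, MvPolynomial.smul_eq_C_mul, mul_smul]⟩
  obtain ⟨l, hl⟩ := exists_lin_regular M hX
  -- powers of `X j` are injective on `M2 i j`
  have hinjp : ∀ i j (t : ℕ) (c : M2 i j),
      (X j : MvPolynomial (Fin (N + 1)) K) ^ t • c = 0 → c = 0 := by
    intro i j t
    induction t with
    | zero => intro c h; simpa using h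
    | succ t ih =>
      intro c h
      rw [pow_succ', mul_smul] at h
      exact ih c (hinj _ _ _ h)
  have hl2 : ∀ i j (c : M2 i j), lin l • c = 0 → c = 0 := by
    intro i j c hc
    obtain ⟨t, m, hm⟩ := hrsurj i j c
    have h1 : r i j (lin l • m) = 0 := by
      rw [map_smul, hm, smul_comm, hc, smul_zero]
    obtain ⟨t', ht'⟩ := hrker i j _ h1
    have h2 : (X j : MvPolynomial (Fin (N + 1)) K) ^ t' • m = 0 := by
      apply hl i
      rw [smul_comm]; exact ht'
    have h3 : (X j : MvPolynomial (Fin (N + 1)) K) ^ (t' + t) • c = 0 := by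
      rw [pow_add, mul_smul, ← hm, ← map_smul, h2, map_zero]
    exact hinjp i j _ c h3
  have hF := fun i j => hrF (r' i j) j (hr' i j) (hr'C i j)
  -- the commutation of `∂` with `ℓ`
  have key : ∀ (t : ℕ) (b' : ∀ i, M i) (i j : Fin (N + 1)),
      r i j (lin l • b' i) - (X j : MvPolynomial (Fin (N + 1)) K) ^ (t + 1) •
        r' i j (lin l • b' j) =
      lin l • (r i j (b' i) - (X j : MvPolynomial (Fin (N + 1)) K) ^ t • r' i j (b' j)) := by
    intro t b' i j
    have h1 := hF i j 1 (lin l) (lin_hom l) (b' j)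
    rw [pow_one] at h1
    rw [map_smul, pow_succ, mul_smul, h1, smul_sub, smul_comm]
  -- the K-space `Γ n`
  let Γ : ℕ → Submodule K (∀ i, M i) := fun n =>
    { carrier := {b | ∀ i j, ∃ c, r i j (b i) -
        (X j : MvPolynomial (Fin (N + 1)) K) ^ n • r' i j (b j) = lin l • c}
      add_mem' := by
        intro b b' hb hb' i j
        obtain ⟨c, hc⟩ := hb i j
        obtain ⟨c', hc'⟩ := hb' i j
        refine ⟨c + c', ?_⟩
        rw [smul_add, ← hc, ← hc']
        simp only [Pi.add_apply, map_add, smul_add]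
        abel
      zero_mem' := by
        intro i j
        exact ⟨0, by simp⟩
      smul_mem' := by
        intro a b hb i j
        obtain ⟨c, hc⟩ := hb i j
        refine ⟨(C a : MvPolynomial (Fin (N + 1)) K) • c, ?_⟩
        rw [smul_comm, ← hc]
        simp only [Pi.smul_apply, cM, map_smul, hr'C, smul_sub]
        rw [smul_comm] }
  have hΓ : ∀ n b, b ∈ Γ n ↔ ∀ i j, ∃ c, r i j (b i) -
        (X j : MvPolynomial (Fin (N + 1)) K) ^ n • r' i j (b j) = lin l • c :=
    fun n b => Iff.rfl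
  let L : ∀ i, Submodule (MvPolynomial (Fin (N + 1)) K) (M i) := fun i =>
    LinearMap.range (LinearMap.lsmul (MvPolynomial (Fin (N + 1)) K) (M i) (lin l))
  have hLm : ∀ i m, m ∈ L i ↔ ∃ m', lin l • m' = m := fun i m => Iff.rfl
  let π : (∀ i, M i) →ₗ[MvPolynomial (Fin (N + 1)) K] (∀ i, M i ⧸ L i) :=
    LinearMap.pi fun i => (L i).mkQ ∘ₗ LinearMap.proj i
  have hπ : ∀ b i, π b i = (L i).mkQ (b i) := fun b i => rfl
  have hπ0 : ∀ b, π b = 0 → ∃ b' : ∀ i, M i, b = fun i => lin l • b' i := by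
    intro b hb
    have h1 : ∀ i, ∃ m', lin l • m' = b i := by
      intro i
      have h2 : (L i).mkQ (b i) = 0 := congrFun hb i
      rw [Submodule.mkQ_apply, Submodule.Quotient.mk_eq_zero] at h2
      exact (hLm i _).1 h2
    choose b' hb' using h1
    exact ⟨b', funext fun i => (hb' i).symm⟩
  let H : ℕ → Submodule K (∀ i, M i ⧸ L i) := fun n => (Γ n).map (π.restrictScalars K)
  have hH : ∀ n x, x ∈ H n ↔ ∃ b ∈ Γ n, π b = x := fun n x => Iff.rfl
  have hXq : ∀ i (m : M i ⧸ L i), (X i : MvPolynomial (Fin (N + 1)) K) • m = m := by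
    intro i m
    obtain ⟨m, rfl⟩ := Submodule.Quotient.mk_surjective _ m
    rw [← Submodule.Quotient.mk_smul, hX]
  have hG := lemG (fun i => M i ⧸ L i) hXq H (by
      intro n k F hFk x hx
      obtain ⟨b, hb, rfl⟩ := (hH n x).1 hx
      refine (hH _ _).2 ⟨F • b, ?_, by rw [map_smul]⟩
      rw [hΓ] at hb ⊢
      intro i j
      obtain ⟨c, hc⟩ := hb i j
      refine ⟨F • c, ?_⟩
      have h1 := hF i j k F hFk (b j)
      simp only [Pi.smul_apply]
      rw [map_smul, pow_add, mul_smul, h1, smul_comm _ F, ← smul_sub, hc, smul_comm])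
    (by
      intro n x hx j hxj
      obtain ⟨b, hb, rfl⟩ := (hH n x).1 hx
      rw [hΓ] at hb
      have h1 : (L j).mkQ (b j) = 0 := hxj
      rw [Submodule.mkQ_apply, Submodule.Quotient.mk_eq_zero] at h1
      obtain ⟨b', hb'⟩ := (hLm j _).1 h1
      have h2 : ∀ i, ∃ t : ℕ, ∃ m' : M i,
          (X j : MvPolynomial (Fin (N + 1)) K) ^ t • b i = lin l • m' := by
        intro i
        obtain ⟨c, hc⟩ := hb i j
        have h3 : (X j : MvPolynomial (Fin (N + 1)) K) • r i j (b i) =
            lin l • ((X j : MvPolynomial (Fin (N + 1)) K) • c +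
              (X j : MvPolynomial (Fin (N + 1)) K) ^ n • r' i j b') := by
          have h4 := hF i j 1 (lin l) (lin_hom l) b'
          rw [pow_one, hb'] at h4
          rw [smul_add, smul_comm _ _ c, ← hc, smul_comm (lin l) _ (r' i j b'), ← h4, smul_sub,
            smul_comm (X j) _ (r' i j (b j))]
          abel
        obtain ⟨t, m', hm'⟩ := hrsurj i j ((X j : MvPolynomial (Fin (N + 1)) K) • c +
              (X j : MvPolynomial (Fin (N + 1)) K) ^ n • r' i j b')
        have h5 : r i j ((X j : MvPolynomial (Fin (N + 1)) K) ^ (t + 1) • b i - lin l • m') = 0 := by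
          rw [map_sub, map_smul, map_smul, hm', pow_succ, mul_smul, h3, smul_comm, sub_self]
        obtain ⟨t', ht'⟩ := hrker i j _ h5
        refine ⟨t' + (t + 1), (X j : MvPolynomial (Fin (N + 1)) K) ^ t' • m', ?_⟩
        rw [smul_sub, sub_eq_zero] at ht'
        rw [pow_add, mul_smul, ht', smul_comm]
      choose t m' hm' using h2
      refine ⟨∑ i, t i, ?_⟩
      rw [← map_smul]
      funext i
      rw [hπ]
      simp only [Pi.smul_apply, Pi.zero_apply]
      rw [Submodule.mkQ_apply, Submodule.Quotient.mk_eq_zero, hLm]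
      have h6 : t i ≤ ∑ i, t i :=
        Finset.single_le_sum (f := t) (fun _ _ => Nat.zero_le _) (Finset.mem_univ i)
      obtain ⟨u, hu⟩ := Nat.exists_eq_add_of_le h6
      refine ⟨(X j : MvPolynomial (Fin (N + 1)) K) ^ u • m' i, ?_⟩
      rw [hu, add_comm (t i) u, pow_add, mul_smul, hm', smul_comm])
    d q (fun s => π (σ s))
    (by
      intro s
      refine (hH _ _).2 ⟨σ s, ?_, rfl⟩
      rw [hΓ]
      intro i j
      exact ⟨0, by rw [hσ, sub_self, smul_zero]⟩)
    (by
      intro i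
      have h1 : (Set.range fun s => π (σ s) i) = (L i).mkQ '' (Set.range fun s => σ s i) := by
        rw [← Set.range_comp]
        rfl
      rw [h1, Submodule.span_image, hgen, Submodule.map_top, Submodule.range_mkQ])
  obtain ⟨⟨n0, hn0⟩, hfin⟩ := hG
  -- the spaces `Θ t`
  let Θ : ℕ → Submodule K (∀ i j, M2 i j) := fun t =>
    { carrier := {θ | ∃ b : ∀ i, M i, ∀ i j, r i j (b i) -
        (X j : MvPolynomial (Fin (N + 1)) K) ^ t • r' i j (b j) = lin l ^ t • θ i j}
      add_mem' := by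
        rintro θ θ' ⟨b, hb⟩ ⟨b', hb'⟩
        refine ⟨b + b', fun i j => ?_⟩
        simp only [Pi.add_apply, map_add, smul_add]
        rw [← hb, ← hb']
        abel
      zero_mem' := ⟨0, fun i j => by simp⟩
      smul_mem' := by
        rintro a θ ⟨b, hb⟩
        refine ⟨a • b, fun i j => ?_⟩
        simp only [Pi.smul_apply, cM, cM2, map_smul, hr'C]
        rw [smul_comm _ _ (θ i j), ← hb, smul_sub, smul_comm _ _ (r' i j (b j))] }
  have hΘ : ∀ t θ, θ ∈ Θ t ↔ ∃ b : ∀ i, M i, ∀ i j, r i j (b i) -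
        (X j : MvPolynomial (Fin (N + 1)) K) ^ t • r' i j (b j) = lin l ^ t • θ i j :=
    fun t θ => Iff.rfl
  have E1 : ∀ t, Θ t ≤ Θ (t + 1) := by
    rintro t θ ⟨b, hb⟩
    refine ⟨fun i => lin l • b i, fun i j => ?_⟩
    rw [key, hb, smul_smul, ← pow_succ']
  have E2 : ∀ t, d + n0 ≤ t + 1 → Θ (t + 1) ≤ Θ t := by
    rintro t ht θ ⟨b, hb⟩
    obtain ⟨e, he⟩ := Nat.exists_eq_add_of_le ht
    have hte : t + 1 = d + (n0 + e) := by omega
    have h1 : π b ∈ H (d + (n0 + e)) := by
      refine (hH _ _).2 ⟨b, ?_, rfl⟩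
      rw [hΓ, ← hte]
      intro i j
      refine ⟨lin l ^ t • θ i j, ?_⟩
      rw [hb, smul_smul, ← pow_succ']
    obtain ⟨F, hFh, hFs⟩ := hn0 (n0 + e) (Nat.le_add_right _ _) _ h1
    have h2 : π (b - ∑ s, F s • σ s) = 0 := by
      rw [map_sub, map_sum, sub_eq_zero, ← hFs]
      exact Finset.sum_congr rfl fun s _ => by rw [map_smul]
    obtain ⟨b', hb'⟩ := hπ0 _ h2
    refine ⟨b', fun i j => ?_⟩
    apply sub_eq_zero.1
    apply hl2 i j
    rw [smul_sub, ← key, smul_smul, ← pow_succ', ← hb]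
    have h3 : ∀ i, lin l • b' i = b i - ∑ s, F s • σ s i := by
      intro i
      have := congrFun hb' i
      simp only [Pi.sub_apply, Finset.sum_apply, Pi.smul_apply] at this
      exact this.symm
    rw [h3, h3]
    have h4 : ∀ s, r i j (F s • σ s i) = (X j : MvPolynomial (Fin (N + 1)) K) ^ (t + 1) •
        r' i j (F s • σ s j) := by
      intro s
      have h5 := hF i j (n0 + e) (F s) (hFh s) (σ s j)
      rw [map_smul, hσ, hte, pow_add, mul_smul, h5, smul_comm]
    simp only [map_sub, map_sum, smul_sub, Finset.smul_sum, h4]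
    abel
  have E3 : ∀ t, ∃ W : Submodule K (∀ i j, M2 i j), W.FG ∧ Θ (t + 1) ≤ Θ t ⊔ W := by
    intro t
    let G : Submodule K ((∀ i j, M2 i j) × (∀ i, M i)) :=
      { carrier := {x | ∀ i j, r i j (x.2 i) -
          (X j : MvPolynomial (Fin (N + 1)) K) ^ (t + 1) • r' i j (x.2 j) =
            lin l ^ (t + 1) • x.1 i j}
        add_mem' := by
          rintro ⟨θ, b⟩ ⟨θ', b'⟩ hb hb' i j
          simp only [Set.mem_setOf_eq] at hb hb'
          simp only [Prod.mk_add_mk, Pi.add_apply, map_add, smul_add]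
          rw [← hb, ← hb']
          abel
        zero_mem' := by
          intro i j
          simp
        smul_mem' := by
          rintro a ⟨θ, b⟩ hb i j
          simp only [Set.mem_setOf_eq] at hb
          simp only [Prod.smul_mk, Pi.smul_apply, cM, cM2, map_smul, hr'C]
          rw [smul_comm _ _ (θ i j), ← hb, smul_sub, smul_comm _ _ (r' i j (b j))] }
    have hGm : ∀ x, x ∈ G ↔ ∀ i j, r i j (x.2 i) -
          (X j : MvPolynomial (Fin (N + 1)) K) ^ (t + 1) • r' i j (x.2 j) =
            lin l ^ (t + 1) • x.1 i j := fun x => Iff.rfl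
    let f : G →ₗ[K] (∀ i, M i ⧸ L i) :=
      (π.restrictScalars K) ∘ₗ (LinearMap.snd K _ _) ∘ₗ G.subtype
    have hf : ∀ x : G, f x = π (x : (∀ i j, M2 i j) × (∀ i, M i)).2 := fun x => rfl
    have hfr : LinearMap.range f ≤ H (t + 1) := by
      rintro _ ⟨x, rfl⟩
      refine (hH _ _).2 ⟨(x : (∀ i j, M2 i j) × (∀ i, M i)).2, ?_, rfl⟩
      rw [hΓ]
      intro i j
      refine ⟨lin l ^ t • (x : (∀ i j, M2 i j) × (∀ i, M i)).1 i j, ?_⟩
      rw [(hGm _).1 x.2 i j, smul_smul, ← pow_succ']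
    obtain ⟨W0, hW0, hW0f⟩ := exists_fg_lift f (H (t + 1)) (hfin (t + 1)) hfr
    let w : G →ₗ[K] (∀ i j, M2 i j) := (LinearMap.fst K _ _) ∘ₗ G.subtype
    refine ⟨W0.map w, hW0.map w, ?_⟩
    · rintro θ ⟨b, hb⟩
      let x : G := ⟨(θ, b), hb⟩
      obtain ⟨y, hyW, hy⟩ := hW0f x
      have hxy : π ((x - y : G) : (∀ i j, M2 i j) × (∀ i, M i)).2 = 0 := by
        rw [← hf, map_sub, hy, sub_self]
      obtain ⟨b', hb'⟩ := hπ0 _ hxy
      have hmem := (hGm _).1 (x - y).2
      have h3 : ((x - y : G) : (∀ i j, M2 i j) × (∀ i, M i)).1 ∈ Θ t := by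
        refine ⟨b', fun i j => ?_⟩
        apply sub_eq_zero.1
        apply hl2 i j
        rw [smul_sub, ← key, smul_smul, ← pow_succ', ← hmem i j, hb', sub_self]
      have h4 : θ = ((x - y : G) : (∀ i j, M2 i j) × (∀ i, M i)).1 + w y := by
        have h5 : w y = (y : (∀ i j, M2 i j) × (∀ i, M i)).1 := rfl
        rw [h5]
        have h6 : ((x - y : G) : (∀ i j, M2 i j) × (∀ i, M i)).1 =
            θ - (y : (∀ i j, M2 i j) × (∀ i, M i)).1 := rfl
        rw [h6, sub_add_cancel]
      rw [h4]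
      exact Submodule.add_mem_sup h3 ⟨y, hyW, rfl⟩
  have E4 : ∀ t, ∃ W : Submodule K (∀ i j, M2 i j), W.FG ∧ Θ t ≤ Θ 0 ⊔ W := by
    intro t
    induction t with
    | zero => exact ⟨⊥, Submodule.fg_bot, le_sup_left⟩
    | succ t ih =>
      obtain ⟨W, hW, hWt⟩ := ih
      obtain ⟨W', hW', hWt'⟩ := E3 t
      refine ⟨W ⊔ W', hW.sup hW', ?_⟩
      calc Θ (t + 1) ≤ Θ t ⊔ W' := hWt'
        _ ≤ (Θ 0 ⊔ W) ⊔ W' := sup_le_sup_right hWt _
        _ = Θ 0 ⊔ (W ⊔ W') := sup_assoc _ _ _
  have E5 : ∀ t, Θ t ≤ Θ (d + n0) := by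
    intro t
    rcases le_total t (d + n0) with h | h
    · exact (monotone_nat_of_le_succ E1) h
    · obtain ⟨u, rfl⟩ := Nat.exists_eq_add_of_le h
      clear h
      induction u with
      | zero => exact le_rfl
      | succ u ih => exact (E2 (d + n0 + u) (by omega)).trans ih
  obtain ⟨W, hW, hWT⟩ := E4 (d + n0)
  haveI : Module.Finite K W := Module.Finite.iff_fg.2 hW
  refine ⟨l, Module.finrank K W + 1, fun θ hθ => ?_⟩
  have h1 : ∀ n, ∃ c ∈ Θ 0, ∃ w ∈ W, c + w = θ n := by
    intro n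
    obtain ⟨t, b, hb⟩ := hθ n
    have h2 : θ n ∈ Θ t := ⟨b, hb⟩
    exact Submodule.mem_sup.1 (hWT (E5 t h2))
  choose c hc w hw hcw using h1
  have h2 : ¬ LinearIndependent K (fun n => (⟨w n, hw n⟩ : W)) := by
    intro hli
    have := hli.fintype_card_le_finrank
    rw [Fintype.card_fin] at this
    omega
  obtain ⟨a, ha, n1, hn1⟩ := Fintype.not_linearIndependent_iff.1 h2
  refine ⟨a, fun h => hn1 (by rw [h]; rfl), ?_⟩
  have h3 : ∑ n, a n • θ n ∈ Θ 0 := by
    have h4 : ∑ n, a n • θ n = ∑ n, a n • c n := by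
      have h5 : ∑ n, a n • w n = 0 := by
        have := congrArg Subtype.val ha
        simpa using this
      calc ∑ n, a n • θ n = ∑ n, (a n • c n + a n • w n) := by
            refine Finset.sum_congr rfl fun n _ => ?_
            rw [← smul_add, hcw]
        _ = ∑ n, a n • c n := by rw [Finset.sum_add_distrib, h5, add_zero]
    rw [h4]
    exact Submodule.sum_mem _ fun n _ => Submodule.smul_mem _ _ (hc n)
  obtain ⟨η, hη⟩ := h3
  refine ⟨η, fun i j => ?_⟩
  have h5 := hη i j
  rw [pow_zero, one_smul, pow_zero, one_smul] at h5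
  rw [h5]
  simp only [Finset.sum_apply, Pi.smul_apply, cM2]

end Pool.Agent.TH997
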