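import Mathlib

set_option autoImplicit false

namespace Pool.Agent.TH997

open Polynomial TensorProduct

/-- QB0: the derivation `d/dT`. -/
theorem QB0 {k L : Type} [Field k] [CharZero k] [Field L] [Algebra k L] (T : L)
    (hT : Transcendental k T) [FiniteDimensional (IntermediateField.adjoin k {T}) L] :
    ∃ δ : Derivation k L L, δ T = 1 := by
  classical
  let e : RatFunc k ≃ₐ[k] IntermediateField.adjoin k {T} := RatFunc.algEquivOfTranscendental T hT
  letI a1 : Algebra k[X] (IntermediateField.adjoin k {T}) :=
    (e.toAlgHom.comp (Algebra.algHom k k[X] (RatFunc k))).toAlgebra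
  letI a2 : Algebra k[X] L := (aeval T : k[X] →ₐ[k] L).toAlgebra
  have st1 : IsScalarTower k k[X] (IntermediateField.adjoin k {T}) :=
    IsScalarTower.of_algebraMap_eq fun x => by
      change _ = e (algebraMap k[X] (RatFunc k) (algebraMap k k[X] x))
      rw [← IsScalarTower.algebraMap_apply]
      exact (e.commutes x).symm
  have st2 : IsScalarTower k k[X] L := IsScalarTower.of_algebraMap_eq fun x => by
      change _ = aeval T (algebraMap k k[X] x)
      simp
  have st3 : IsScalarTower k[X] (IntermediateField.adjoin k {T}) L :=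
    IsScalarTower.of_algebraMap_eq fun x => by
      change aeval T x = ((e (algebraMap k[X] (RatFunc k) x) : IntermediateField.adjoin k {T}) : L)
      rw [RatFunc.algEquivOfTranscendental_algebraMap]
      exact Polynomial.aeval_algHom_apply (IntermediateField.adjoin k {T}).val
        (IntermediateField.AdjoinSimple.gen k T) x
  let e' : RatFunc k ≃ₐ[k[X]] IntermediateField.adjoin k {T} :=
    { e with commutes' := fun x => rfl }
  have fr : IsFractionRing k[X] (IntermediateField.adjoin k {T}) :=
    IsLocalization.isLocalization_of_algEquiv (nonZeroDivisors k[X]) e'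
  have fe1 : Algebra.FormallyEtale k[X] (IntermediateField.adjoin k {T}) :=
    Algebra.FormallyEtale.of_isLocalization (nonZeroDivisors k[X])
  have cz : CharZero (IntermediateField.adjoin k {T}) := inferInstance
  have fe2 : Algebra.FormallyEtale (IntermediateField.adjoin k {T}) L :=
    Algebra.FormallyEtale.of_isSeparable _ _
  have fe : Algebra.FormallyEtale k[X] L :=
    Algebra.FormallyEtale.comp k[X] (IntermediateField.adjoin k {T}) L
  let g : Ω[k[X]⁄k] →ₗ[k[X]] L :=
    (Algebra.linearMap k[X] L) ∘ₗ (KaehlerDifferential.polynomialEquiv k).toLinearMap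
  let G : L ⊗[k[X]] Ω[k[X]⁄k] →ₗ[L] L := g.liftBaseChange L
  let F : Ω[L⁄k] →ₗ[L] L :=
    G ∘ₗ (KaehlerDifferential.tensorKaehlerEquivOfFormallyEtale k k[X] L).symm.toLinearMap
  refine ⟨F.compDer (KaehlerDifferential.D k L), ?_⟩
  have hTX : T = algebraMap k[X] L X := by
    change T = aeval T X
    simp
  rw [hTX]
  change G ((KaehlerDifferential.tensorKaehlerEquivOfFormallyEtale k k[X] L).symm
    (KaehlerDifferential.D k L (algebraMap k[X] L X))) = 1
  rw [KaehlerDifferential.tensorKaehlerEquivOfFormallyEtale_symm_D_algebraMap]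
  simp [G, g]

end Pool.Agent.TH997
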