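import Mathlib

set_option autoImplicit false

namespace Pool.Agent.TH997

open Polynomial

section val

variable {L : Type*} [Field L] (O : ValuationSubring L)

theorem nu_mul {a b : L} (ha : a ∈ O) (hb : b ∈ O.nonunits) : a * b ∈ O.nonunits := by
  obtain ⟨hb', hb2⟩ := (O.mem_nonunits_iff_exists_mem_maximalIdeal).1 hb
  refine (O.mem_nonunits_iff_exists_mem_maximalIdeal).2 ⟨O.mul_mem _ _ ha hb', ?_⟩
  exact Ideal.mul_mem_left _ (⟨a, ha⟩ : O) hb2

theorem nu_mem {b : L} (hb : b ∈ O.nonunits) : b ∈ O :=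
  O.nonunits_subset hb

theorem nu_one : (1 : L) ∉ O.nonunits := by
  intro h
  rw [O.mem_nonunits_iff, map_one] at h
  exact lt_irrefl _ h

theorem nu_prime {a b : L} (ha : a ∈ O) (hb : b ∈ O) (h : a * b ∈ O.nonunits) :
    a ∈ O.nonunits ∨ b ∈ O.nonunits := by
  obtain ⟨hb', hb2⟩ := (O.mem_nonunits_iff_exists_mem_maximalIdeal).1 h
  have h3 : (⟨a, ha⟩ * ⟨b, hb⟩ : O) ∈ IsLocalRing.maximalIdeal O := hb2
  rcases (Ideal.IsPrime.mem_or_mem inferInstance h3) with h4 | h4
  · exact Or.inl ((O.mem_nonunits_iff_exists_mem_maximalIdeal).2 ⟨ha, h4⟩)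
  · exact Or.inr ((O.mem_nonunits_iff_exists_mem_maximalIdeal).2 ⟨hb, h4⟩)

theorem inv_mem_of {a : L} (h : a ∉ O.nonunits) : a⁻¹ ∈ O := by
  rw [O.mem_nonunits_iff_or] at h
  push Not at h
  exact h.2

variable {k : Type*} [Field k] [Algebra k L]

theorem aeval_mem {s : L} (hk : ∀ c : k, algebraMap k L c ∈ O) (hs : s ∈ O) (p : k[X]) :
    aeval s p ∈ O := by
  induction p using Polynomial.induction_on' with
  | add p q hp hq => rw [map_add]; exact O.add_mem _ _ hp hq
  | monomial n a =>
    rw [aeval_monomial]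
    exact O.mul_mem _ _ (hk a) (pow_mem hs n)

theorem aeval_res {s : L} (hk : ∀ c : k, algebraMap k L c ∈ O) (hs : s ∈ O.nonunits) (p : k[X]) :
    aeval s p - algebraMap k L (p.coeff 0) ∈ O.nonunits := by
  have h1 : aeval s p - algebraMap k L (p.coeff 0) = aeval s (divX p) * s := by
    conv_lhs => rw [← divX_mul_X_add p]
    simp
  rw [h1]
  exact nu_mul O (aeval_mem O hk (nu_mem O hs) _) hs

theorem res_of_monic [IsAlgClosed k] (hk : ∀ c : k, algebraMap k L c ∈ O) {x : L} (hx : x ∈ O) :
    ∀ (n : ℕ) (q : k[X]), q.Monic → q.natDegree = n → aeval x q ∈ O.nonunits →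
      ∃ c : k, x - algebraMap k L c ∈ O.nonunits := by
  intro n
  induction n with
  | zero =>
    intro q hq hn h
    have : q = 1 := hq.natDegree_eq_zero.1 hn
    rw [this, map_one] at h
    exact absurd h (nu_one O)
  | succ n ih =>
    intro q hq hn h
    obtain ⟨r, hr⟩ := IsAlgClosed.exists_root q (by
      intro h0
      rw [Polynomial.degree_eq_natDegree hq.ne_zero, hn] at h0
      exact absurd h0 (by exact_mod_cast Nat.succ_ne_zero n))
    obtain ⟨q', hq'⟩ := dvd_iff_isRoot.2 hr
    have hm : q'.Monic := by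
      have := hq
      rw [hq'] at this
      exact (monic_X_sub_C r).of_mul_monic_left this
    have hd : q'.natDegree = n := by
      have := natDegree_mul (monic_X_sub_C r).ne_zero hm.ne_zero
      rw [← hq', hn, natDegree_X_sub_C] at this
      omega
    rw [hq', map_mul] at h
    have h1 : aeval x (X - C r) = x - algebraMap k L r := by simp
    rw [h1] at h
    rcases nu_prime O (O.sub_mem hx (hk r)) (aeval_mem O hk hx q') h with h | h
    · exact ⟨r, h⟩
    · exact ih q' hm hd h

end val

section LL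

variable {k L : Type*} [Field k] [Field L] [Algebra k L]

theorem adj_form {s x : L} (hx : x ∈ Algebra.adjoin k {s}) : ∃ p : k[X], aeval s p = x := by
  rw [Algebra.adjoin_singleton_eq_range_aeval] at hx
  exact hx

theorem integral_mem {s : L} (O : ValuationSubring L) (hk : ∀ c : k, algebraMap k L c ∈ O)
    (hsO : s ∈ O) {x : L} (hx : IsIntegral (Algebra.adjoin k {s}) x) : x ∈ O := by
  have hle : ∀ r : Algebra.adjoin k {s}, (r : L) ∈ O := by
    rintro ⟨r, hr⟩
    rw [Algebra.adjoin_singleton_eq_range_aeval] at hr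
    obtain ⟨p, rfl⟩ := hr
    exact aeval_mem O hk hsO p
  let inc : Algebra.adjoin k {s} →+* O :=
    { toFun := fun r => ⟨r, hle r⟩
      map_one' := rfl
      map_mul' := fun _ _ => rfl
      map_zero' := rfl
      map_add' := fun _ _ => rfl }
  obtain ⟨p, hp, hpx⟩ := hx
  have h2 : IsIntegral O x := by
    refine ⟨p.map inc, hp.map inc, ?_⟩
    rw [eval₂_map]
    exact hpx
  obtain ⟨y, hy⟩ := IsIntegrallyClosed.isIntegral_iff.1 h2
  rw [← hy]
  exact y.2

theorem integral_res [IsAlgClosed k] {s : L} (O : ValuationSubring L) (hk : ∀ c : k, algebraMap k L c ∈ O)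
    (hsO : s ∈ O.nonunits) {x : L} (hx : IsIntegral (Algebra.adjoin k {s}) x) :
    ∃ c : k, x - algebraMap k L c ∈ O.nonunits := by
  have hxO := integral_mem O hk (nu_mem O hsO) hx
  obtain ⟨p, hp, hpx⟩ := hx
  have hc : ∀ i, ∃ c : k, algebraMap k L c - (p.coeff i : L) ∈ O.nonunits := by
    intro i
    obtain ⟨q, hq⟩ := adj_form (p.coeff i).2
    refine ⟨q.coeff 0, ?_⟩
    have h2 := aeval_res O hk hsO q
    rw [hq] at h2
    have h4 := O.nonunits.neg_mem h2
    rwa [neg_sub] at h4
  choose c hc using hc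
  set n := p.natDegree with hn
  let q : k[X] := X ^ n + ∑ i ∈ Finset.range n, C (c i) * X ^ i
  have hdeg : (∑ i ∈ Finset.range n, C (c i) * X ^ i : k[X]).degree < n := by
    refine Polynomial.mem_degreeLT.1 (Submodule.sum_mem _ fun i hi => Polynomial.mem_degreeLT.2 ?_)
    refine lt_of_le_of_lt (degree_C_mul_X_pow_le _ _) ?_
    exact_mod_cast Finset.mem_range.1 hi
  have hqm : q.Monic := monic_X_pow_add hdeg
  have hqx : aeval x q ∈ O.nonunits := by
    have h1 : aeval x q = ∑ i ∈ Finset.range n, (algebraMap k L (c i) - (p.coeff i : L)) * x ^ i := by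
      have h2 : x ^ n + ∑ i ∈ Finset.range n, (p.coeff i : L) * x ^ i = 0 := by
        have h3 := hpx
        rw [eval₂_eq_sum_range, Finset.sum_range_succ] at h3
        have h4 : (p.coeff p.natDegree) = 1 := hp
        rw [h4, map_one, one_mul] at h3
        rw [add_comm]
        exact h3
      have h5 : aeval x q = x ^ n + ∑ i ∈ Finset.range n, algebraMap k L (c i) * x ^ i := by
        simp [q]
      rw [h5, eq_neg_of_add_eq_zero_left h2]
      simp only [sub_mul, Finset.sum_sub_distrib]
      ring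
    rw [h1]
    refine sum_mem fun i _ => ?_
    rw [mul_comm]
    exact nu_mul O (pow_mem hxO i) (hc i)
  exact res_of_monic O hk hxO _ q hqm rfl hqx

end LL

end Pool.Agent.TH997
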