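import Mathlib
import Pool.Agent.TH997.QBb

set_option autoImplicit false

namespace Pool.Agent.TH997

open Polynomial
open scoped IntermediateField.algebraAdjoinAdjoin

section DVR

variable {k L : Type} [Field k] [CharZero k] [Field L] [Algebra k L]

/-- Structure of a valuation ring of a function field of one variable. -/
theorem val_struct (s : L) (hs : Transcendental k s)
    [FiniteDimensional (IntermediateField.adjoin k {s}) L]
    (O : ValuationSubring L) (hk : ∀ c : k, algebraMap k L c ∈ O) (hsO : s ∈ O.nonunits) :
    IsDiscreteValuationRing O ∧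
    (∀ x ∈ O, ∃ a b : L, IsIntegral (Algebra.adjoin k {s}) a ∧
      IsIntegral (Algebra.adjoin k {s}) b ∧ b ∉ O.nonunits ∧ b ≠ 0 ∧ x * b = a) ∧
    ∃ S : Finset L, ∀ a : L, IsIntegral (Algebra.adjoin k {s}) a →
      a ∈ Submodule.span (Algebra.adjoin k {s}) (S : Set L) := by
  classical
  have hs0 : s ≠ 0 := fun h => hs (h ▸ isAlgebraic_zero)
  have pir : IsPrincipalIdealRing (Algebra.adjoin k {s}) := by
    let φ : k[X] →+* Algebra.adjoin k {s} :=
      (AlgHom.codRestrict (aeval s) (Algebra.adjoin k {s}) (fun p =>
        aeval_mem_adjoin_singleton k s)).toRingHom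
    refine IsPrincipalIdealRing.of_surjective φ ?_
    rintro ⟨r, hr⟩
    obtain ⟨p, hp⟩ := adj_form hr
    exact ⟨p, Subtype.ext hp⟩
  have ded : IsDedekindDomain (Algebra.adjoin k {s}) := inferInstance
  have dedA : IsDedekindDomain (integralClosure (Algebra.adjoin k {s}) L) :=
    integralClosure.isDedekindDomain (Algebra.adjoin k {s}) (IntermediateField.adjoin k {s}) L
  have finA : Module.Finite (Algebra.adjoin k {s}) (integralClosure (Algebra.adjoin k {s}) L) :=
    IsIntegralClosure.finite (Algebra.adjoin k {s}) (IntermediateField.adjoin k {s}) L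
      (integralClosure (Algebra.adjoin k {s}) L)
  have frA : IsFractionRing (integralClosure (Algebra.adjoin k {s}) L) L :=
    IsIntegralClosure.isFractionRing_of_finite_extension (Algebra.adjoin k {s})
      (IntermediateField.adjoin k {s}) L (integralClosure (Algebra.adjoin k {s}) L)
  have hAO : ∀ a : integralClosure (Algebra.adjoin k {s}) L, (a : L) ∈ O := fun a =>
    integral_mem O hk (nu_mem O hsO) a.2
  let inc : integralClosure (Algebra.adjoin k {s}) L →+* O :=
    { toFun := fun r => ⟨r, hAO r⟩
      map_one' := rfl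
      map_mul' := fun _ _ => rfl
      map_zero' := rfl
      map_add' := fun _ _ => rfl }
  letI alg : Algebra (integralClosure (Algebra.adjoin k {s}) L) O := inc.toAlgebra
  have halg : ∀ a, ((algebraMap (integralClosure (Algebra.adjoin k {s}) L) O a : O) : L) = a :=
    fun a => rfl
  let P : Ideal (integralClosure (Algebra.adjoin k {s}) L) :=
    Ideal.comap (algebraMap _ O) (IsLocalRing.maximalIdeal O)
  have hPp : P.IsPrime := Ideal.IsPrime.comap _
  have hPm : ∀ a : integralClosure (Algebra.adjoin k {s}) L, a ∈ P ↔ (a : L) ∈ O.nonunits := by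
    intro a
    rw [← halg a, O.coe_mem_nonunits_iff]
    rfl
  have hsA : IsIntegral (Algebra.adjoin k {s}) s := by
    have : s = algebraMap (Algebra.adjoin k {s}) L ⟨s, Algebra.self_mem_adjoin_singleton k s⟩ := rfl
    rw [this]
    exact isIntegral_algebraMap
  have hP0 : P ≠ ⊥ := by
    intro h
    have h1 : (⟨s, hsA⟩ : integralClosure (Algebra.adjoin k {s}) L) ∈ P := (hPm _).2 hsO
    rw [h] at h1
    exact hs0 (congrArg Subtype.val (Ideal.mem_bot.1 h1))
  have dvr := IsLocalization.AtPrime.isDiscreteValuationRing_of_dedekind_domain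
    (integralClosure (Algebra.adjoin k {s}) L) hP0 (Localization.AtPrime P)
  have dom : IsDomain (Localization.AtPrime P) := inferInstance
  have dvr' : IsDiscreteValuationRing (Localization.AtPrime P) := dvr
  have vr : ValuationRing (Localization.AtPrime P) := inferInstance
  have pvr : PreValuationRing (Localization.AtPrime P) := vr.toPreValuationRing
  -- fractions
  have key : ∀ x ∈ O, ∃ a b : integralClosure (Algebra.adjoin k {s}) L, b ∉ P ∧ x * b = a := by
    intro x hx
    obtain ⟨a, b, hb, hab⟩ := IsFractionRing.div_surjective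
      (A := integralClosure (Algebra.adjoin k {s}) L) x
    have hb0 : b ≠ 0 := nonZeroDivisors.ne_zero hb
    have hbL : (b : L) ≠ 0 := fun h => hb0 (Subtype.ext h)
    have hxab : x = (a : L) / (b : L) := hab.symm
    have hinj : Function.Injective (algebraMap (integralClosure (Algebra.adjoin k {s}) L)
        (Localization.AtPrime P)) :=
      IsLocalization.injective (M := P.primeCompl) (Localization.AtPrime P) P.primeCompl_le_nonZeroDivisors
    rcases ValuationRing.dvd_total
      (algebraMap (integralClosure (Algebra.adjoin k {s}) L) (Localization.AtPrime P) b)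
      (algebraMap (integralClosure (Algebra.adjoin k {s}) L) (Localization.AtPrime P) a) with h | h
    · obtain ⟨z, hz⟩ := h
      obtain ⟨c, d, rfl⟩ := IsLocalization.exists_mk'_eq P.primeCompl z
      have h1 : a * d = b * c := by
        apply hinj
        rw [map_mul, map_mul, hz, mul_assoc, IsLocalization.mk'_spec]
      refine ⟨c, d, d.2, ?_⟩
      have h2 : (a : L) * ((d : integralClosure (Algebra.adjoin k {s}) L) : L) = b * c := by
        exact_mod_cast congrArg (Subtype.val) h1
      rw [hxab, div_mul_eq_mul_div, h2, mul_div_cancel_left₀ _ hbL]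
    · obtain ⟨z, hz⟩ := h
      obtain ⟨c, d, rfl⟩ := IsLocalization.exists_mk'_eq P.primeCompl z
      have h1 : b * d = a * c := by
        apply hinj
        rw [map_mul, map_mul, hz, mul_assoc, IsLocalization.mk'_spec]
      have h2 : (b : L) * ((d : integralClosure (Algebra.adjoin k {s}) L) : L) = a * c := by
        exact_mod_cast congrArg (Subtype.val) h1
      have hdP : ((d : integralClosure (Algebra.adjoin k {s}) L) : L) ∉ O.nonunits := fun h =>
        d.2 ((hPm _).2 h)
      have h3 : ((d : integralClosure (Algebra.adjoin k {s}) L) : L) = x * c := by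
        rw [hxab, div_mul_eq_mul_div, ← h2, mul_div_cancel_left₀ _ hbL]
      by_cases hcP : c ∈ P
      · exfalso
        apply hdP
        rw [h3]
        exact nu_mul O hx ((hPm _).1 hcP)
      · exact ⟨d, c, hcP, h3.symm⟩
  have loc : IsLocalization.AtPrime O P := by
    refine ⟨?_, ?_, ?_⟩
    · rintro ⟨b, hb⟩
      by_contra hcon
      exact hb hcon
    · intro z
      obtain ⟨a, b, hb, hab⟩ := key z z.2
      exact ⟨(a, ⟨b, hb⟩), Subtype.ext hab⟩
    · intro a b h
      refine ⟨1, ?_⟩
      have h1 : (a : L) = b := congrArg (fun z : O => (z : L)) h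
      have h2 : a = b := Subtype.ext h1
      rw [h2]
  refine ⟨IsLocalization.AtPrime.isDiscreteValuationRing_of_dedekind_domain
    (integralClosure (Algebra.adjoin k {s}) L) hP0 O, ?_, ?_⟩
  · intro x hx
    obtain ⟨a, b, hb, hab⟩ := key x hx
    refine ⟨a, b, a.2, b.2, fun h => hb ((hPm _).2 h), ?_, hab⟩
    intro h
    apply hb
    rw [hPm, h]
    exact O.nonunits.zero_mem
  · obtain ⟨S, hS⟩ := finA.fg_top
    refine ⟨S.image Subtype.val, fun a ha => ?_⟩
    have h1 : (⟨a, ha⟩ : integralClosure (Algebra.adjoin k {s}) L) ∈
        Submodule.span (Algebra.adjoin k {s}) (S : Set _) := by rw [hS]; trivial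
    have h2 := Submodule.mem_map_of_mem
      (f := (integralClosure (Algebra.adjoin k {s}) L).val.toLinearMap) h1
    rw [Submodule.map_span] at h2
    rw [Finset.coe_image]
    exact h2

end DVR

end Pool.Agent.TH997
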