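import Mathlib
import Pool.Agent.TH997.QBb
import Pool.Agent.TH997.QBc

set_option autoImplicit false

namespace Pool.Agent.TH997

open Polynomial

section LL

variable {k L : Type} [Field k] [CharZero k] [IsAlgClosed k] [Field L] [Algebra k L]

/-- The local lemma: a derivation with `D s = s` maps the valuation ring into its maximal ideal. -/
theorem LL (s : L) (hs : Transcendental k s)
    [FiniteDimensional (IntermediateField.adjoin k {s}) L]
    (D : Derivation k L L) (hD : D s = s)
    (O : ValuationSubring L) (hk : ∀ c : k, algebraMap k L c ∈ O) (hsO : s ∈ O.nonunits) :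
    ∀ x ∈ O, D x ∈ O.nonunits := by
  classical
  obtain ⟨dvr, hfrac, S, hS⟩ := val_struct s hs O hk hsO
  have hs0 : s ≠ 0 := fun h => hs (h ▸ isAlgebraic_zero)
  have cz : CharZero L := charZero_of_injective_algebraMap (algebraMap k L).injective
  -- residues
  have hres : ∀ x ∈ O, ∃ c : k, x - algebraMap k L c ∈ O.nonunits := by
    intro x hx
    obtain ⟨a, b, ha, hb, hbn, hb0, hab⟩ := hfrac x hx
    obtain ⟨ca, hca⟩ := integral_res O hk hsO ha
    obtain ⟨cb, hcb⟩ := integral_res O hk hsO hb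
    have hcb0 : cb ≠ 0 := by
      rintro rfl
      rw [map_zero, sub_zero] at hcb
      exact hbn hcb
    have hcbL : algebraMap k L cb ≠ 0 := by
      simpa using hcb0
    refine ⟨ca / cb, ?_⟩
    have h1 : x - algebraMap k L (ca / cb) =
        b⁻¹ * ((a - algebraMap k L ca) -
          algebraMap k L (ca / cb) * (b - algebraMap k L cb)) := by
      rw [map_div₀]
      field_simp
      rw [← hab]
      ring
    rw [h1]
    exact nu_mul O (inv_mem_of O hbn) (O.nonunits.sub_mem hca (nu_mul O (hk _) hcb))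
  -- boundedness
  have hy1 : ∀ z : L, ∃ y : L, y ∈ O ∧ y ≠ 0 ∧ y * z ∈ O := by
    intro z
    rcases O.mem_or_inv_mem z with h | h
    · exact ⟨1, O.one_mem, one_ne_zero, by rwa [one_mul]⟩
    · by_cases h0 : z = 0
      · exact ⟨1, O.one_mem, one_ne_zero, by rw [h0, mul_zero]; exact O.zero_mem⟩
      · exact ⟨z⁻¹, h, inv_ne_zero h0, by rw [inv_mul_cancel₀ h0]; exact O.one_mem⟩
  have hy : ∀ z : L, ∃ y : L, y ∈ O ∧ y ≠ 0 ∧ y * z ∈ O ∧ y * D z ∈ O := by
    intro z
    obtain ⟨y1, h1, h1', h1''⟩ := hy1 z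
    obtain ⟨y2, h2, h2', h2''⟩ := hy1 (D z)
    refine ⟨y1 * y2, O.mul_mem _ _ h1 h2, mul_ne_zero h1' h2', ?_, ?_⟩
    · rw [mul_right_comm]; exact O.mul_mem _ _ h1'' h2
    · rw [mul_assoc]; exact O.mul_mem _ _ h1 h2''
  choose yy hyO hy0 hyz hyD using hy
  let y : L := ∏ z ∈ S, yy z
  have hyOm : y ∈ O := prod_mem fun z _ => hyO z
  have hyne : y ≠ 0 := Finset.prod_ne_zero_iff.2 fun z _ => hy0 z
  have hDadj : ∀ r : Algebra.adjoin k {s}, D (r : L) ∈ O := by
    intro r
    obtain ⟨p, hp⟩ := adj_form r.2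
    rw [← hp, Derivation.map_aeval, hD, smul_eq_mul]
    exact O.mul_mem _ _ (aeval_mem O hk (nu_mem O hsO) _) (nu_mem O hsO)
  have hradj : ∀ r : Algebra.adjoin k {s}, (r : L) ∈ O := by
    intro r
    obtain ⟨p, hp⟩ := adj_form r.2
    rw [← hp]
    exact aeval_mem O hk (nu_mem O hsO) _
  have hbA : ∀ a : L, IsIntegral (Algebra.adjoin k {s}) a → y * D a ∈ O := by
    intro a ha
    obtain ⟨f, -, hf⟩ := Submodule.mem_span_finset.1 (hS a ha)
    rw [← hf, map_sum, Finset.mul_sum]
    refine sum_mem fun z hz => ?_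
    have h1 : f z • z = (f z : L) * z := rfl
    have h2 : y = yy z * ∏ w ∈ S.erase z, yy w := (Finset.mul_prod_erase S yy hz).symm
    have h3 : ∏ w ∈ S.erase z, yy w ∈ O := prod_mem fun w _ => hyO w
    rw [h1, Derivation.leibniz, smul_eq_mul, smul_eq_mul, h2]
    have h4 : yy z * (∏ w ∈ S.erase z, yy w) * ((f z : L) * D z + z * D (f z : L)) =
        (∏ w ∈ S.erase z, yy w) * ((f z : L) * (yy z * D z) + (yy z * z) * D (f z : L)) := by ring
    rw [h4]
    exact O.mul_mem _ _ h3 (O.add_mem _ _ (O.mul_mem _ _ (hradj _) (hyD z))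
      (O.mul_mem _ _ (hyz z) (hDadj _)))
  have hbO : ∀ x ∈ O, y * D x ∈ O := by
    intro x hx
    obtain ⟨a, b, ha, hb, hbn, hb0, hab⟩ := hfrac x hx
    have h1 : D a = x * D b + b * D x := by
      rw [← hab, Derivation.leibniz, smul_eq_mul, smul_eq_mul]
    have h2 : y * D x = b⁻¹ * (y * D a - x * (y * D b)) := by
      rw [h1]; field_simp; ring
    rw [h2]
    exact O.mul_mem _ _ (inv_mem_of O hbn)
      (O.sub_mem (hbA a ha) (O.mul_mem _ _ hx (hbA b hb)))
  -- the module generated by `D '' O`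
  let J : Submodule O L := Submodule.span O (D '' (O : Set L))
  have hJy : ∀ z ∈ J, y * z ∈ O := by
    intro z hz
    induction hz using Submodule.span_induction with
    | mem z hz =>
      obtain ⟨x, hx, rfl⟩ := hz
      exact hbO x hx
    | zero => rw [mul_zero]; exact O.zero_mem
    | add a b _ _ ha hb => rw [mul_add]; exact O.add_mem _ _ ha hb
    | smul r a _ ha =>
      have h1 : y * (r • a) = (r : L) * (y * a) := by
        change y * ((r : L) * a) = _
        ring
      rw [h1]
      exact O.mul_mem _ _ r.2 ha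
  have hJfg : J.FG := by
    let φ : J →ₗ[O] O :=
      { toFun := fun z => ⟨y * z, hJy z z.2⟩
        map_add' := fun a b => Subtype.ext (by
          change y * ((a : L) + (b : L)) = y * a + y * b
          ring)
        map_smul' := fun r a => Subtype.ext (by
          change y * ((r : L) * (a : L)) = (r : L) * (y * a)
          ring) }
    have hφ : Function.Injective φ := by
      intro a b hab
      have h1 : y * (a : L) = y * b := congrArg (fun z : O => (z : L)) hab
      exact Subtype.ext (mul_left_cancel₀ hyne h1)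
    have h1 : IsNoetherian O J := isNoetherian_of_injective φ hφ
    have h2 : Module.Finite O J := inferInstance
    exact Module.Finite.iff_fg.1 h2
  let Q : Submodule O L := 1 ⊔ J
  have hQfg : Q.FG := Submodule.FG.sup (by
    rw [Submodule.one_eq_span]
    exact Submodule.fg_span_singleton 1) hJfg
  have hOQ : ∀ x ∈ O, x ∈ Q := fun x hx =>
    Submodule.mem_sup_left (Submodule.mem_one.2 ⟨⟨x, hx⟩, rfl⟩)
  have hDQ : ∀ x ∈ O, D x ∈ Q := fun x hx =>
    Submodule.mem_sup_right (Submodule.subset_span ⟨x, hx, rfl⟩)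
  have hQmul : ∀ x ∈ O, ∀ z ∈ Q, x * z ∈ Q := fun x hx z hz =>
    Q.smul_mem (⟨x, hx⟩ : O) hz
  -- the logarithmic derivative
  obtain ⟨ϖ, hϖ⟩ := IsDiscreteValuationRing.exists_irreducible O
  have hnu : ∀ x ∈ O.nonunits, D x ∈ IsLocalRing.maximalIdeal O • Q := by
    intro x hx
    by_cases hx0 : x = 0
    · rw [hx0, map_zero]; exact Submodule.zero_mem _
    have hxO := nu_mem O hx
    have hx0' : (⟨x, hxO⟩ : O) ≠ 0 := fun h => hx0 (congrArg (fun z : O => (z : L)) h)
    have hs0' : (⟨s, nu_mem O hsO⟩ : O) ≠ 0 := fun h => hs0 (congrArg (fun z : O => (z : L)) h)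
    obtain ⟨a, u1, h1⟩ := IsDiscreteValuationRing.eq_unit_mul_pow_irreducible hx0' hϖ
    obtain ⟨e, u2, h2⟩ := IsDiscreteValuationRing.eq_unit_mul_pow_irreducible hs0' hϖ
    have he : e ≠ 0 := by
      rintro rfl
      rw [pow_zero, mul_one] at h2
      obtain ⟨hs', hs2⟩ := (O.mem_nonunits_iff_exists_mem_maximalIdeal).1 hsO
      have h3 : (⟨s, hs'⟩ : O) = (u2 : O) := h2
      rw [h3] at hs2
      exact (IsLocalRing.mem_maximalIdeal _).1 hs2 u2.isUnit
    let w : O := ((u1 ^ e * (u2 ^ a)⁻¹ : Oˣ) : O)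
    let w' : O := ((u2 ^ a * (u1 ^ e)⁻¹ : Oˣ) : O)
    have hww : (w : L) * w' = 1 := by
      have : w * w' = 1 := by
        rw [← Units.val_mul]
        simp
      exact congrArg (fun z : O => (z : L)) this
    have hw0 : (w : L) ≠ 0 := left_ne_zero_of_mul_eq_one hww
    have hxs : x ^ e = s ^ a * (w : L) := by
      have h3 : (⟨x, hxO⟩ : O) ^ e = (⟨s, nu_mem O hsO⟩ : O) ^ a * w := by
        rw [h1, h2, mul_pow, mul_pow, ← pow_mul, ← pow_mul, mul_comm a e]
        have h4 : (u2 : O) ^ a * w = (u1 : O) ^ e := by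
          change (u2 : O) ^ a * ((u1 ^ e * (u2 ^ a)⁻¹ : Oˣ) : O) = _
          rw [← Units.val_pow_eq_pow_val, ← Units.val_mul, ← Units.val_pow_eq_pow_val]
          congr 1
          rw [mul_comm (u1 ^ e), mul_inv_cancel_left]
        rw [← h4]
        ring
      exact congrArg (fun z : O => (z : L)) h3
    have hDx : D x = x * ((a : L) / e + (w' : L) / e * D (w : L)) := by
      have h3 := congrArg D hxs
      rw [Derivation.leibniz_pow, Derivation.leibniz, Derivation.leibniz_pow, hD] at h3
      simp only [smul_eq_mul, nsmul_eq_mul] at h3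
      have he' : (e : L) ≠ 0 := Nat.cast_ne_zero.2 he
      have h4 : (a : L) * (s ^ (a - 1) * s) = a * s ^ a := by
        rcases Nat.eq_zero_or_pos a with h | h
        · subst h; simp
        · rw [← pow_succ, Nat.sub_add_cancel h]
      have h5 : x ^ (e - 1) * x = x ^ e := by
        rw [← pow_succ, Nat.sub_add_cancel (Nat.pos_of_ne_zero he)]
      have hw' : (w' : L) = (w : L)⁻¹ := (eq_inv_of_mul_eq_one_right hww)
      have h6 : (e : L) * (x ^ (e - 1) * D x) = s ^ a * D (w : L) + w * (a * s ^ a) := by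
        rw [h3, h4]
      have h7 : (e : L) * (x ^ e * D x) = x * (s ^ a * D (w : L) + w * (a * s ^ a)) := by
        rw [← h6, ← h5]; ring
      have hsa : s ^ a = x ^ e * (w' : L) := by
        rw [hxs, mul_assoc, hww, mul_one]
      rw [hsa] at h7
      have hxe : x ^ e ≠ 0 := pow_ne_zero _ hx0
      have h8 : (e : L) * D x = x * ((w' : L) * D (w : L) + (w : L) * w' * a) := by
        apply mul_left_cancel₀ hxe
        calc x ^ e * ((e : L) * D x) = (e : L) * (x ^ e * D x) := by ring
          _ = _ := by rw [h7]; ring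
      rw [hww, one_mul] at h8
      field_simp
      rw [mul_comm (D x), h8]
      ring
    rw [hDx]
    have hmem : (⟨x, hxO⟩ : O) ∈ IsLocalRing.maximalIdeal O := O.coe_mem_nonunits_iff.1 hx
    have hrat : ∀ n m : ℕ, ((n : L) / m) ∈ O := by
      intro n m
      have : ((n : L) / m) = algebraMap k L ((n : k) / m) := by
        rw [map_div₀, map_natCast, map_natCast]
      rw [this]; exact hk _
    refine Submodule.smul_mem_smul hmem ?_
    refine Q.add_mem (hOQ _ (hrat a e)) ?_
    have h9 : (w' : L) / e = (w' : L) * (((1 : ℕ) : L) / e) := by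
      rw [Nat.cast_one]; ring
    rw [h9]
    exact hQmul _ (O.mul_mem _ _ w'.2 (hrat 1 e)) _ (hDQ _ w.2)
  have hJm : J ≤ IsLocalRing.maximalIdeal O • Q := by
    refine Submodule.span_le.2 ?_
    rintro _ ⟨x, hx, rfl⟩
    obtain ⟨c, hc⟩ := hres x hx
    have h1 : D x = D (x - algebraMap k L c) := by
      rw [map_sub, Derivation.map_algebraMap, sub_zero]
    rw [h1]
    exact hnu _ hc
  have hQ1 : Q ≤ 1 := by
    refine Submodule.le_of_le_smul_of_le_jacobson_bot hQfg (I := IsLocalRing.maximalIdeal O) ?_ ?_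
    · rw [IsLocalRing.jacobson_eq_maximalIdeal ⊥ bot_ne_top]
    · exact sup_le le_sup_left (hJm.trans le_sup_right)
  have hfin : ∀ z ∈ IsLocalRing.maximalIdeal O • Q, z ∈ O.nonunits := by
    intro z hz
    induction hz using Submodule.smul_induction_on' with
    | smul r hr n hn =>
      obtain ⟨n', hn'⟩ := Submodule.mem_one.1 (hQ1 hn)
      have h1 : r • n = (n' : L) * (r : L) := by
        rw [← hn']
        change (r : L) * (n' : L) = _
        ring
      rw [h1]
      exact nu_mul O n'.2 (O.coe_mem_nonunits_iff.2 hr)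
    | add a _ b _ ha hb => exact O.nonunits.add_mem ha hb
  intro x hx
  exact hfin _ (hJm (Submodule.subset_span ⟨x, hx, rfl⟩))

end LL

end Pool.Agent.TH997
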