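import Mathlib
import Pool.Agent.TH997.QBa
import Pool.Agent.TH997.QBb
import Pool.Agent.TH997.QBc
import Pool.Agent.TH997.QBd

set_option autoImplicit false

namespace Pool.Agent.TH997

open Polynomial

section final

variable {k : Type} [Field k]

theorem exists_val {E : Type} [Field E] [Algebra k E] (s : E) (hs : Transcendental k s) :
    ∃ O : ValuationSubring E, (∀ c : k, algebraMap k E c ∈ O) ∧ s ∈ O.nonunits := by
  let A : Subring E := (Algebra.adjoin k {s}).toSubring
  have hsA : s ∈ A := Algebra.self_mem_adjoin_singleton k s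
  let I : Ideal A := Ideal.span {(⟨s, hsA⟩ : A)}
  have hI : I ≠ ⊤ := by
    intro h
    have h1 : (1 : A) ∈ I := by rw [h]; trivial
    obtain ⟨r, hr⟩ := Ideal.mem_span_singleton'.1 h1
    obtain ⟨p, hp⟩ := adj_form (k := k) (s := s) r.2
    have h2 : (r : E) * s = 1 := congrArg Subtype.val hr
    apply hs
    refine ⟨p * X - 1, ?_, ?_⟩
    · intro h3
      have h4 := congrArg (fun q => coeff q 0) h3
      simp at h4
    · rw [map_sub, map_mul, aeval_X, map_one, hp, h2, sub_self]
  obtain ⟨O, hO, hO2⟩ := Ideal.image_subset_nonunits_valuationSubring I hI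
  refine ⟨O, fun c => hO ((Algebra.adjoin k {s}).algebraMap_mem c), ?_⟩
  exact hO2 ⟨⟨s, hsA⟩, Ideal.subset_span rfl, rfl⟩

theorem comap_nonunits {L E : Type} [Field L] [Field E] (O : ValuationSubring E) (σ : L →+* E)
    (x : L) : x ∈ (O.comap σ).nonunits ↔ σ x ∈ O.nonunits := by
  rw [ValuationSubring.mem_nonunits_iff_or, ValuationSubring.mem_nonunits_iff_or,
    ValuationSubring.mem_comap, map_inv₀, map_eq_zero]

theorem const_not {E : Type} [Field E] [Algebra k E] (O : ValuationSubring E)
    (hk : ∀ c : k, algebraMap k E c ∈ O) (c : k) (hc : c ≠ 0) :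
    algebraMap k E c ∉ O.nonunits := by
  intro h
  have h1 := nu_mul O (hk c⁻¹) h
  rw [← map_mul, inv_mul_cancel₀ hc, map_one] at h1
  exact nu_one O h1

theorem frac_form {L : Type} [Field L] [Algebra k L] (T : L) (hT : Transcendental k T)
    (g : IntermediateField.adjoin k {T}) :
    ∃ a b : k[X], IsCoprime a b ∧ b ≠ 0 ∧ (g : L) * aeval T b = aeval T a := by
  let e : RatFunc k ≃ₐ[k] IntermediateField.adjoin k {T} := RatFunc.algEquivOfTranscendental T hT
  have he : ∀ p : k[X], ((e (algebraMap k[X] (RatFunc k) p) : IntermediateField.adjoin k {T}) : L) =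
      aeval T p := by
    intro p
    have h1 : e (algebraMap k[X] (RatFunc k) p) = aeval (IntermediateField.AdjoinSimple.gen k T) p :=
      RatFunc.algEquivOfTranscendental_algebraMap T hT p
    rw [h1]
    exact (Polynomial.aeval_algHom_apply (IntermediateField.adjoin k {T}).val
      (IntermediateField.AdjoinSimple.gen k T) p).symm
  refine ⟨(e.symm g).num, (e.symm g).denom, RatFunc.isCoprime_num_denom _, RatFunc.denom_ne_zero _,
    ?_⟩
  have hd : algebraMap k[X] (RatFunc k) (e.symm g).denom ≠ 0 :=
    RatFunc.algebraMap_ne_zero (RatFunc.denom_ne_zero _)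
  have h2 : (e.symm g) * algebraMap k[X] (RatFunc k) (e.symm g).denom =
      algebraMap k[X] (RatFunc k) (e.symm g).num := by
    have h3 := RatFunc.num_div_denom (e.symm g)
    exact (div_eq_iff hd).1 h3 |>.symm
  have h4 := congrArg e h2
  rw [map_mul, e.apply_symm_apply] at h4
  have h5 := congrArg (Subtype.val) h4
  rw [← he, ← he]
  exact h5

theorem rev_form {E : Type} [Field E] [Algebra k E] (t u : E) (htu : u * t = 1) (p : k[X]) :
    aeval u (reverse p) = u ^ p.natDegree * aeval t p := by
  have ht : t ≠ 0 := right_ne_zero_of_mul_eq_one htu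
  letI : Invertible t := ⟨u, htu, by rw [mul_comm]; exact htu⟩
  have h5 := eval₂_reverse_mul_pow (algebraMap k E) t p
  have h6 : (⅟ t : E) = u := rfl
  rw [h6] at h5
  rw [aeval_def, aeval_def, ← h5]
  have h7 : u ^ p.natDegree * t ^ p.natDegree = 1 := by rw [← mul_pow, htu, one_pow]
  calc eval₂ (algebraMap k E) u (reverse p) =
      eval₂ (algebraMap k E) u (reverse p) * (u ^ p.natDegree * t ^ p.natDegree) := by
        rw [h7, mul_one]
    _ = _ := by ring

variable [CharZero k] [IsAlgClosed k]

/-- QB (residue theorem in the form needed): no `f` can be regular at all places where `T` is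
finite and have polar part `α / T` at infinity. -/
theorem QB_aux {L : Type} [Field L] [Algebra k L] (T : L)
    (hT : Transcendental k T) [FiniteDimensional (IntermediateField.adjoin k {T}) L]
    (δ : Derivation k L L) (hδ : δ T = 1) (f : L) (α : k) (hα : α ≠ 0)
    (h1 : ∀ O : ValuationSubring L, (∀ c : k, algebraMap k L c ∈ O) → T ∈ O →
      f ∈ Submodule.span O (δ '' (O : Set L)))
    (h2 : ∀ O : ValuationSubring L, (∀ c : k, algebraMap k L c ∈ O) → T ∉ O →
      f - algebraMap k L α * T⁻¹ ∈ Submodule.span O (δ '' (O : Set L))) :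
    False := by
  classical
  let E := AlgebraicClosure L
  have hT0 : T ≠ 0 := fun h => hT (h ▸ isAlgebraic_zero)
  have czL : CharZero L := charZero_of_injective_algebraMap (algebraMap k L).injective
  set K0 := IntermediateField.adjoin k {T} with hK0
  let g : K0 := Algebra.trace K0 L f
  let n := Module.finrank K0 L
  have hn : n ≠ 0 := Module.finrank_pos.ne'
  have hTK : T ∈ K0 := IntermediateField.mem_adjoin_simple_self k T
  -- `σ` fixes `T` and `k`
  have hσk : ∀ (σ : L →ₐ[K0] E) (c : k), σ (algebraMap k L c) = algebraMap k E c := by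
    intro σ c
    have h3 : algebraMap k L c = algebraMap K0 L (algebraMap k K0 c) := rfl
    rw [h3, σ.commutes, ← IsScalarTower.algebraMap_apply]
  have hσT : ∀ (σ : L →ₐ[K0] E), σ T = algebraMap L E T := by
    intro σ
    have h3 : T = algebraMap K0 L ⟨T, hTK⟩ := rfl
    rw [h3, σ.commutes, ← IsScalarTower.algebraMap_apply]
  have hsum : algebraMap K0 E g = ∑ σ : L →ₐ[K0] E, σ f := trace_eq_sum_embeddings E
  have hcard : Fintype.card (L →ₐ[K0] E) = n := AlgHom.card K0 L E
  -- general local statement
  have loc : ∀ (s : L) (hs : Transcendental k s)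
      (hfd : IntermediateField.adjoin k {s} = K0) (u : L) (hu : u * δ s = s) (h : L)
      (hh : ∀ O : ValuationSubring L, (∀ c : k, algebraMap k L c ∈ O) → s ∈ O.nonunits →
        h ∈ Submodule.span O (δ '' (O : Set L)))
      (O' : ValuationSubring E) (hk : ∀ c : k, algebraMap k E c ∈ O')
      (hsO : algebraMap L E s ∈ O'.nonunits) (hσs : ∀ σ : L →ₐ[K0] E, σ s = algebraMap L E s)
      (σ : L →ₐ[K0] E), σ (u * h) ∈ O'.nonunits := by
    intro s hs hfd u hu h hh O' hk hsO hσs σ
    let O : ValuationSubring L := O'.comap (σ : L →+* E)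
    have hkO : ∀ c : k, algebraMap k L c ∈ O := by
      intro c
      change σ (algebraMap k L c) ∈ O'
      rw [hσk]; exact hk c
    have hsO2 : s ∈ O.nonunits := by
      rw [comap_nonunits]
      change σ s ∈ _
      rw [hσs]; exact hsO
    have fd : FiniteDimensional (IntermediateField.adjoin k {s}) L := by
      rw [hfd]; infer_instance
    have hLL := LL s hs (u • δ) (by simpa using hu) O hkO hsO2
    have h4 : u * h ∈ O.nonunits := by
      have h5 := hh O hkO hsO2
      clear hh
      induction h5 using Submodule.span_induction with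
      | mem z hz =>
        obtain ⟨x, hx, rfl⟩ := hz
        exact hLL x hx
      | zero => rw [mul_zero]; exact O.nonunits.zero_mem
      | add a b _ _ ha hb => rw [mul_add]; exact O.nonunits.add_mem ha hb
      | smul r a _ ha =>
        have h6 : u * (r • a) = (r : L) * (u * a) := by
          change u * ((r : L) * a) = _
          ring
        rw [h6]
        exact nu_mul O r.2 ha
    exact (comap_nonunits O' (σ : L →+* E) _).1 h4
  -- finite places
  have fin : ∀ (c : k) (O' : ValuationSubring E) (hk : ∀ c : k, algebraMap k E c ∈ O')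
      (hsO : algebraMap L E (T - algebraMap k L c) ∈ O'.nonunits),
      algebraMap L E (T - algebraMap k L c) * algebraMap K0 E g ∈ O'.nonunits := by
    intro c O' hk hsO
    rw [hsum, Finset.mul_sum]
    refine sum_mem fun σ _ => ?_
    have hσs : ∀ σ : L →ₐ[K0] E, σ (T - algebraMap k L c) =
        algebraMap L E (T - algebraMap k L c) := by
      intro σ
      rw [map_sub, map_sub, hσT, hσk, ← IsScalarTower.algebraMap_apply]
    have htr : Transcendental k (T - algebraMap k L c) := by
      intro hal
      apply hT
      have := hal.add (isAlgebraic_algebraMap (R := k) (A := L) c)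
      simpa using this
    have hfd : IntermediateField.adjoin k {T - algebraMap k L c} = K0 := by
      apply le_antisymm
      · rw [IntermediateField.adjoin_simple_le_iff]
        exact sub_mem hTK (K0.algebraMap_mem c)
      · rw [hK0, IntermediateField.adjoin_simple_le_iff]
        have h3 := IntermediateField.mem_adjoin_simple_self k (T - algebraMap k L c)
        have h4 := add_mem h3 ((IntermediateField.adjoin k {T - algebraMap k L c}).algebraMap_mem c)
        simpa using h4
    have h3 := loc (T - algebraMap k L c) htr hfd (T - algebraMap k L c)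
      (by rw [map_sub, hδ, Derivation.map_algebraMap, sub_zero, mul_one]) f
      (fun O hO hs => h1 O hO (by
        have h5 := O.add_mem _ _ (nu_mem O hs) (hO c)
        simpa using h5)) O' hk hsO hσs σ
    rw [map_mul, hσs] at h3
    exact h3
  -- infinity
  have inf : ∀ (O' : ValuationSubring E) (hk : ∀ c : k, algebraMap k E c ∈ O')
      (hsO : algebraMap L E T⁻¹ ∈ O'.nonunits),
      algebraMap L E T * algebraMap K0 E g - algebraMap k E (n * α) ∈ O'.nonunits := by
    intro O' hk hsO
    have hσs : ∀ σ : L →ₐ[K0] E, σ T⁻¹ = algebraMap L E T⁻¹ := by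
      intro σ
      rw [map_inv₀, map_inv₀, hσT]
    have htr : Transcendental k T⁻¹ := by
      intro hal
      apply hT
      have := hal.inv
      simpa using this
    have hfd : IntermediateField.adjoin k {T⁻¹} = K0 := by
      apply le_antisymm
      · rw [IntermediateField.adjoin_simple_le_iff]
        exact inv_mem hTK
      · rw [hK0, IntermediateField.adjoin_simple_le_iff]
        have h3 := IntermediateField.mem_adjoin_simple_self k T⁻¹
        have h4 := inv_mem h3
        simpa using h4
    have h3 := loc T⁻¹ htr hfd (-T)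
      (by rw [Derivation.leibniz_inv, hδ]; simp only [smul_eq_mul, mul_one]; field_simp) (f - algebraMap k L α * T⁻¹)
      (fun O hO hs => h2 O hO (by
        intro hTO
        have h5 := nu_mul O hTO hs
        rw [mul_inv_cancel₀ hT0] at h5
        exact nu_one O h5)) O' hk hsO hσs
    have h4 : algebraMap L E T * algebraMap K0 E g - algebraMap k E (n * α) =
        - ∑ σ : L →ₐ[K0] E, σ (-T * (f - algebraMap k L α * T⁻¹)) := by
      have h5 : ∀ σ : L →ₐ[K0] E, σ (-T * (f - algebraMap k L α * T⁻¹)) =
          algebraMap k E α - algebraMap L E T * σ f := by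
        intro σ
        have h6 : -T * (f - algebraMap k L α * T⁻¹) = algebraMap k L α - T * f := by
          field_simp
          ring
        rw [h6, map_sub, map_mul, hσk, hσT]
      rw [Finset.sum_congr rfl fun σ _ => h5 σ, Finset.sum_sub_distrib, ← Finset.mul_sum, ← hsum,
        Finset.sum_const, Finset.card_univ, hcard, map_mul, map_natCast, nsmul_eq_mul]
      ring
    rw [h4]
    exact O'.nonunits.neg_mem (sum_mem fun σ _ => h3 σ)
  -- `g` as a fraction
  obtain ⟨a, b, hab, hb0, hgab⟩ := frac_form T hT g
  have hTE : Transcendental k (algebraMap L E T) := by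
    rwa [transcendental_algebraMap_iff (algebraMap L E).injective]
  have haevE : ∀ p : k[X], algebraMap L E (aeval T p) = aeval (algebraMap L E T) p := fun p =>
    (aeval_algebraMap_apply E T p).symm
  have hgE : algebraMap K0 E g * aeval (algebraMap L E T) b = aeval (algebraMap L E T) a := by
    rw [← haevE, ← haevE, ← hgab, map_mul]
    rfl
  -- `b` has no root
  have hnr : ∀ c : k, ¬ b.IsRoot c := by
    intro c hc
    obtain ⟨b', hb'⟩ := dvd_iff_isRoot.2 hc
    have hac : a.eval c ≠ 0 := by
      intro h
      obtain ⟨u, v, huv⟩ := hab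
      have := congrArg (eval c) huv
      rw [eval_add, eval_mul, eval_mul, h, hc, mul_zero, mul_zero, add_zero, eval_one] at this
      exact zero_ne_one this
    have htr : Transcendental k (algebraMap L E (T - algebraMap k L c)) := by
      rw [transcendental_algebraMap_iff (algebraMap L E).injective]
      intro hal
      apply hT
      have := hal.add (isAlgebraic_algebraMap (R := k) (A := L) c)
      simpa using this
    obtain ⟨O', hk, hsO⟩ := exists_val (k := k) _ htr
    have h3 := fin c O' hk hsO
    have hTO : algebraMap L E T ∈ O' := by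
      have h5 := O'.add_mem _ _ (nu_mem O' hsO) (hk c)
      rw [map_sub, ← IsScalarTower.algebraMap_apply, sub_add_cancel] at h5
      exact h5
    have h4 : aeval (algebraMap L E T) a = aeval (algebraMap L E T) b' *
        (algebraMap L E (T - algebraMap k L c) * algebraMap K0 E g) := by
      rw [← hgE, hb', map_mul, map_sub, aeval_X, aeval_C, map_sub, ← IsScalarTower.algebraMap_apply]
      ring
    have h5 : aeval (algebraMap L E T) a ∈ O'.nonunits := by
      rw [h4]; exact nu_mul O' (aeval_mem O' hk hTO _) h3
    have h6 : aeval (algebraMap L E T) a - algebraMap k E (a.eval c) ∈ O'.nonunits := by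
      obtain ⟨q, hq⟩ := X_sub_C_dvd_sub_C_eval (a := c) (p := a)
      have h7 : aeval (algebraMap L E T) a - algebraMap k E (a.eval c) =
          aeval (algebraMap L E T) q * algebraMap L E (T - algebraMap k L c) := by
        have h8 := congrArg (aeval (algebraMap L E T)) hq
        rw [map_sub, aeval_C, map_mul, map_sub, aeval_X, aeval_C] at h8
        rw [h8, map_sub, ← IsScalarTower.algebraMap_apply]
        ring
      rw [h7]
      exact nu_mul O' (aeval_mem O' hk hTO _) hsO
    have h7 := O'.nonunits.sub_mem h5 h6
    rw [sub_sub_cancel] at h7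
    exact const_not O' hk _ hac h7
  have hbc : ∃ c : k, c ≠ 0 ∧ b = C c := by
    have h3 : b.degree = 0 := by
      by_contra h
      obtain ⟨c, hc⟩ := IsAlgClosed.exists_root b h
      exact hnr c hc
    rw [Polynomial.eq_C_of_degree_eq_zero h3] at hb0 ⊢
    exact ⟨_, fun h => hb0 (by rw [h, C_0]), rfl⟩
  obtain ⟨c, hc0, rfl⟩ := hbc
  have hg2 : algebraMap K0 E g = aeval (algebraMap L E T) (C c⁻¹ * a) := by
    rw [map_mul, aeval_C, ← hgE, aeval_C, mul_left_comm, ← map_mul, inv_mul_cancel₀ hc0, map_one,
      mul_one]
  generalize C c⁻¹ * a = p at hg2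
  have htrI : Transcendental k (algebraMap L E T⁻¹) := by
    rw [transcendental_algebraMap_iff (algebraMap L E).injective]
    intro hal
    apply hT
    have := hal.inv
    simpa using this
  obtain ⟨O', hk, hsO⟩ := exists_val (k := k) _ htrI
  have h3 := inf O' hk hsO
  have hnα : (n : k) * α ≠ 0 := mul_ne_zero (Nat.cast_ne_zero.2 hn) hα
  have huT : algebraMap L E T⁻¹ * algebraMap L E T = 1 := by
    rw [← map_mul, inv_mul_cancel₀ hT0, map_one]
  by_cases hp0 : p = 0
  · rw [hg2, hp0, map_zero, mul_zero, zero_sub] at h3
    have h4 := O'.nonunits.neg_mem h3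
    rw [neg_neg] at h4
    exact const_not O' hk _ hnα h4
  · have h4 : aeval (algebraMap L E T⁻¹) (reverse p) =
        algebraMap L E T⁻¹ ^ p.natDegree * aeval (algebraMap L E T) p := rev_form _ _ huT p
    have h5 := aeval_res O' hk hsO (reverse p)
    rw [coeff_zero_reverse] at h5
    have h6 : aeval (algebraMap L E T⁻¹) (reverse p) ∈ O'.nonunits := by
      have h7 : aeval (algebraMap L E T⁻¹) (reverse p) =
          algebraMap L E T⁻¹ ^ (p.natDegree + 1) *
            (algebraMap L E T * algebraMap K0 E g - algebraMap k E (n * α)) +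
          algebraMap L E T⁻¹ ^ p.natDegree * algebraMap k E (n * α) * algebraMap L E T⁻¹ := by
        rw [h4, hg2, pow_succ]
        have : algebraMap L E T⁻¹ ^ p.natDegree * algebraMap L E T⁻¹ *
            (algebraMap L E T * aeval (algebraMap L E T) p - algebraMap k E (n * α)) =
            algebraMap L E T⁻¹ ^ p.natDegree * ((algebraMap L E T⁻¹ * algebraMap L E T) *
              aeval (algebraMap L E T) p) -
            algebraMap L E T⁻¹ ^ p.natDegree * algebraMap k E (n * α) * algebraMap L E T⁻¹ := by
          ring
        rw [this, huT]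
        ring
      rw [h7]
      exact O'.nonunits.add_mem (nu_mul O' (pow_mem (nu_mem O' hsO) _) h3)
        (nu_mul O' (O'.mul_mem _ _ (pow_mem (nu_mem O' hsO) _) (hk _)) hsO)
    have h7 := O'.nonunits.sub_mem h6 h5
    rw [sub_sub_cancel] at h7
    exact const_not O' hk _ (leadingCoeff_ne_zero.2 hp0) h7

end final

/-- QB (residue theorem in the form needed): no `f` can be regular at all places where `T` is
finite and have polar part `α / T` at infinity. -/
theorem QB {k L : Type} [Field k] [CharZero k] [IsAlgClosed k] [Field L] [Algebra k L] (T : L)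
    (hT : Transcendental k T) [FiniteDimensional (IntermediateField.adjoin k {T}) L]
    (δ : Derivation k L L) (hδ : δ T = 1) (f : L) (α : k) (hα : α ≠ 0)
    (h1 : ∀ O : ValuationSubring L, (∀ c : k, algebraMap k L c ∈ O) → T ∈ O →
      f ∈ Submodule.span O (δ '' (O : Set L)))
    (h2 : ∀ O : ValuationSubring L, (∀ c : k, algebraMap k L c ∈ O) → T ∉ O →
      f - algebraMap k L α * T⁻¹ ∈ Submodule.span O (δ '' (O : Set L))) :
    False :=
  QB_aux T hT δ hδ f α hα h1 h2

end Pool.Agent.TH997
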