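import Pool.Agent.TH598.KG.Base
import Pool.Agent.W711.KC.Lat

set_option autoImplicit false

open scoped Manifold ContDiff Topology ComplexConjugate MatrixGroups UpperHalfPlane Matrix
open MeasureTheory Set Filter

namespace Pool.Agent.TH997.KG

open Pool.Agent.W549.CY (Cn dz dzbar HermitianMetric chernRicci chernScalar)
open Pool.Agent.W711.KC (jj nn jj_ne im_mob jj_mul nn_mul)
open Pool.Agent.TH598.KG (Cutoff d1)

/-- the upper half plane as a set -/
def VV : Set ℂ := {z : ℂ | 0 < z.im}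

theorem isOpen_VV : IsOpen VV := isOpen_lt continuous_const Complex.continuous_im

/-- Moebius transformation -/
noncomputable def mob (g : SL(2, ℝ)) (z : ℂ) : ℂ := nn g z / jj g z

theorem mob_coe (g : SL(2, ℝ)) (z : ℍ) : ((g • z : ℍ) : ℂ) = mob g z := by
  rw [UpperHalfPlane.coe_specialLinearGroup_apply]
  rfl

theorem mob_mem (g : SL(2, ℝ)) {z : ℂ} (hz : z ∈ VV) : mob g z ∈ VV := by
  change 0 < (nn g z / jj g z).im
  rw [im_mob g hz]
  have : 0 < Complex.normSq (jj g z) := Complex.normSq_pos.2 (jj_ne g hz)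
  have h2 : 0 < z.im := hz
  positivity

theorem mob_mul (g h : SL(2, ℝ)) {z : ℂ} (hz : z ∈ VV) : mob (g * h) z = mob g (mob h z) := by
  have h1 := jj_ne h hz
  unfold mob
  rw [jj_mul g h hz, nn_mul g h hz, mul_div_mul_right _ _ h1]

theorem mob_one (z : ℂ) : mob 1 z = z := by
  simp [mob, nn, jj]

theorem mob_inv_left (g : SL(2, ℝ)) {z : ℂ} (hz : z ∈ VV) : mob g⁻¹ (mob g z) = z := by
  rw [← mob_mul _ _ hz, inv_mul_cancel, mob_one]

theorem mob_inv_right (g : SL(2, ℝ)) {z : ℂ} (hz : z ∈ VV) : mob g (mob g⁻¹ z) = z := by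
  rw [← mob_mul _ _ hz, mul_inv_cancel, mob_one]

theorem hasDerivAt_mob (g : SL(2, ℝ)) {z : ℂ} (hz : z ∈ VV) :
    HasDerivAt (mob g) (1 / jj g z ^ 2) z := by
  have hj := jj_ne g hz
  have h1 : HasDerivAt (nn g) (g 0 0 : ℂ) z := by
    unfold nn
    simpa using ((hasDerivAt_id z).const_mul (g 0 0 : ℂ)).add_const (g 0 1 : ℂ)
  have h2 : HasDerivAt (jj g) (g 1 0 : ℂ) z := by
    unfold jj
    simpa using ((hasDerivAt_id z).const_mul (g 1 0 : ℂ)).add_const (g 1 1 : ℂ)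
  have h3 := h1.div h2 hj
  have hd : (g 0 0 : ℂ) * (g 1 1 : ℂ) - (g 0 1 : ℂ) * (g 1 0 : ℂ) = 1 := by
    exact_mod_cast congrArg (fun x : ℝ => (x : ℂ)) (Pool.Agent.W711.KC.det_eq g)
  have h4 : ((g 0 0 : ℂ) * jj g z - nn g z * (g 1 0 : ℂ)) = 1 := by
    simp only [nn, jj]
    linear_combination hd
  rw [h4] at h3
  exact h3

theorem contDiffAt_mob (g : SL(2, ℝ)) {z : ℂ} (hz : z ∈ VV) :
    ContDiffAt ℝ ∞ (mob g) z := by
  have hj := jj_ne g hz
  have h1 : ContDiffAt ℝ ∞ (nn g) z := by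
    unfold nn
    fun_prop
  have h2 : ContDiffAt ℝ ∞ (jj g) z := by
    unfold jj
    fun_prop
  have h3 := h1.mul (h2.inv hj)
  have h4 : mob g = fun x => nn g x * (jj g x)⁻¹ := by
    funext x
    exact div_eq_mul_inv _ _
  rw [h4]
  exact h3

section pd

variable {Γ : Subgroup SL(2, ℝ)} [ProperlyDiscontinuousSMul Γ ℍ]

theorem isCompact_pre {K : Set ℂ} (hK : IsCompact K) (hKV : K ⊆ VV) :
    IsCompact ((↑) ⁻¹' K : Set ℍ) := by
  refine (UpperHalfPlane.isEmbedding_coe.isInducing.isCompact_preimage_iff ?_).2 hK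
  intro z hz
  exact ⟨⟨z, hKV hz⟩, rfl⟩

theorem finite_pd {K L : Set ℂ} (hK : IsCompact K) (hKV : K ⊆ VV) (hL : IsCompact L)
    (hLV : L ⊆ VV) : {g : Γ | ∃ z ∈ K, mob g z ∈ L}.Finite := by
  refine (ProperlyDiscontinuousSMul.finite_disjoint_inter_image (Γ := Γ) (isCompact_pre hK hKV)
    (isCompact_pre hL hLV)).subset ?_
  rintro g ⟨z, hz, hgz⟩
  refine ⟨g • (⟨z, hKV hz⟩ : ℍ), ⟨⟨z, hKV hz⟩, hz, rfl⟩, ?_⟩
  change ((((g : SL(2, ℝ)) • (⟨z, hKV hz⟩ : ℍ) : ℍ)) : ℂ) ∈ L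
  rw [mob_coe]
  exact hgz

theorem exists_cutoff_of {K : Set ℍ} (hK : IsCompact K) (hc : ∀ z : ℍ, ∃ g ∈ Γ, g • z ∈ K) :
    ∃ φ : ℂ → ℝ, Cutoff Γ φ := by
  classical
  have hK1 : IsCompact ((↑) '' K : Set ℂ) := hK.image UpperHalfPlane.continuous_coe
  have hKV : ((↑) '' K : Set ℂ) ⊆ VV := by
    rintro _ ⟨z, _, rfl⟩
    exact z.im_pos
  obtain ⟨s, hs, hKs, hsV, hsc⟩ := exists_open_between_and_isCompact_closure hK1 isOpen_VV hKV
  obtain ⟨ψ, hψs, hψc, hψr⟩ := hs.exists_contDiff_support_eq (n := (⊤ : ℕ∞))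
  have hψ0 : ∀ z, 0 ≤ ψ z := fun z => (hψr ⟨z, rfl⟩).1
  have hts : tsupport ψ = closure s := by rw [tsupport, hψs]
  have hcs : HasCompactSupport ψ := by rw [HasCompactSupport, hts]; exact hsc
  have htV : tsupport ψ ⊆ VV := by rw [hts]; exact hsV
  let S : ℂ → ℝ := fun z => ∑' g : Γ, ψ (mob g z)
  -- local finiteness
  have hloc : ∀ z ∈ VV, ∃ T : Finset Γ, ∀ᶠ w in 𝓝 z, ∀ g : Γ, g ∉ T → ψ (mob g w) = 0 := by
    intro z hz
    obtain ⟨C, hC, hCn, hCV⟩ : ∃ C, IsCompact C ∧ C ∈ 𝓝 z ∧ C ⊆ VV := by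
      obtain ⟨C, hCn, hCV, hC⟩ := local_compact_nhds (isOpen_VV.mem_nhds hz)
      exact ⟨C, hC, hCn, hCV⟩
    have hf := finite_pd (Γ := Γ) hC hCV hcs.isCompact htV
    refine ⟨hf.toFinset, ?_⟩
    filter_upwards [hCn] with w hw g hg
    by_contra hne
    apply hg
    rw [Set.Finite.mem_toFinset]
    exact ⟨w, hw, subset_tsupport _ hne⟩
  have hSsum : ∀ z ∈ VV, Summable fun g : Γ => ψ (mob g z) := by
    intro z hz
    obtain ⟨T, hT⟩ := hloc z hz
    exact summable_of_ne_finset_zero (s := T) fun g hg => hT.self_of_nhds g hg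
  have hSc : ∀ z ∈ VV, ContDiffAt ℝ ∞ S z := by
    intro z hz
    obtain ⟨T, hT⟩ := hloc z hz
    have h1 : S =ᶠ[𝓝 z] fun w => ∑ g ∈ T, ψ (mob g w) := by
      filter_upwards [hT] with w hw
      exact tsum_eq_sum fun g hg => hw g hg
    refine ContDiffAt.congr_of_eventuallyEq ?_ h1
    exact ContDiffAt.sum fun g _ => (hψc.contDiffAt).comp z (contDiffAt_mob g hz)
  have hSp : ∀ z ∈ VV, 0 < S z := by
    intro z hz
    obtain ⟨g, hg, hgK⟩ := hc ⟨z, hz⟩
    have h1 : mob g z ∈ s := hKs ⟨_, hgK, mob_coe g ⟨z, hz⟩⟩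
    rw [← hψs] at h1
    exact (hSsum z hz).tsum_pos (fun g => hψ0 _) ⟨g, hg⟩ (lt_of_le_of_ne (hψ0 _) (Ne.symm h1))
  have hSi : ∀ h : Γ, ∀ z ∈ VV, S (mob h z) = S z := by
    intro h z hz
    have h1 : ∀ g : Γ, ψ (mob g (mob h z)) = ψ (mob ((Equiv.mulRight h g : Γ) : SL(2, ℝ)) z) := by
      intro g
      rw [← mob_mul _ _ hz]
      rfl
    change ∑' g : Γ, ψ (mob g (mob h z)) = ∑' g : Γ, ψ (mob g z)
    rw [tsum_congr h1]
    exact (Equiv.mulRight h).tsum_eq (fun g : Γ => ψ (mob g z))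
  have hsup : ∀ z, z ∉ tsupport ψ → (fun z => ψ z / S z) =ᶠ[𝓝 z] fun _ => 0 := by
    intro z hz
    have := notMem_tsupport_iff_eventuallyEq.1 hz
    filter_upwards [this] with w hw
    rw [hw]
    simp
  have hsub : tsupport (fun z => ψ z / S z) ⊆ tsupport ψ := by
    intro z hz
    by_contra h
    exact (notMem_tsupport_iff_eventuallyEq.2 (hsup z h)) hz
  refine ⟨fun z => ψ z / S z, ?_, ?_, hsub.trans htV, ?_, ?_⟩
  · rw [contDiff_iff_contDiffAt]
    intro z
    by_cases hz : z ∈ tsupport ψ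
    · exact (hψc.contDiffAt).div (hSc z (htV hz)) (hSp z (htV hz)).ne'
    · exact contDiffAt_const.congr_of_eventuallyEq (hsup z hz)
  · exact hcs.isCompact.of_isClosed_subset (isClosed_tsupport _) hsub
  · intro z
    by_cases hz : z ∈ tsupport ψ
    · exact div_nonneg (hψ0 z) (hSp z (htV hz)).le
    · have := (hsup z hz).self_of_nhds
      exact this.symm.le
  · intro z
    have hz : (z : ℂ) ∈ VV := z.im_pos
    have h1 : ∀ g : Γ, ψ (((g : SL(2, ℝ)) • z : ℍ) : ℂ) / S (((g : SL(2, ℝ)) • z : ℍ) : ℂ) =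
        ψ (mob g z) / S z := by
      intro g
      rw [mob_coe, hSi g _ hz]
    rw [tsum_congr h1, tsum_div_const]
    exact div_self (hSp _ hz).ne'

end pd

section stokes

theorem d1_comp {f : ℂ → ℂ} {h : ℂ → ℂ} {c w : ℂ} (hf : DifferentiableAt ℝ f (h w))
    (hh : HasDerivAt h c w) : d1 (f ∘ h) w = d1 f (h w) * c := by
  have h1 : HasFDerivAt h ((ContinuousLinearMap.toSpanSingleton ℂ c).restrictScalars ℝ) w :=
    hh.hasFDerivAt.restrictScalars ℝ
  have h2 := (hf.hasFDerivAt.comp w h1).fderiv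
  unfold d1
  rw [h2]
  have key : ∀ v : ℂ, ((fderiv ℝ f (h w)).comp
      ((ContinuousLinearMap.toSpanSingleton ℂ c).restrictScalars ℝ)) v =
      fderiv ℝ f (h w) (v * c) := by
    intro v
    simp
  have hA : ∀ v : ℂ, fderiv ℝ f (h w) v =
      (v.re : ℂ) * fderiv ℝ f (h w) 1 + (v.im : ℂ) * fderiv ℝ f (h w) Complex.I := by
    intro v
    have hv : v = v.re • (1 : ℂ) + v.im • Complex.I := by
      apply Complex.ext <;> simp
    conv_lhs => rw [hv]
    rw [map_add, map_smul, map_smul]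
    simp
  rw [key, key, hA (1 * c), hA (Complex.I * c)]
  have e1 : c = (c.re : ℂ) + (c.im : ℂ) * Complex.I := (Complex.re_add_im c).symm
  simp only [one_mul, Complex.mul_re, Complex.mul_im, Complex.I_re, Complex.I_im, zero_mul,
    zero_sub, one_mul, zero_add]
  conv_rhs => rw [e1]
  push_cast
  linear_combination (1 / 2 : ℂ) * (c.im : ℂ) * fderiv ℝ f (h w) Complex.I * (Complex.I_mul_I)

theorem det_mul (c : ℂ) :
    ((ContinuousLinearMap.toSpanSingleton ℂ c).restrictScalars ℝ : ℂ →L[ℝ] ℂ).det =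
      Complex.normSq c := by
  rw [← Algebra.norm_complex_apply, Algebra.norm_apply]
  change LinearMap.det _ = _
  congr 1
  ext v <;> simp [mul_comm]

theorem image_mob (g : SL(2, ℝ)) : mob g '' VV = VV := by
  apply Set.Subset.antisymm
  · rintro _ ⟨z, hz, rfl⟩
    exact mob_mem g hz
  · intro z hz
    exact ⟨mob g⁻¹ z, mob_mem _ hz, mob_inv_right g hz⟩

theorem injOn_mob (g : SL(2, ℝ)) : Set.InjOn (mob g) VV := by
  intro z hz w hw h
  rw [← mob_inv_left g hz, ← mob_inv_left g hw, h]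

theorem change_var (g : SL(2, ℝ)) (G : ℂ → ℂ) :
    ∫ z in VV, G z = ∫ z in VV, ((Complex.normSq (1 / jj g z ^ 2) : ℝ) : ℂ) * G (mob g z) := by
  have h := integral_image_eq_integral_abs_det_fderiv_smul volume isOpen_VV.measurableSet
    (f := mob g) (f' := fun z => (ContinuousLinearMap.toSpanSingleton ℂ
      (1 / jj g z ^ 2)).restrictScalars ℝ)
    (fun z hz => ((hasDerivAt_mob g hz).hasFDerivAt.restrictScalars ℝ).hasFDerivWithinAt)
    (injOn_mob g) G
  rw [image_mob] at h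
  rw [h]
  refine setIntegral_congr_fun isOpen_VV.measurableSet fun z _ => ?_
  simp only [det_mul]
  rw [abs_of_nonneg (Complex.normSq_nonneg _), Complex.real_smul]

variable {Γ : Subgroup SL(2, ℝ)} [ProperlyDiscontinuousSMul Γ ℍ]

theorem base_stokes_aux {φ : ℂ → ℝ} (hφ : Cutoff Γ φ) {β : ℂ → ℂ} (hβ : ContinuousOn β VV)
    (heq : ∀ g ∈ Γ, ∀ z ∈ VV, β (mob g z) = conj (jj g z) ^ 2 * β z) :
    ∫ z in VV, β z * d1 (fun w => (φ w : ℂ)) z = 0 := by
  classical
  let f : ℂ → ℂ := fun w => (φ w : ℂ)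
  have hfs : ContDiff ℝ ∞ f := Complex.ofRealCLM.contDiff.comp hφ.smooth
  have hfd : Differentiable ℝ f := hfs.differentiable (by simp)
  have hKc : IsCompact (tsupport φ) := hφ.compact.isCompact
  have hKV : tsupport φ ⊆ VV := hφ.supp
  have hfin := finite_pd (Γ := Γ) hKc hKV hKc hKV
  set F : Finset Γ := hfin.toFinset with hF
  have hFm : ∀ g : Γ, g ∈ F ↔ ∃ z ∈ tsupport φ, mob g z ∈ tsupport φ := fun g =>
    Set.Finite.mem_toFinset _
  have hsum : ∀ z ∈ VV, ∑' g : Γ, φ (mob g z) = 1 := by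
    intro z hz
    rw [← hφ.sum ⟨z, hz⟩]
    exact tsum_congr fun g => by rw [mob_coe]
  have hsum1 : ∀ z ∈ tsupport φ, ∑ g ∈ F, φ (mob g z) = 1 := by
    intro z hz
    rw [← hsum z (hKV hz)]
    symm
    apply tsum_eq_sum
    intro g hg
    by_contra hne
    exact hg ((hFm g).2 ⟨z, hz, subset_tsupport _ hne⟩)
  have hsum2 : ∀ z ∈ tsupport φ, ∑ g ∈ F, φ (mob (g : SL(2, ℝ))⁻¹ z) = 1 := by
    intro z hz
    rw [← hsum z (hKV hz), ← (Equiv.inv Γ).tsum_eq (fun g : Γ => φ (mob g z))]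
    symm
    apply tsum_eq_sum
    intro g hg
    by_contra hne
    apply hg
    have hne' : φ (mob (g : SL(2, ℝ))⁻¹ z) ≠ 0 := hne
    refine (hFm g).2 ⟨mob (g : SL(2, ℝ))⁻¹ z, subset_tsupport _ hne', ?_⟩
    rw [mob_inv_right _ (hKV hz)]
    exact hz
  -- vanishing of `d1 f` off the support
  have hd1 : ∀ z, z ∉ tsupport φ → d1 f z = 0 := by
    intro z hz
    have h1 := notMem_tsupport_iff_eventuallyEq.1 hz
    have h2 : f =ᶠ[𝓝 z] fun _ => 0 := by
      filter_upwards [h1] with w hw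
      change (φ w : ℂ) = 0
      rw [hw]
      simp
    unfold d1
    rw [h2.fderiv_eq]
    simp
  have hd1c : Continuous (d1 f) := by
    unfold d1
    have h1 : Continuous (fderiv ℝ f) := hfs.continuous_fderiv (by simp)
    fun_prop
  -- integrability
  have hint : ∀ G : ℂ → ℂ, ContinuousOn G VV → (∀ z, z ∉ tsupport φ → G z = 0) →
      IntegrableOn G VV := by
    intro G hG hG0
    have h1 : IntegrableOn G (tsupport φ) := (hG.mono hKV).integrableOn_compact hKc
    have h2 : Integrable G := by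
      rw [← integrableOn_iff_integrable_of_support_subset (s := tsupport φ)]
      · exact h1
      · intro z hz
        by_contra h
        exact hz (hG0 z h)
    exact h2.integrableOn
  have hmobc : ∀ g : SL(2, ℝ), ContinuousOn (mob g) VV := fun g z hz =>
    (hasDerivAt_mob g hz).continuousAt.continuousWithinAt
  have hfc : Continuous f := hfs.continuous
  -- step 1
  have s1 : ∫ z in VV, β z * d1 f z =
      ∑ g ∈ F, ∫ z in VV, f (mob g z) * (β z * d1 f z) := by
    rw [← integral_finsetSum]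
    · refine setIntegral_congr_fun isOpen_VV.measurableSet fun z _ => ?_
      by_cases hz : z ∈ tsupport φ
      · rw [← Finset.sum_mul]
        have h1 : ∑ g ∈ F, f (mob g z) = 1 := by
          change ∑ g ∈ F, ((φ (mob g z) : ℝ) : ℂ) = 1
          rw [← Complex.ofReal_sum, hsum1 z hz, Complex.ofReal_one]
        rw [h1, one_mul]
      · rw [hd1 z hz]
        simp
    · intro g _
      refine hint _ ?_ ?_
      · exact (hfc.comp_continuousOn (hmobc g)).mul (hβ.mul hd1c.continuousOn)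
      · intro z hz
        rw [hd1 z hz]
        simp
  -- step 2
  have s2 : ∀ g ∈ F, ∫ z in VV, f (mob g z) * (β z * d1 f z) =
      ∫ w in VV, f w * β w * d1 (fun w => f (mob (g : SL(2, ℝ))⁻¹ w)) w := by
    intro g _
    rw [change_var (g : SL(2, ℝ))⁻¹]
    refine setIntegral_congr_fun isOpen_VV.measurableSet fun w hw => ?_
    have hj := jj_ne (g : SL(2, ℝ))⁻¹ hw
    rw [mob_inv_right _ hw, heq _ (inv_mem g.2) w hw]
    have h1 := d1_comp (f := f) (h := mob (g : SL(2, ℝ))⁻¹) (w := w) (hfd _)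
      (hasDerivAt_mob (g : SL(2, ℝ))⁻¹ hw)
    change _ = f w * β w * d1 (f ∘ mob (g : SL(2, ℝ))⁻¹) w
    rw [h1]
    have h2 : ((Complex.normSq (1 / jj (g : SL(2, ℝ))⁻¹ w ^ 2) : ℝ) : ℂ) =
        (1 / jj (g : SL(2, ℝ))⁻¹ w ^ 2) * conj (1 / jj (g : SL(2, ℝ))⁻¹ w ^ 2) :=
      (Complex.mul_conj _).symm
    rw [h2, map_div₀, map_one, map_pow]
    have hj' : conj (jj (g : SL(2, ℝ))⁻¹ w) ≠ 0 := by simpa using hj
    field_simp
  -- step 3
  have hcd : ∀ g : SL(2, ℝ), ContDiffOn ℝ ∞ (fun w => f (mob g w)) VV := fun g z hz =>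
    ((hfs.contDiffAt).comp z (contDiffAt_mob g hz)).contDiffWithinAt
  have hfder : ∀ g : SL(2, ℝ), ContinuousOn (d1 (fun w => f (mob g w))) VV := by
    intro g
    have h1 : ContinuousOn (fderiv ℝ (fun w => f (mob g w))) VV :=
      (hcd g).continuousOn_fderiv_of_isOpen isOpen_VV (by simp)
    unfold d1
    have h2 : ∀ v : ℂ, ContinuousOn (fun z => fderiv ℝ (fun w => f (mob g w)) z v) VV := fun v =>
      h1.clm_apply continuousOn_const
    exact continuousOn_const.mul ((h2 1).sub (continuousOn_const.mul (h2 Complex.I)))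
  have s3 : ∑ g ∈ F, ∫ w in VV, f w * β w * d1 (fun w => f (mob (g : SL(2, ℝ))⁻¹ w)) w = 0 := by
    rw [← integral_finsetSum]
    · rw [← integral_zero ℂ ℂ (μ := volume.restrict VV)]
      refine setIntegral_congr_fun isOpen_VV.measurableSet fun w hw => ?_
      rw [← Finset.mul_sum]
      by_cases hw0 : φ w = 0
      · change ((φ w : ℝ) : ℂ) * β w * _ = 0
        rw [hw0]
        simp
      · have hev : ∀ᶠ w' in 𝓝 w, ∑ g ∈ F, f (mob (g : SL(2, ℝ))⁻¹ w') = 1 := by
          have h1 : ∀ᶠ w' in 𝓝 w, φ w' ≠ 0 :=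
            hφ.smooth.continuous.continuousAt.eventually_ne hw0
          filter_upwards [h1] with w' hw'
          change ∑ g ∈ F, ((φ (mob (g : SL(2, ℝ))⁻¹ w') : ℝ) : ℂ) = 1
          rw [← Complex.ofReal_sum, hsum2 w' (subset_tsupport _ hw'), Complex.ofReal_one]
        have hsd : ∑ g ∈ F, d1 (fun w => f (mob (g : SL(2, ℝ))⁻¹ w)) w = 0 := by
          have h2 : ∀ v : ℂ, ∑ g ∈ F, fderiv ℝ (fun w => f (mob (g : SL(2, ℝ))⁻¹ w)) w v = 0 := by
            intro v
            have h3 : fderiv ℝ (fun w' => ∑ g ∈ F, f (mob (g : SL(2, ℝ))⁻¹ w')) w = 0 := by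
              have h4 : (fun w' => ∑ g ∈ F, f (mob (g : SL(2, ℝ))⁻¹ w')) =ᶠ[𝓝 w]
                  fun _ => (1 : ℂ) := hev
              rw [h4.fderiv_eq]
              simp
            have h5 : ∀ g ∈ F, DifferentiableAt ℝ (fun w => f (mob (g : SL(2, ℝ))⁻¹ w)) w :=
              fun g _ => (((hcd _) w hw).contDiffAt (isOpen_VV.mem_nhds hw)).differentiableAt
                (by simp)
            rw [fderiv_fun_sum h5] at h3
            have h6 := congrArg (fun A : ℂ →L[ℝ] ℂ => A v) h3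
            simpa using h6
          unfold d1
          rw [← Finset.mul_sum, Finset.sum_sub_distrib, ← Finset.mul_sum, h2, h2]
          simp
        rw [hsd, mul_zero]
    · intro g _
      refine hint _ ?_ ?_
      · exact (hfc.continuousOn.mul hβ).mul (hfder _)
      · intro z hz
        have : f z = 0 := by
          change ((φ z : ℝ) : ℂ) = 0
          rw [image_eq_zero_of_notMem_tsupport hz]
          simp
        rw [this]
        simp
  rw [s1, Finset.sum_congr rfl s2, s3]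

end stokes

open Pool.Agent.H85R3

/-- There is a partition function for the quaternionic lattice `CG`. -/
theorem exists_cutoff : ∃ φ : ℂ → ℝ, Cutoff Pool.Agent.W711.KC.CG φ := by
  haveI := Pool.Agent.W711.KC.CG_far.properlyDiscontinuous one_pos
  obtain ⟨K, hK, hKc⟩ := HS.cocompact Pool.Agent.W711.KC.NN_pos
  exact exists_cutoff_of hK hKc

/-- Stokes' theorem on the quotient curve, by unfolding. -/
theorem base_stokes {Γ : Subgroup SL(2, ℝ)} [ProperlyDiscontinuousSMul Γ ℍ] [Countable Γ]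
    {φ : ℂ → ℝ} (hφ : Cutoff Γ φ) {β : ℂ → ℂ} (hβ : ContinuousOn β {z | 0 < z.im})
    (heq : ∀ g ∈ Γ, ∀ z : ℂ, 0 < z.im → β (nn g z / jj g z) = conj (jj g z) ^ 2 * β z) :
    ∫ z in {z : ℂ | 0 < z.im}, β z * d1 (fun w => (φ w : ℂ)) z = 0 :=
  base_stokes_aux hφ hβ heq

end Pool.Agent.TH997.KG
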