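import Pool.Agent.TH598.KG.Base
import Pool.Agent.TH997.J115

set_option autoImplicit false

open scoped Manifold ContDiff Topology ComplexConjugate MatrixGroups UpperHalfPlane Matrix
open MeasureTheory Set Filter

namespace Pool.Agent.TH997.KG

open Pool.Agent.W549.CY (Cn dz dzbar HermitianMetric chernRicci chernScalar)
open Pool.Agent.W711.KC (jj nn jj_ne im_mob jj_mul nn_mul)
open Pool.Agent.TH598.KG

section basic

theorem isOpen_UU : IsOpen UU :=
  isOpen_lt continuous_const (Complex.continuous_im.comp (continuous_apply 0))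

theorem fderiv_cs {f : Cn 3 → ℂ} (hf : ContDiff ℝ 1 f) (hc : HasCompactSupport f) (v : Cn 3) :
    Continuous (fun x => fderiv ℝ f x v) ∧ HasCompactSupport (fun x => fderiv ℝ f x v) ∧
      ∫ x, fderiv ℝ f x v = 0 := by
  have hcont : Continuous fun x => fderiv ℝ f x v :=
    (hf.continuous_fderiv (by simp)).clm_apply continuous_const
  have hcs : HasCompactSupport fun x => fderiv ℝ f x v := by
    refine (hc.fderiv (𝕜 := ℝ)).mono' ?_
    intro x hx
    apply subset_closure
    simp only [Function.mem_support, ne_eq] at hx ⊢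
    intro h0
    apply hx
    simp [h0]
  refine ⟨hcont, hcs, ?_⟩
  have := integral_mul_fderiv_eq_neg_fderiv_mul_of_integrable (μ := (volume : Measure (Cn 3)))
    (f := fun _ => (1 : ℂ)) (g := f) (v := v) (by simp)
    (by simpa using hcont.integrable_of_hasCompactSupport hcs)
    (by simpa using hf.continuous.integrable_of_hasCompactSupport hc)
    (by intro x _; exact differentiableAt_const _)
    (by intro x _; exact (hf.differentiable (by simp)).differentiableAt)
  simpa using this

theorem dz_cs {f : Cn 3 → ℂ} (hf : ContDiff ℝ 1 f) (hc : HasCompactSupport f) (j : Fin 3) :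
    Integrable (dz j f) ∧ ∫ x, dz j f x = 0 := by
  obtain ⟨h1, h2, h3⟩ := fderiv_cs hf hc (Pi.single j 1)
  obtain ⟨g1, g2, g3⟩ := fderiv_cs hf hc (Pi.single j Complex.I)
  have i1 := h1.integrable_of_hasCompactSupport (μ := volume) h2
  have i2 := g1.integrable_of_hasCompactSupport (μ := volume) g2
  unfold dz
  refine ⟨(i1.sub (i2.const_mul _)).const_mul _, ?_⟩
  rw [integral_const_mul, integral_sub i1 (i2.const_mul _), integral_const_mul, h3, g3]
  simp

theorem compact_C {K : Set ℂ} (hK : IsCompact K) (R : ℝ) :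
    IsCompact {p : Cn 3 | p 0 ∈ K ∧ nsq p ≤ R * (p 0).im} := by
  have hcl : IsClosed {p : Cn 3 | p 0 ∈ K ∧ nsq p ≤ R * (p 0).im} := by
    have h1 : Continuous (nsq : Cn 3 → ℝ) := by
      unfold nsq
      exact (Complex.continuous_normSq.comp (continuous_apply 1)).add
        (Complex.continuous_normSq.comp (continuous_apply 2))
    have h2 : Continuous (fun p : Cn 3 => R * (p 0).im) :=
      continuous_const.mul (Complex.continuous_im.comp (continuous_apply 0))
    have h3 : IsClosed {p : Cn 3 | nsq p ≤ R * (p 0).im} := isClosed_le h1 h2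
    exact (hK.isClosed.preimage (continuous_apply 0)).inter h3
  obtain ⟨M, hM⟩ := hK.isBounded.exists_norm_le
  have hM0 : 0 ≤ max M 0 := le_max_right _ _
  refine Metric.isCompact_of_isClosed_isBounded hcl ?_
  refine (Metric.isBounded_closedBall (x := (0 : Cn 3)) (r := max M 0 + (|R| * max M 0 + 1))).subset ?_
  rintro p ⟨hp0, hp⟩
  rw [mem_closedBall_zero_iff, pi_norm_le_iff_of_nonneg (by positivity)]
  have h0 : ‖p 0‖ ≤ max M 0 := (hM _ hp0).trans (le_max_left _ _)
  have him : |(p 0).im| ≤ max M 0 := (Complex.abs_im_le_norm _).trans h0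
  have hn : nsq p ≤ |R| * max M 0 := by
    refine hp.trans ((le_abs_self _).trans ?_)
    rw [abs_mul]
    exact mul_le_mul_of_nonneg_left him (abs_nonneg _)
  have hsq : ∀ x : ℝ, 0 ≤ x → ∀ y : ℝ, 0 ≤ y → x ^ 2 ≤ y → x ≤ y + 1 := by
    intro x hx y hy h
    nlinarith
  have hRM : 0 ≤ |R| * max M 0 := by positivity
  intro i
  fin_cases i
  · change ‖p 0‖ ≤ _
    linarith
  · change ‖p 1‖ ≤ _
    have h1 : ‖p 1‖ ^ 2 ≤ |R| * max M 0 := by
      rw [← Complex.normSq_eq_norm_sq]
      have : 0 ≤ Complex.normSq (p 2) := Complex.normSq_nonneg _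
      unfold nsq at hn
      linarith
    have := hsq _ (norm_nonneg _) _ hRM h1
    linarith
  · change ‖p 2‖ ≤ _
    have h1 : ‖p 2‖ ^ 2 ≤ |R| * max M 0 := by
      rw [← Complex.normSq_eq_norm_sq]
      have : 0 ≤ Complex.normSq (p 1) := Complex.normSq_nonneg _
      unfold nsq at hn
      linarith
    have := hsq _ (norm_nonneg _) _ hRM h1
    linarith

theorem ss_lt {p : Cn 3} (hp : p ∈ UU) {R : ℝ} (h : ss p < R) : nsq p < R * (p 0).im := by
  have : 0 < (p 0).im := hp
  unfold ss at h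
  rwa [div_lt_iff₀ this] at h

/-- a compactly supported `C¹` extension -/
theorem ext_smooth {Γ : Subgroup SL(2, ℝ)} {φ : ℂ → ℝ} (hφ : Cutoff Γ φ)
    {V : Cn 3 → ℂ} (hV : ContDiffOn ℝ 1 V UU) {R : ℝ} (hR : ∀ p ∈ UU, R ≤ ss p → V p = 0) :
    ContDiff ℝ 1 (fun p => (φ (p 0) : ℂ) * V p) ∧
      HasCompactSupport (fun p : Cn 3 => (φ (p 0) : ℂ) * V p) := by
  have hφc : ContDiff ℝ 1 (fun p : Cn 3 => (φ (p 0) : ℂ)) := by
    have h1 : ContDiff ℝ 1 φ := hφ.smooth.of_le (by exact_mod_cast le_top)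
    exact Complex.ofRealCLM.contDiff.comp (h1.comp (contDiff_apply ℝ ℂ (0 : Fin 3)))
  refine ⟨?_, ?_⟩
  · rw [contDiff_iff_contDiffAt]
    intro p
    by_cases hp : p 0 ∈ tsupport φ
    · have hpU : p ∈ UU := hφ.supp hp
      exact hφc.contDiffAt.mul (hV.contDiffAt (isOpen_UU.mem_nhds hpU))
    · have h1 := notMem_tsupport_iff_eventuallyEq.1 hp
      have h2 : ∀ᶠ q : Cn 3 in 𝓝 p, φ (q 0) = 0 :=
        (continuous_apply (0 : Fin 3)).continuousAt.eventually h1
      refine (contDiffAt_const (c := (0 : ℂ))).congr_of_eventuallyEq ?_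
      filter_upwards [h2] with q hq
      rw [hq]
      simp
  · refine HasCompactSupport.of_support_subset_isCompact (compact_C hφ.compact.isCompact R) ?_
    intro p hp
    have h1 : φ (p 0) ≠ 0 := by
      intro h
      apply hp
      simp [h]
    have h2 : V p ≠ 0 := by
      intro h
      apply hp
      simp [h]
    have hpK : p 0 ∈ tsupport φ := subset_tsupport _ h1
    have hpU : p ∈ UU := hφ.supp hpK
    refine ⟨hpK, ?_⟩
    have h3 : ss p < R := by
      by_contra h
      exact h2 (hR p hpU (not_lt.1 h))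
    exact (ss_lt hpU h3).le

theorem dz_mul {f g : Cn 3 → ℂ} {p : Cn 3} (hf : DifferentiableAt ℝ f p)
    (hg : DifferentiableAt ℝ g p) (j : Fin 3) :
    dz j (fun q => f q * g q) p = f p * dz j g p + g p * dz j f p := by
  unfold dz
  rw [fderiv_fun_mul hf hg]
  simp only [_root_.add_apply, _root_.smul_apply, smul_eq_mul]
  ring

theorem dz_pull {f : ℂ → ℂ} {p : Cn 3} (hf : DifferentiableAt ℝ f (p 0)) (j : Fin 3) :
    dz j (fun q : Cn 3 => f (q 0)) p = if j = 0 then d1 f (p 0) else 0 := by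
  have h1 : HasFDerivAt (fun q : Cn 3 => f (q 0))
      ((fderiv ℝ f (p 0)).comp (ContinuousLinearMap.proj (R := ℝ) (φ := fun _ : Fin 3 => ℂ) 0)) p :=
    hf.hasFDerivAt.comp p
      ((ContinuousLinearMap.proj (R := ℝ) (φ := fun _ : Fin 3 => ℂ) 0).hasFDerivAt)
  unfold dz d1
  rw [h1.fderiv]
  split_ifs with h
  · subst h
    simp
  · simp [Ne.symm h]

end basic

section fub

/-- the point `(z, u)` -/
def cz (z : ℂ) (u : Fin 2 → ℂ) : Cn 3 := ![z, u 0, u 1]

theorem fubini (G : Cn 3 → ℂ) (hG : Integrable G) :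
    ∫ p, G p = ∫ z : ℂ, ∫ u : Fin 2 → ℂ, G (cz z u) := by
  have h1 := volume_preserving_piFinSuccAbove (fun _ : Fin 3 => ℂ) 0
  have h2 := h1.symm
  rw [← h2.integral_comp' G]
  have h3 : Integrable (fun x : ℂ × (Fin 2 → ℂ) =>
      G ((MeasurableEquiv.piFinSuccAbove (fun _ : Fin 3 => ℂ) 0).symm x)) :=
    h2.integrable_comp_emb (MeasurableEquiv.measurableEmbedding _) |>.2 hG
  have h4 : ∀ x : ℂ × (Fin 2 → ℂ),
      (MeasurableEquiv.piFinSuccAbove (fun _ : Fin 3 => ℂ) 0).symm x = cz x.1 x.2 := by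
    rintro ⟨z, u⟩
    funext i
    fin_cases i <;> rfl
  simp only [h4] at h3 ⊢
  exact integral_prod _ h3

theorem scale (c : ℂ) (hc : c ≠ 0) (F : (Fin 2 → ℂ) → ℂ) :
    ∫ u, F u = ∫ u, ((Complex.normSq c ^ 2 : ℝ) : ℂ) * F (c • u) := by
  have h := integral_image_eq_integral_abs_det_fderiv_smul (volume : Measure (Fin 2 → ℂ))
    MeasurableSet.univ (f := fun u : Fin 2 → ℂ => c • u)
    (f' := fun _ => ((c • ContinuousLinearMap.id ℂ (Fin 2 → ℂ)).restrictScalars ℝ))
    (fun u _ => by
      have h1 : HasFDerivAt (𝕜 := ℂ) (fun u : Fin 2 → ℂ => c • u)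
        (c • ContinuousLinearMap.id ℂ (Fin 2 → ℂ)) u := (hasFDerivAt_id u).const_smul c
      exact (h1.restrictScalars ℝ).hasFDerivWithinAt)
    (fun u _ v _ huv => by
      have h2 : c • u = c • v := huv
      exact smul_right_injective _ hc h2) F
  have h3 : (fun u : Fin 2 → ℂ => c • u) '' univ = univ := by
    rw [image_univ]
    exact (Equiv.smulRight hc).surjective.range_eq
  rw [h3, Measure.restrict_univ] at h
  rw [h]
  have hdet : ((c • ContinuousLinearMap.id ℂ (Fin 2 → ℂ)).restrictScalars ℝ :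
      (Fin 2 → ℂ) →L[ℝ] (Fin 2 → ℂ)).det = Complex.normSq c ^ 2 := by
    have h4 : ((c • ContinuousLinearMap.id ℂ (Fin 2 → ℂ)).restrictScalars ℝ :
      (Fin 2 → ℂ) →L[ℝ] (Fin 2 → ℂ)).det =
        ((c • (LinearMap.id : (Fin 2 → ℂ) →ₗ[ℂ] (Fin 2 → ℂ))).restrictScalars ℝ).det := rfl
    rw [h4, LinearMap.det_restrictScalars, LinearMap.det_smul, LinearMap.det_id, mul_one,
      Module.finrank_fin_fun, map_pow, Algebra.norm_complex_apply]
  refine integral_congr_ae (Filter.Eventually.of_forall fun u => ?_)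
  simp only [hdet]
  rw [abs_of_nonneg (by positivity), Complex.real_smul]

end fub

section main

variable {Γ : Subgroup SL(2, ℝ)} {φ : ℂ → ℝ}

theorem stokes3 {Γ : Subgroup SL(2, ℝ)} {φ : ℂ → ℝ} (hφ : Cutoff Γ φ)
    (hBL : ∀ β : ℂ → ℂ, ContinuousOn β {z | 0 < z.im} →
      (∀ g ∈ Γ, ∀ z : ℂ, 0 < z.im → β (nn g z / jj g z) = conj (jj g z) ^ 2 * β z) →
      ∫ z in {z : ℂ | 0 < z.im}, β z * d1 (fun w => (φ w : ℂ)) z = 0)
    {V : Fin 3 → Cn 3 → ℂ} (hV : ∀ j, ContDiffOn ℝ 1 (V j) UU)
    (h0 : ∀ g ∈ Γ, ∀ p ∈ UU, V 0 (Fa g p) = jj g (p 0) ^ 2 * conj (jj g (p 0)) ^ 4 * V 0 p)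
    {R : ℝ} (hR : ∀ p ∈ UU, R ≤ ss p → ∀ j, V j p = 0) :
    ∫ p in UU, (φ (p 0) : ℂ) * ∑ j, dz j (V j) p = 0 := by
  classical
  let f : ℂ → ℂ := fun w => (φ w : ℂ)
  have hfs : ContDiff ℝ ∞ f := Complex.ofRealCLM.contDiff.comp hφ.smooth
  have hfd : Differentiable ℝ f := hfs.differentiable (by simp)
  have hUm : MeasurableSet UU := isOpen_UU.measurableSet
  have hd1 : ∀ z, z ∉ tsupport φ → d1 f z = 0 := by
    intro z hz
    have h1 := notMem_tsupport_iff_eventuallyEq.1 hz
    have h2 : f =ᶠ[𝓝 z] fun _ => 0 := by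
      filter_upwards [h1] with w hw
      change (φ w : ℂ) = 0
      rw [hw]
      simp
    unfold d1
    rw [h2.fderiv_eq]
    simp
  have hd1c : Continuous (d1 f) := by
    unfold d1
    have h1 : Continuous (fderiv ℝ f) := hfs.continuous_fderiv (by simp)
    fun_prop
  -- derivatives of the products
  have hW := fun j => ext_smooth hφ (hV j) (fun p hp h => hR p hp h j)
  have hWi := fun j => dz_cs (hW j).1 (hW j).2 j
  have hdW : ∀ j, ∀ p ∈ UU, dz j (fun p => (φ (p 0) : ℂ) * V j p) p =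
      (φ (p 0) : ℂ) * dz j (V j) p + V j p * (if j = 0 then d1 f (p 0) else 0) := by
    intro j p hp
    have h1 : DifferentiableAt ℝ (fun p : Cn 3 => f (p 0)) p :=
      (hfd _).comp p (differentiableAt_apply 0 p)
    have h2 : DifferentiableAt ℝ (V j) p :=
      ((hV j).contDiffAt (isOpen_UU.mem_nhds hp)).differentiableAt (by simp)
    have h3 := dz_mul h1 h2 j
    rw [dz_pull (hfd _)] at h3
    exact h3
  have hdW0 : ∀ j, ∀ p, p ∉ UU → dz j (fun p => (φ (p 0) : ℂ) * V j p) p = 0 := by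
    intro j p hp
    have hp' : p 0 ∉ tsupport φ := fun h => hp (hφ.supp h)
    have h1 := notMem_tsupport_iff_eventuallyEq.1 hp'
    have h2 : ∀ᶠ q : Cn 3 in 𝓝 p, φ (q 0) = 0 :=
      (continuous_apply (0 : Fin 3)).continuousAt.eventually h1
    have h3 : (fun p => (φ (p 0) : ℂ) * V j p) =ᶠ[𝓝 p] fun _ => 0 := by
      filter_upwards [h2] with q hq
      rw [hq]
      simp
    unfold dz
    rw [h3.fderiv_eq]
    simp
  -- the boundary term
  let G : Cn 3 → ℂ := fun p => V 0 p * d1 f (p 0)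
  have hGcs : Continuous G ∧ HasCompactSupport G := by
    refine ⟨?_, ?_⟩
    · rw [continuous_iff_continuousAt]
      intro p
      by_cases hp : p 0 ∈ tsupport φ
      · have hpU : p ∈ UU := hφ.supp hp
        exact ((hV 0).continuousOn.continuousAt (isOpen_UU.mem_nhds hpU)).mul
          (hd1c.continuousAt.comp (continuous_apply (0 : Fin 3)).continuousAt)
      · have h2 : ∀ᶠ q : Cn 3 in 𝓝 p, q 0 ∉ tsupport φ :=
          (continuous_apply (0 : Fin 3)).continuousAt.eventually
            ((isClosed_tsupport φ).isOpen_compl.mem_nhds hp)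
        refine (continuousAt_const (y := (0 : ℂ))).congr ?_
        filter_upwards [h2] with q hq
        change 0 = V 0 q * d1 f (q 0)
        rw [hd1 _ hq, mul_zero]
    · refine HasCompactSupport.of_support_subset_isCompact
        (compact_C hφ.compact.isCompact R) ?_
      intro p hp
      have h1 : p 0 ∈ tsupport φ := by
        by_contra h
        apply hp
        change V 0 p * d1 f (p 0) = 0
        rw [hd1 _ h, mul_zero]
      have hpU : p ∈ UU := hφ.supp h1
      refine ⟨h1, ?_⟩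
      have h3 : ss p < R := by
        by_contra h
        apply hp
        change V 0 p * d1 f (p 0) = 0
        rw [hR p hpU (not_lt.1 h) 0, zero_mul]
      exact (ss_lt hpU h3).le
  have hGi : Integrable G := hGcs.1.integrable_of_hasCompactSupport hGcs.2
  have hG0 : ∀ p, p ∉ UU → G p = 0 := by
    intro p hp
    change V 0 p * d1 f (p 0) = 0
    rw [hd1 _ (fun h => hp (hφ.supp h)), mul_zero]
  -- sum up
  have key : ∫ p in UU, (φ (p 0) : ℂ) * ∑ j, dz j (V j) p = - ∫ p, G p := by
    have h1 : ∫ p, ∑ j, dz j (fun p => (φ (p 0) : ℂ) * V j p) p = 0 := by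
      rw [integral_finsetSum _ fun j _ => (hWi j).1]
      exact Finset.sum_eq_zero fun j _ => (hWi j).2
    have h2 : ∫ p in UU, ∑ j, dz j (fun p => (φ (p 0) : ℂ) * V j p) p = 0 := by
      rw [setIntegral_eq_integral_of_forall_compl_eq_zero, h1]
      intro p hp
      exact Finset.sum_eq_zero fun j _ => hdW0 j p hp
    have h3 : ∫ p in UU, G p = ∫ p, G p :=
      setIntegral_eq_integral_of_forall_compl_eq_zero fun p hp => hG0 p hp
    have h4 : ∫ p in UU, (φ (p 0) : ℂ) * ∑ j, dz j (V j) p =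
        ∫ p in UU, (∑ j, dz j (fun p => (φ (p 0) : ℂ) * V j p) p - G p) := by
      refine setIntegral_congr_fun hUm fun p hp => ?_
      change (φ (p 0) : ℂ) * ∑ j, dz j (V j) p =
        ∑ j, dz j (fun p => (φ (p 0) : ℂ) * V j p) p - V 0 p * d1 f (p 0)
      rw [Finset.sum_congr rfl fun j _ => hdW j p hp, Finset.sum_add_distrib, ← Finset.mul_sum]
      simp
    rw [h4, integral_sub, h2, h3, zero_sub]
    · exact (integrable_finsetSum _ fun j _ => (hWi j).1).integrableOn
    · exact hGi.integrableOn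
  rw [key, fubini G hGi, neg_eq_zero]
  let β : ℂ → ℂ := fun z => ∫ u : Fin 2 → ℂ, V 0 (cz z u)
  have h5 : ∀ z, ∫ u : Fin 2 → ℂ, G (cz z u) = β z * d1 f z := by
    intro z
    change ∫ u : Fin 2 → ℂ, V 0 (cz z u) * d1 f z = _
    rw [integral_mul_const]
  simp only [h5]
  have h6 : ∫ z in {z : ℂ | 0 < z.im}, β z * d1 f z = ∫ z, β z * d1 f z :=
    setIntegral_eq_integral_of_forall_compl_eq_zero fun z hz => by
      rw [hd1 _ (fun h => hz (hφ.supp h)), mul_zero]
  rw [← h6]
  apply hBL β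
  · -- continuity
    intro z hz
    obtain ⟨C, hCn, hCV, hC⟩ := local_compact_nhds (isOpen_VV.mem_nhds hz)
    have hck : IsCompact {u : Fin 2 → ℂ | ∃ z ∈ C, nsq (cz z u) ≤ R * z.im} := by
      have h7 := (compact_C hC R).image (f := fun p : Cn 3 => (![p 1, p 2] : Fin 2 → ℂ)) (by
        refine continuous_pi fun i => ?_
        fin_cases i
        · exact continuous_apply 1
        · exact continuous_apply 2)
      convert h7 using 1
      ext u
      constructor
      · rintro ⟨z, hz, h⟩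
        refine ⟨cz z u, ⟨hz, h⟩, ?_⟩
        funext i
        fin_cases i <;> rfl
      · rintro ⟨p, ⟨hp0, hp⟩, rfl⟩
        refine ⟨p 0, hp0, ?_⟩
        exact hp
    have h8 : ContinuousOn β C := by
      refine continuousOn_integral_of_compact_support (f := fun z u => V 0 (cz z u)) hck ?_ ?_
      · have h9 : Continuous fun x : ℂ × (Fin 2 → ℂ) => cz x.1 x.2 := by
          unfold cz
          refine continuous_pi fun i => ?_
          fin_cases i
          · exact continuous_fst
          · exact (continuous_apply 0).comp continuous_snd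
          · exact (continuous_apply 1).comp continuous_snd
        refine (hV 0).continuousOn.comp h9.continuousOn ?_
        rintro ⟨z, u⟩ ⟨hz, -⟩
        exact hCV hz
      · intro z u hz hu
        have hU : cz z u ∈ UU := hCV hz
        apply hR _ hU
        by_contra h
        apply hu
        exact ⟨z, hz, (ss_lt hU (not_le.1 h)).le⟩
    exact (h8.continuousAt hCn).continuousWithinAt
  · -- equivariance
    intro g hg z hz
    have hj := jj_ne g hz
    have hj' : conj (jj g z) ≠ 0 := by simpa using hj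
    change ∫ u : Fin 2 → ℂ, V 0 (cz (nn g z / jj g z) u) = conj (jj g z) ^ 2 *
      ∫ u : Fin 2 → ℂ, V 0 (cz z u)
    rw [scale (1 / jj g z) (one_div_ne_zero hj), ← integral_const_mul]
    refine integral_congr_ae (Filter.Eventually.of_forall fun u => ?_)
    have h7 : cz (nn g z / jj g z) ((1 / jj g z) • u) = Fa g (cz z u) := by
      funext i
      fin_cases i
      · rfl
      · change (1 / jj g z) * u 0 = u 0 / jj g z
        ring
      · change (1 / jj g z) * u 1 = u 1 / jj g z
        ring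
    change ((Complex.normSq (1 / jj g z) ^ 2 : ℝ) : ℂ) *
      V 0 (cz (nn g z / jj g z) ((1 / jj g z) • u)) = conj (jj g z) ^ 2 * V 0 (cz z u)
    rw [h7, h0 g hg (cz z u) hz]
    have h8 : (cz z u) 0 = z := rfl
    rw [h8]
    push_cast
    rw [← Complex.mul_conj, map_div₀, map_one]
    field_simp

end main

end Pool.Agent.TH997.KG
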