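import Pool.Agent.TH997.CManB

set_option autoImplicit false

open scoped Manifold ContDiff Topology ComplexConjugate Matrix
open MeasureTheory Set Filter

namespace Pool.Agent.TH997.CMan

open Pool.Agent.W549.CY (Cn dz dzbar HermitianMetric chernRicci chernScalar)
open Pool.Agent.TH598.KG (hf)

variable {n : ℕ}

/-- local comparison of two continuous families of functions that are homogeneous of degree two -/
theorem local_bound {U : Set (Cn n)} (hU : IsOpen U) {Q R : Cn n → Cn n → ℝ}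
    (hQ : ContinuousOn (fun p : Cn n × Cn n => Q p.1 p.2) (U ×ˢ univ))
    (hR : ContinuousOn (fun p : Cn n × Cn n => R p.1 p.2) (U ×ˢ univ))
    (hQs : ∀ z ∈ U, ∀ (r : ℝ) v, Q z (r • v) = r ^ 2 * Q z v)
    (hRs : ∀ z ∈ U, ∀ (r : ℝ) v, R z (r • v) = r ^ 2 * R z v)
    (hRp : ∀ z ∈ U, ∀ v, v ≠ 0 → 0 < R z v) {z : Cn n} (hz : z ∈ U) :
    ∃ N ∈ 𝓝 z, N ⊆ U ∧ ∃ C : ℝ, 0 ≤ C ∧ ∀ w ∈ N, ∀ v, Q w v ≤ C * R w v := by
  obtain ⟨K, hKn, hKU, hK⟩ := local_compact_nhds (hU.mem_nhds hz)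
  have hS : IsCompact (K ×ˢ Metric.sphere (0 : Cn n) 1) := hK.prod (isCompact_sphere _ _)
  have hne : ∀ v ∈ Metric.sphere (0 : Cn n) 1, v ≠ 0 := by
    intro v hv h0
    rw [h0] at hv
    simp at hv
  have hsub : K ×ˢ Metric.sphere (0 : Cn n) 1 ⊆ U ×ˢ univ :=
    prod_mono hKU (subset_univ _)
  have hf : ContinuousOn (fun p : Cn n × Cn n => Q p.1 p.2 / R p.1 p.2)
      (K ×ˢ Metric.sphere (0 : Cn n) 1) :=
    (hQ.mono hsub).div (hR.mono hsub) fun p hp => (hRp _ (hKU hp.1) _ (hne _ hp.2)).ne'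
  obtain ⟨C, hC⟩ := hS.exists_bound_of_continuousOn hf
  refine ⟨K, hKn, hKU, max C 0, le_max_right _ _, fun w hw v => ?_⟩
  by_cases hv : v = 0
  · have h1 := hQs w (hKU hw) 0 0
    have h2 := hRs w (hKU hw) 0 0
    simp only [smul_zero, ne_eq, OfNat.ofNat_ne_zero, not_false_eq_true, zero_pow, zero_mul] at h1 h2
    rw [hv, h1, h2, mul_zero]
  · have hv0 : ‖v‖ ≠ 0 := norm_ne_zero_iff.2 hv
    have hu : ‖v‖⁻¹ • v ∈ Metric.sphere (0 : Cn n) 1 := by
      rw [mem_sphere_zero_iff_norm, norm_smul, norm_inv, norm_norm, inv_mul_cancel₀ hv0]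
    have e1 : v = ‖v‖ • (‖v‖⁻¹ • v) := by rw [smul_smul, mul_inv_cancel₀ hv0, one_smul]
    have h1 := hC (w, ‖v‖⁻¹ • v) ⟨hw, hu⟩
    have hRpos := hRp w (hKU hw) _ (hne _ hu)
    have h2 : Q w (‖v‖⁻¹ • v) ≤ max C 0 * R w (‖v‖⁻¹ • v) := by
      rw [← div_le_iff₀ hRpos]
      exact (le_abs_self _).trans (h1.trans (le_max_left _ _))
    rw [e1, hQs w (hKU hw), hRs w (hKU hw)]
    have h3 := mul_le_mul_of_nonneg_left h2 (sq_nonneg ‖v‖)
    linarith

variable {X : Type} [TopologicalSpace X] [ChartedSpace (Cn n) X]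

theorem global_bound [CompactSpace X] {Q R : OpenPartialHomeomorph X (Cn n) → Cn n → Cn n → ℝ}
    (hQ : ∀ e ∈ atlas (Cn n) X,
      ContinuousOn (fun p : Cn n × Cn n => Q e p.1 p.2) (e.target ×ˢ univ))
    (hR : ∀ e ∈ atlas (Cn n) X,
      ContinuousOn (fun p : Cn n × Cn n => R e p.1 p.2) (e.target ×ˢ univ))
    (hQs : ∀ e ∈ atlas (Cn n) X, ∀ z ∈ e.target, ∀ (r : ℝ) v, Q e z (r • v) = r ^ 2 * Q e z v)
    (hRs : ∀ e ∈ atlas (Cn n) X, ∀ z ∈ e.target, ∀ (r : ℝ) v, R e z (r • v) = r ^ 2 * R e z v)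
    (hRp : ∀ e ∈ atlas (Cn n) X, ∀ z ∈ e.target, ∀ v, v ≠ 0 → 0 < R e z v)
    (hQt : ∀ e ∈ atlas (Cn n) X, ∀ e' ∈ atlas (Cn n) X, ∀ z ∈ dom e e', ∀ v,
      Q e z v = Q e' ((e' ∘ e.symm) z) (fderiv ℂ (e' ∘ e.symm) z v))
    (hRt : ∀ e ∈ atlas (Cn n) X, ∀ e' ∈ atlas (Cn n) X, ∀ z ∈ dom e e', ∀ v,
      R e z v = R e' ((e' ∘ e.symm) z) (fderiv ℂ (e' ∘ e.symm) z v)) :
    ∃ C : ℝ, 0 ≤ C ∧ ∀ e ∈ atlas (Cn n) X, ∀ z ∈ e.target, ∀ v, Q e z v ≤ C * R e z v := by
  have hloc : ∀ x : X, ∃ N ∈ 𝓝 (chartAt (Cn n) x x), N ⊆ (chartAt (Cn n) x).target ∧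
      ∃ C : ℝ, 0 ≤ C ∧ ∀ w ∈ N, ∀ v,
        Q (chartAt (Cn n) x) w v ≤ C * R (chartAt (Cn n) x) w v := fun x =>
    local_bound (chartAt (Cn n) x).open_target (hQ _ (chart_mem_atlas _ x))
      (hR _ (chart_mem_atlas _ x)) (hQs _ (chart_mem_atlas _ x)) (hRs _ (chart_mem_atlas _ x))
      (hRp _ (chart_mem_atlas _ x)) ((chartAt (Cn n) x).map_source (mem_chart_source _ x))
  choose N hN hNt C hC0 hC using hloc
  obtain ⟨t, -, ht⟩ := isCompact_univ.elim_nhds_subcover
    (fun x : X => (chartAt (Cn n) x).source ∩ (chartAt (Cn n) x) ⁻¹' N x)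
    (fun x _ => Filter.inter_mem
      ((chartAt (Cn n) x).open_source.mem_nhds (mem_chart_source _ x))
      (((chartAt (Cn n) x).continuousAt (mem_chart_source _ x)).preimage_mem_nhds (hN x)))
  refine ⟨∑ x ∈ t, C x, Finset.sum_nonneg fun x _ => hC0 x, fun e he z hz v => ?_⟩
  have h1 := ht (mem_univ (e.symm z))
  simp only [mem_iUnion] at h1
  obtain ⟨x, hx, hx1, hx2⟩ := h1
  have hd : z ∈ dom e (chartAt (Cn n) x) := mem_dom.2 ⟨hz, hx1⟩
  have h2 := hC x _ hx2 (fderiv ℂ (chartAt (Cn n) x ∘ e.symm) z v)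
  have h3 := hQt e he _ (chart_mem_atlas _ x) z hd v
  have h4 := hRt e he _ (chart_mem_atlas _ x) z hd v
  simp only [Function.comp_apply] at h3 h4
  rw [← h3, ← h4] at h2
  have h5 : 0 ≤ R e z v := by
    by_cases hv : v = 0
    · have h6 := hRs e he z hz 0 0
      simp only [smul_zero, ne_eq, OfNat.ofNat_ne_zero, not_false_eq_true, zero_pow, zero_mul] at h6
      rw [hv, h6]
    · exact (hRp e he z hz v hv).le
  refine h2.trans (mul_le_mul_of_nonneg_right ?_ h5)
  exact Finset.single_le_sum (fun x _ => hC0 x) hx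

theorem continuousOn_hf (h : HermitianMetric n X) {e : OpenPartialHomeomorph X (Cn n)}
    (he : e ∈ atlas (Cn n) X) :
    ContinuousOn (fun p : Cn n × Cn n => (hf (h.g e p.1) p.2).re) (e.target ×ˢ univ) := by
  refine Complex.continuous_re.comp_continuousOn ?_
  unfold hf
  refine continuousOn_finsetSum _ fun j _ => continuousOn_finsetSum _ fun k _ => ?_
  have h1 : ContinuousOn (fun p : Cn n × Cn n => h.g e p.1 j k) (e.target ×ˢ univ) :=
    (h.smooth e he j k).continuousOn.comp continuousOn_fst fun p hp => hp.1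
  have h2 : Continuous fun p : Cn n × Cn n => p.2 j := (continuous_apply j).comp continuous_snd
  have h3 : Continuous fun p : Cn n × Cn n => conj (p.2 k) :=
    Complex.continuous_conj.comp ((continuous_apply k).comp continuous_snd)
  exact (h1.mul h2.continuousOn).mul h3.continuousOn

theorem hf_smul (A : Matrix (Fin n) (Fin n) ℂ) (r : ℝ) (v : Cn n) :
    (hf A (r • v)).re = r ^ 2 * (hf A v).re := by
  have h1 : hf A (r • v) = ((r ^ 2 : ℝ) : ℂ) * hf A v := by
    unfold hf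
    rw [Finset.mul_sum]
    refine Finset.sum_congr rfl fun j _ => ?_
    rw [Finset.mul_sum]
    refine Finset.sum_congr rfl fun k _ => ?_
    simp only [Pi.smul_apply, Complex.real_smul, map_mul, Complex.conj_ofReal]
    push_cast
    ring
  rw [h1, Complex.re_ofReal_mul]

open scoped ComplexOrder in
theorem hf_pos (h : HermitianMetric n X) {e : OpenPartialHomeomorph X (Cn n)}
    (he : e ∈ atlas (Cn n) X) {z : Cn n} (hz : z ∈ e.target) {v : Cn n} (hv : v ≠ 0) :
    0 < (hf (h.g e z) v).re := by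
  have h0 : star v ≠ 0 := by simpa using hv
  have h1 := (h.posDef e he z hz).dotProduct_mulVec_pos h0
  rw [Complex.lt_def] at h1
  have h2 : star (star v) ⬝ᵥ (h.g e z *ᵥ star v) = hf (h.g e z) v := by
    rw [star_star]
    unfold hf dotProduct Matrix.mulVec dotProduct
    refine Finset.sum_congr rfl fun j _ => ?_
    rw [Finset.mul_sum]
    refine Finset.sum_congr rfl fun k _ => ?_
    simp only [Pi.star_apply, RCLike.star_def]
    ring
  rw [h2] at h1
  exact h1.1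

/-- Two Hermitian metrics on a compact complex manifold are comparable. -/
theorem metric_compare [CompactSpace X] [IsManifold 𝓘(ℂ, Cn n) ω X] (h h0 : HermitianMetric n X) :
    ∃ C : ℝ, 0 ≤ C ∧ ∀ e ∈ atlas (Cn n) X, ∀ z ∈ e.target, ∀ v : Cn n,
      (hf (h.g e z) v).re ≤ C * (hf (h0.g e z) v).re :=
  global_bound (Q := fun e z v => (hf (h.g e z) v).re) (R := fun e z v => (hf (h0.g e z) v).re)
    (fun _ he => continuousOn_hf h he) (fun _ he => continuousOn_hf h0 he)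
    (fun _ _ _ _ r v => hf_smul _ r v) (fun _ _ _ _ r v => hf_smul _ r v)
    (fun _ he _ hz _ hv => hf_pos h0 he hz hv)
    (fun _ he _ he' _ hz v => by rw [transform_hf h he he' hz])
    (fun _ he _ he' _ hz v => by rw [transform_hf h0 he he' hz])

/-- The differential of the logarithm of the ratio of the volume forms is bounded. -/
theorem dlog_bound [CompactSpace X] [IsManifold 𝓘(ℂ, Cn n) ω X] (h h0 : HermitianMetric n X) :
    ∃ C : ℝ, 0 ≤ C ∧ ∀ e ∈ atlas (Cn n) X, ∀ z ∈ e.target, ∀ v : Cn n,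
      (fderiv ℝ (fun w => Real.log (h.g e w).det.re - Real.log (h0.g e w).det.re) z v) ^ 2 ≤
        C * (hf (h0.g e z) v).re := by
  let F : OpenPartialHomeomorph X (Cn n) → Cn n → ℝ := fun e w =>
    Real.log (h.g e w).det.re - Real.log (h0.g e w).det.re
  have hFc : ∀ e ∈ atlas (Cn n) X, ∀ z ∈ e.target, ContDiffAt ℝ ∞ (F e) z := fun e he z hz =>
    (contDiffAt_logdet h he hz).sub (contDiffAt_logdet h0 he hz)
  refine global_bound (Q := fun e z v => (fderiv ℝ (F e) z v) ^ 2)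
    (R := fun e z v => (hf (h0.g e z) v).re) ?_ (fun _ he => continuousOn_hf h0 he)
    ?_ (fun _ _ _ _ r v => hf_smul _ r v)
    (fun _ he _ hz _ hv => hf_pos h0 he hz hv) ?_
    (fun _ he _ he' _ hz v => by rw [transform_hf h0 he he' hz])
  · intro e he
    have h1 : ContinuousOn (fun p : Cn n × Cn n => fderiv ℝ (F e) p.1) (e.target ×ˢ univ) := by
      have h2 : ContinuousOn (fderiv ℝ (F e)) e.target := fun z hz =>
        ((hFc e he z hz).fderiv_right (m := 0) (by simp)).continuousAt.continuousWithinAt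
      exact h2.comp continuousOn_fst fun p hp => hp.1
    exact (h1.clm_apply continuousOn_snd).pow 2
  · intro e he z hz r v
    rw [map_smul, smul_eq_mul]
    ring
  · intro e he e' he' z hz v
    have h1 : F e =ᶠ[𝓝 z] F e' ∘ (e' ∘ e.symm) := by
      filter_upwards [(isOpen_dom e e').mem_nhds hz] with w hw
      change Real.log (h.g e w).det.re - Real.log (h0.g e w).det.re =
        Real.log (h.g e' ((e' ∘ e.symm) w)).det.re - Real.log (h0.g e' ((e' ∘ e.symm) w)).det.re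
      rw [log_transform h he he' hw, log_transform h0 he he' hw]
      ring
    have h2 : HasFDerivAt (e' ∘ e.symm) ((fderiv ℂ (e' ∘ e.symm) z).restrictScalars ℝ) z :=
      ((contDiffAt_trans he he' hz).differentiableAt (by simp)).hasFDerivAt.restrictScalars ℝ
    have h3 : HasFDerivAt (F e') (fderiv ℝ (F e') ((e' ∘ e.symm) z)) ((e' ∘ e.symm) z) :=
      ((hFc e' he' _ (map_dom hz)).differentiableAt (by simp)).hasFDerivAt
    rw [h1.fderiv_eq, (h3.comp z h2).fderiv]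
    rfl

end Pool.Agent.TH997.CMan
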