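import Pool.Agent.TH997.CManB

set_option autoImplicit false

open scoped Manifold ContDiff Topology ComplexConjugate Matrix
open MeasureTheory Set Filter

namespace Pool.Agent.TH997.CMan

open Pool.Agent.W549.CY (Cn dz dzbar HermitianMetric chernRicci chernScalar)
open Pool.Agent.TH598.KG (hf)
open Pool.Agent.TH598 (scal IsVolume)

variable {n : ℕ} {X : Type} [TopologicalSpace X] [ChartedSpace (Cn n) X]

/-- The Chern scalar curvature does not depend on the chart. -/
theorem chernScalar_chart [IsManifold 𝓘(ℂ, Cn n) ω X] (h : HermitianMetric n X)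
    {e e' : OpenPartialHomeomorph X (Cn n)} (he : e ∈ atlas (Cn n) X) (he' : e' ∈ atlas (Cn n) X)
    {x : X} (hx : x ∈ e.source ∩ e'.source) :
    chernScalar (h.g e) (e x) = chernScalar (h.g e') (e' x) := by
  have h1 := chernScalar_dom h he he' (mem_dom_of hx)
  rw [h1]
  simp only [Function.comp_apply, e.left_inv hx.1]

theorem mat_continuousAt {E : Type} [TopologicalSpace E] {A : E → Matrix (Fin n) (Fin n) ℂ} {z : E}
    (h : ∀ j k, ContinuousAt (fun w => A w j k) z) : ContinuousAt A z :=
  continuousAt_pi.2 fun j => continuousAt_pi.2 fun k => h j k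

theorem continuousOn_chernScalar (h : HermitianMetric n X)
    {e : OpenPartialHomeomorph X (Cn n)} (he : e ∈ atlas (Cn n) X) :
    ContinuousOn (chernScalar (h.g e)) e.target := by
  intro z hz
  apply ContinuousAt.continuousWithinAt
  have hg : ∀ j k, ContinuousAt (fun w => h.g e w j k) z := fun j k =>
    ((h.smooth e he j k).contDiffAt (e.open_target.mem_nhds hz)).continuousAt
  have hgm : ContinuousAt (h.g e) z := mat_continuousAt hg
  have hdet : ContinuousAt (fun w => (h.g e w).det) z :=
    (continuous_id.matrix_det).continuousAt.comp hgm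
  have hdet0 : (h.g e z).det ≠ 0 := by
    intro h0
    have := (det_pos h he hz).1
    rw [h0] at this
    simp at this
  have hric : ContinuousAt (chernRicci (h.g e)) z := by
    refine mat_continuousAt fun j k => ?_
    have h1 := (contDiffAt_logdetC h he hz).of_le (m := ((1 + 1 : ℕ) : WithTop ℕ∞))
      (WithTop.coe_le_coe.2 le_top)
    have h2 := contDiffAt_dzbar (m := 1) h1 k
    have h3 := contDiffAt_dz (m := 0) h2 j
    exact h3.continuousAt.neg
  have hinv : ContinuousAt (fun w => (h.g e w)⁻¹) z := by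
    have h1 : (fun w => (h.g e w)⁻¹) = fun w => ((h.g e w).det)⁻¹ • (h.g e w).adjugate := by
      funext w
      rw [Matrix.inv_def, Ring.inverse_eq_inv']
    rw [h1]
    exact (hdet.inv₀ hdet0).smul ((continuous_id.matrix_adjugate).continuousAt.comp hgm)
  have hprod : ContinuousAt (fun w => (h.g e w)⁻¹ * chernRicci (h.g e) w) z := by
    have hm : Continuous fun p : Matrix (Fin n) (Fin n) ℂ × Matrix (Fin n) (Fin n) ℂ =>
        p.1 * p.2 := continuous_fst.matrix_mul continuous_snd
    exact ContinuousAt.comp (g := fun p : Matrix (Fin n) (Fin n) ℂ × Matrix (Fin n) (Fin n) ℂ =>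
      p.1 * p.2) (f := fun w => ((h.g e w)⁻¹, chernRicci (h.g e) w)) hm.continuousAt
      (hinv.prodMk hric)
  have htr : Continuous fun A : Matrix (Fin n) (Fin n) ℂ => A.trace := continuous_id.matrix_trace
  have hfin := ContinuousAt.comp (g := fun A : Matrix (Fin n) (Fin n) ℂ => A.trace)
    (f := fun w => (h.g e w)⁻¹ * chernRicci (h.g e) w) htr.continuousAt hprod
  exact hfin

theorem scal_eq [IsManifold 𝓘(ℂ, Cn n) ω X] (h : HermitianMetric n X)
    {e : OpenPartialHomeomorph X (Cn n)} (he : e ∈ atlas (Cn n) X) {x : X} (hx : x ∈ e.source) :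
    scal h x = (chernScalar (h.g e) (e x)).re := by
  unfold scal
  rw [chernScalar_chart h (chart_mem_atlas _ x) he ⟨mem_chart_source _ x, hx⟩]

theorem continuous_cs [IsManifold 𝓘(ℂ, Cn n) ω X] (h : HermitianMetric n X) :
    Continuous fun x : X => chernScalar (h.g (chartAt (Cn n) x)) (chartAt (Cn n) x x) := by
  rw [continuous_iff_continuousAt]
  intro x
  have he := chart_mem_atlas (Cn n) x
  have hx := mem_chart_source (Cn n) x
  have h1 : (fun y : X => chernScalar (h.g (chartAt (Cn n) y)) (chartAt (Cn n) y y)) =ᶠ[𝓝 x]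
      fun y => chernScalar (h.g (chartAt (Cn n) x)) (chartAt (Cn n) x y) := by
    filter_upwards [(chartAt (Cn n) x).open_source.mem_nhds hx] with y hy
    exact chernScalar_chart h (chart_mem_atlas _ y) he ⟨mem_chart_source _ y, hy⟩
  refine ContinuousAt.congr ?_ h1.symm
  have h2 : ContinuousAt (chernScalar (h.g (chartAt (Cn n) x))) (chartAt (Cn n) x x) :=
    (continuousOn_chernScalar h he).continuousAt
      ((chartAt (Cn n) x).open_target.mem_nhds ((chartAt (Cn n) x).map_source hx))
  exact ContinuousAt.comp (g := chernScalar (h.g (chartAt (Cn n) x))) h2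
    ((chartAt (Cn n) x).continuousAt hx)

theorem continuous_scal [IsManifold 𝓘(ℂ, Cn n) ω X] (h : HermitianMetric n X) :
    Continuous (scal h) :=
  Complex.continuous_re.comp (continuous_cs h)

theorem chernScalar_bdd [CompactSpace X] [IsManifold 𝓘(ℂ, Cn n) ω X] (h : HermitianMetric n X) :
    ∃ C : ℝ, 0 ≤ C ∧ ∀ e ∈ atlas (Cn n) X, ∀ z ∈ e.target, ‖chernScalar (h.g e) z‖ ≤ C := by
  obtain ⟨C, hC⟩ := (isCompact_univ (X := X)).exists_bound_of_continuousOn
    (continuous_cs h).continuousOn
  refine ⟨max C 0, le_max_right _ _, fun e he z hz => ?_⟩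
  have h1 := hC (e.symm z) (mem_univ _)
  have h2 := chernScalar_chart h (chart_mem_atlas _ (e.symm z)) he
    ⟨mem_chart_source _ (e.symm z), e.map_target hz⟩
  rw [h2, e.right_inv hz] at h1
  exact h1.trans (le_max_left _ _)

/-- The volume measure is unique. -/
theorem isVolume_unique [CompactSpace X] [MeasurableSpace X] [BorelSpace X]
    (h : HermitianMetric n X) {μ ν : Measure X} (hμ : IsVolume h μ) (hν : IsVolume h ν) :
    μ = ν := by
  obtain ⟨t, ht⟩ := isCompact_univ.elim_nhds_subcover
    (fun x : X => (chartAt (Cn n) x).source)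
    (fun x _ => (chartAt (Cn n) x).open_source.mem_nhds (mem_chart_source _ x))
  have hcov : ⋃ i : t, (chartAt (Cn n) (i : X)).source = univ := by
    apply Set.eq_univ_of_univ_subset
    refine ht.2.trans ?_
    intro x hx
    simp only [mem_iUnion] at hx ⊢
    obtain ⟨i, hi, hx⟩ := hx
    exact ⟨⟨i, hi⟩, hx⟩
  rw [Measure.ext_iff_of_iUnion_eq_univ hcov]
  intro i
  ext A hA
  have hm : MeasurableSet (chartAt (Cn n) (i : X)).source :=
    (chartAt (Cn n) (i : X)).open_source.measurableSet
  rw [Measure.restrict_apply hA, Measure.restrict_apply hA,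
    hμ _ (chart_mem_atlas _ _) _ (hA.inter hm) inter_subset_right,
    hν _ (chart_mem_atlas _ _) _ (hA.inter hm) inter_subset_right]

end Pool.Agent.TH997.CMan
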