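import Pool.Agent.TH598.KG.MDefs
import Pool.Agent.TH997.J115

set_option autoImplicit false

open scoped Manifold ContDiff Topology ComplexConjugate MatrixGroups UpperHalfPlane Matrix
open MeasureTheory Set Filter

namespace Pool.Agent.TH997.KGO

open Pool.Agent.W549.CY (Cn dz dzbar HermitianMetric chernRicci chernScalar)
open Pool.Agent.W711.KC (jj nn CG jj_ne im_mob jj_mul nn_mul CG_far)
open Pool.Agent.TH598.KG
open Pool.Agent.TH598 (IsVolume)
open Pool.Agent.TH997.KG (mob mob_mem mob_mul mob_coe hasDerivAt_mob)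

theorem isOpen_UU : IsOpen UU :=
  isOpen_lt continuous_const (Complex.continuous_im.comp (continuous_apply 0))

/-! ### Sesquilinear forms -/

/-- the sesquilinear form of a matrix -/
noncomputable def hs {n : ℕ} (A : Matrix (Fin n) (Fin n) ℂ) (u v : Cn n) : ℂ :=
  ∑ j, ∑ k, A j k * u j * conj (v k)

theorem hf_eq_hs {n : ℕ} (A : Matrix (Fin n) (Fin n) ℂ) (v : Cn n) : hf A v = hs A v v := rfl

theorem hs_add_left {n : ℕ} (A : Matrix (Fin n) (Fin n) ℂ) (u u' v : Cn n) :
    hs A (u + u') v = hs A u v + hs A u' v := by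
  unfold hs
  rw [← Finset.sum_add_distrib]
  refine Finset.sum_congr rfl fun j _ => ?_
  rw [← Finset.sum_add_distrib]
  refine Finset.sum_congr rfl fun k _ => ?_
  simp only [Pi.add_apply]
  ring

theorem hs_add_right {n : ℕ} (A : Matrix (Fin n) (Fin n) ℂ) (u v v' : Cn n) :
    hs A u (v + v') = hs A u v + hs A u v' := by
  unfold hs
  rw [← Finset.sum_add_distrib]
  refine Finset.sum_congr rfl fun j _ => ?_
  rw [← Finset.sum_add_distrib]
  refine Finset.sum_congr rfl fun k _ => ?_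
  simp only [Pi.add_apply, map_add]
  ring

theorem hs_smul_left {n : ℕ} (A : Matrix (Fin n) (Fin n) ℂ) (c : ℂ) (u v : Cn n) :
    hs A (c • u) v = c * hs A u v := by
  unfold hs
  rw [Finset.mul_sum]
  refine Finset.sum_congr rfl fun j _ => ?_
  rw [Finset.mul_sum]
  refine Finset.sum_congr rfl fun k _ => ?_
  simp only [Pi.smul_apply, smul_eq_mul]
  ring

theorem hs_smul_right {n : ℕ} (A : Matrix (Fin n) (Fin n) ℂ) (c : ℂ) (u v : Cn n) :
    hs A u (c • v) = conj c * hs A u v := by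
  unfold hs
  rw [Finset.mul_sum]
  refine Finset.sum_congr rfl fun j _ => ?_
  rw [Finset.mul_sum]
  refine Finset.sum_congr rfl fun k _ => ?_
  simp only [Pi.smul_apply, smul_eq_mul, map_mul]
  ring

theorem hs_single {n : ℕ} (A : Matrix (Fin n) (Fin n) ℂ) (j k : Fin n) :
    hs A (Pi.single j 1) (Pi.single k 1) = A j k := by
  unfold hs
  rw [Finset.sum_eq_single j, Finset.sum_eq_single k]
  · simp
  · intro b _ hb
    simp [hb]
  · simp
  · intro b _ hb
    simp [hb]
  · simp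

theorem hs_sub_mat {n : ℕ} (A B : Matrix (Fin n) (Fin n) ℂ) (u v : Cn n) :
    hs (A - B) u v = hs A u v - hs B u v := by
  unfold hs
  rw [← Finset.sum_sub_distrib]
  refine Finset.sum_congr rfl fun j _ => ?_
  rw [← Finset.sum_sub_distrib]
  refine Finset.sum_congr rfl fun k _ => ?_
  simp only [Matrix.sub_apply]
  ring

/-- A Hermitian form is determined by its diagonal values. -/
theorem hf_injective {n : ℕ} {A B : Matrix (Fin n) (Fin n) ℂ} (h : ∀ v, hf A v = hf B v) :
    A = B := by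
  have h0 : ∀ v, hs (A - B) v v = 0 := by
    intro v
    rw [hs_sub_mat]
    exact sub_eq_zero.2 (h v)
  have h1 : ∀ u v, hs (A - B) u v = 0 := by
    intro u v
    have e1 := h0 (u + v)
    have e2 := h0 (u + Complex.I • v)
    rw [hs_add_left, hs_add_right, hs_add_right, h0 u, h0 v] at e1
    rw [hs_add_left, hs_add_right, hs_add_right, h0 u, h0 (Complex.I • v), hs_smul_left,
      hs_smul_right, Complex.conj_I] at e2
    have hI := Complex.I_mul_I
    linear_combination (1 / 2 : ℂ) * e1 + (Complex.I / 2) * e2 +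
      (1 / 2 : ℂ) * (hs (A - B) u v - hs (A - B) v u) * hI
  ext j k
  have := h1 (Pi.single j 1) (Pi.single k 1)
  rw [hs_single] at this
  exact sub_eq_zero.1 this

/-- Change of variables in a Hermitian form. -/
theorem hf_mulVec {n : ℕ} (B J : Matrix (Fin n) (Fin n) ℂ) (v : Cn n) :
    hf B (J.mulVec v) = hf (Jᵀ * B * J.map conj) v := by
  have e1 : ∀ (A : Matrix (Fin n) (Fin n) ℂ) (w : Cn n), hf A w =
      w ⬝ᵥ (A.mulVec (fun k => conj (w k))) := by
    intro A w
    unfold hf dotProduct Matrix.mulVec dotProduct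
    refine Finset.sum_congr rfl fun j _ => ?_
    rw [Finset.mul_sum]
    refine Finset.sum_congr rfl fun k _ => ?_
    ring
  rw [e1, e1, Matrix.mul_assoc, ← Matrix.mulVec_mulVec]
  have e2 : (fun k => conj (J.mulVec v k)) = (J.map conj).mulVec (fun k => conj (v k)) := by
    funext k
    unfold Matrix.mulVec dotProduct
    rw [map_sum]
    refine Finset.sum_congr rfl fun l _ => ?_
    rw [map_mul]
    rfl
  rw [e2, Matrix.dotProduct_mulVec v, Matrix.vecMul_transpose, Matrix.mulVec_mulVec]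

/-- The Jacobian matrix of a linear map. -/
theorem jac_mulVec {n : ℕ} (L : Cn n →L[ℂ] Cn n) (v : Cn n) :
    (LinearMap.toMatrix' (L : Cn n →ₗ[ℂ] Cn n)).mulVec v = L v := by
  rw [LinearMap.toMatrix'_mulVec]
  rfl

theorem det_of_compat {n : ℕ} {A B : Matrix (Fin n) (Fin n) ℂ} {L : Cn n →L[ℂ] Cn n}
    (h : ∀ v, hf A v = hf B (L v)) :
    A.det = ((Complex.normSq (LinearMap.det (L : Cn n →ₗ[ℂ] Cn n)) : ℝ) : ℂ) * B.det := by
  set J := LinearMap.toMatrix' (L : Cn n →ₗ[ℂ] Cn n) with hJ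
  have h1 : A = Jᵀ * B * J.map conj := by
    apply hf_injective
    intro v
    rw [h v, ← hf_mulVec, jac_mulVec]
  have h2 : J.det = LinearMap.det (L : Cn n →ₗ[ℂ] Cn n) := LinearMap.det_toMatrix' _
  have h3 : (J.map conj).det = conj J.det := by
    have := (RingHom.map_det (starRingEnd ℂ) J)
    rw [this]
    rfl
  rw [h1, Matrix.det_mul, Matrix.det_mul, Matrix.det_transpose, h3, h2, ← Complex.mul_conj]
  ring

theorem det_restrict {n : ℕ} (L : Cn n →L[ℂ] Cn n) :
    (L.restrictScalars ℝ : Cn n →L[ℝ] Cn n).det =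
      Complex.normSq (LinearMap.det (L : Cn n →ₗ[ℂ] Cn n)) := by
  rw [← Algebra.norm_complex_apply]
  exact LinearMap.det_restrictScalars (f := (L : Cn n →ₗ[ℂ] Cn n))

/-! ### The transition maps -/

theorem differentiable_ins (i k : Fin 3) : Differentiable ℂ fun p : Cn 3 => ins i p k := by
  fin_cases i <;> fin_cases k <;> simp [ins] <;> fun_prop

theorem differentiable_hom (g : SL(2, ℝ)) (i k : Fin 3) :
    Differentiable ℂ fun p : Cn 3 => hom g i p k := by
  have h0 := differentiable_ins i 0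
  have h1 := differentiable_ins i 1
  have h2 := differentiable_ins i 2
  fin_cases k
  · change Differentiable ℂ fun p : Cn 3 => jj g (p 0) * ins i p 0
    unfold jj
    fun_prop
  · exact h1
  · exact h2

theorem differentiableAt_FF (g : SL(2, ℝ)) (i j : Fin 3) {p : Cn 3} (hp : p ∈ UU)
    (hj : hom g i p j ≠ 0) : DifferentiableAt ℂ (FF g i j) p := by
  rw [differentiableAt_pi]
  intro k
  have h0 : DifferentiableAt ℂ (fun p : Cn 3 => mob g (p 0)) p :=
    DifferentiableAt.comp (f := fun b : Cn 3 => b 0) p (hasDerivAt_mob g hp).differentiableAt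
      (differentiableAt_apply (0 : Fin 3) p)
  have h1 : ∀ k : Fin 3, DifferentiableAt ℂ (fun p : Cn 3 => hom g i p k / hom g i p j) p := by
    intro k
    have a : DifferentiableAt ℂ (fun p : Cn 3 => hom g i p k) p := (differentiable_hom g i k) p
    have b : DifferentiableAt ℂ (fun p : Cn 3 => hom g i p j) p := (differentiable_hom g i j) p
    simp only [div_eq_mul_inv]
    exact a.mul (b.inv hj)
  fin_cases k
  · exact h0
  · exact h1 _
  · exact h1 _

theorem FF_mem (g : SL(2, ℝ)) (i j : Fin 3) {p : Cn 3} (hp : p ∈ UU) : FF g i j p ∈ UU :=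
  mob_mem g hp

theorem free_mob {g : SL(2, ℝ)} (hg : g ∈ CG) {z : ℂ} (hz : 0 < z.im) (h : mob g z = z) :
    g = 1 := by
  refine CG_far.free one_pos g hg ⟨z, hz⟩ ?_
  apply UpperHalfPlane.ext
  rw [mob_coe]
  exact h

theorem FF_inv {X : Type} [TopologicalSpace X] [ChartedSpace (Cn 3) X] {qq : Fin 3 → Cn 3 → X}
    (hQ : IsQ X qq) {g : SL(2, ℝ)} (hg : g ∈ CG) {i j : Fin 3} {p : Cn 3} (hp : p ∈ UU)
    (hj : hom g i p j ≠ 0) :
    hom g⁻¹ j (FF g i j p) i ≠ 0 ∧ FF g⁻¹ j i (FF g i j p) = p := by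
  have hq := FF_mem g i j hp
  have h1 : qq i p = qq j (FF g i j p) := (hQ.eq_iff i j p hp _ hq).2 ⟨g, hg, hj, rfl⟩
  obtain ⟨h, hh, hne, hpe⟩ := (hQ.eq_iff j i _ hq p hp).1 h1.symm
  have h2 : p 0 = mob h (mob g (p 0)) := congrFun hpe 0
  rw [← mob_mul h g hp] at h2
  have h3 := free_mob (mul_mem hh hg) hp h2.symm
  have h4 : h = g⁻¹ := eq_inv_of_mul_eq_one_left h3
  rw [h4] at hne hpe
  exact ⟨hne, hpe.symm⟩

theorem hom_zero_null (g : SL(2, ℝ)) (i : Fin 3) :
    volume {b : Cn 3 | b ∈ UU ∧ hom g i b 0 = 0} = 0 := by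
  refine measure_mono_null (t := {b : Cn 3 | b 1 = 0}) ?_ ?_
  · rintro b ⟨hb, h⟩
    have h1 : jj g (b 0) * ins i b 0 = 0 := h
    have h2 := (mul_eq_zero.1 h1).resolve_left (jj_ne g hb)
    fin_cases i
    · simp [ins] at h2
    · exact h2
    · exact h2
  · rw [volume_pi]
    exact Measure.pi_hyperplane (μ := fun _ : Fin 3 => (volume : Measure ℂ)) (1 : Fin 3) 0

theorem meas_inter {α β : Type} [TopologicalSpace α] [MeasurableSpace α] [OpensMeasurableSpace α]
    [TopologicalSpace β] [MeasurableSpace β] [BorelSpace β] {f : α → β} {V : Set α}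
    (hV : MeasurableSet V) (hf : ContinuousOn f V) {B : Set β} (hB : MeasurableSet B) :
    MeasurableSet (V ∩ f ⁻¹' B) := by
  have h1 := (continuousOn_iff_continuous_domRestrict.1 hf).measurable hB
  have h2 := hV.subtype_image h1
  convert h2 using 1
  ext x
  simp only [mem_inter_iff, mem_preimage, mem_image, domRestrict_apply, Subtype.exists]
  constructor
  · rintro ⟨a, b⟩
    exact ⟨x, a, b, rfl⟩
  · rintro ⟨y, a, b, rfl⟩
    exact ⟨a, b⟩

theorem tsum_ofReal {φ : ℂ → ℝ} (hφ : Cutoff CG φ) {z : ℂ} (hz : 0 < z.im) :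
    ∑' g : CG, ENNReal.ofReal (φ (mob (g : SL(2, ℝ))⁻¹ z)) = 1 := by
  have h1 := hφ.sum ⟨z, hz⟩
  have h2 : ∑' g : CG, φ (mob g z) = 1 := by
    rw [← h1]
    exact tsum_congr fun g => by rw [mob_coe]
  have h3 : ∑' g : CG, φ (mob (g : SL(2, ℝ))⁻¹ z) = 1 := by
    rw [← h2, ← (Equiv.inv CG).tsum_eq (fun g : CG => φ (mob g z))]
    rfl
  have h4 : Summable fun g : CG => φ (mob (g : SL(2, ℝ))⁻¹ z) := by
    by_contra h
    rw [tsum_eq_zero_of_not_summable h] at h3
    exact zero_ne_one h3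
  rw [← ENNReal.ofReal_tsum_of_nonneg (fun g => hφ.nonneg _) h4, h3, ENNReal.ofReal_one]

/-- The volume measure of a Hermitian metric, by unfolding: it is the image of the measure
`φ(p 0) 8 det (m 0 p) dp` under `qq 0`. -/
theorem isVolume_map {X : Type} [TopologicalSpace X] [ChartedSpace (Cn 3) X] [CompactSpace X]
    [MeasurableSpace X] [BorelSpace X] {qq : Fin 3 → Cn 3 → X} (hQ : IsQ X qq)
    (hqc : ContinuousOn (qq 0) UU) {φ : ℂ → ℝ} (hφ : Cutoff CG φ)
    (h : HermitianMetric 3 X) {m : Fin 3 → Cn 3 → M3} (hm : IsMet m) (hr : Rep qq h m) :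
    IsVolume h (Measure.map (qq 0) ((volume.restrict UU).withDensity
      fun p => ENNReal.ofReal (φ (p 0) * (8 * (m 0 p).det.re)))) := by
  intro e he A hA hAs
  obtain ⟨i, hiU, hi⟩ := hQ.atlas_spec e he
  have : Countable CG := CG_far.countable one_pos
  have hUm : MeasurableSet UU := isOpen_UU.measurableSet
  set B := e '' A with hB
  have hBt : B ⊆ e.target := by
    rintro _ ⟨a, ha, rfl⟩
    exact e.map_source (hAs ha)
  have hBU : B ⊆ UU := hBt.trans hiU
  have hBm : MeasurableSet B := by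
    rw [hB, e.image_eq_target_inter_inv_preimage hAs]
    exact meas_inter e.open_target.measurableSet e.continuousOn_symm hA
  have hmem : ∀ b ∈ e.target, (qq i b ∈ A ↔ b ∈ B) := by
    intro b hb
    rw [← hi b hb]
    constructor
    · intro h1
      exact ⟨e.symm b, h1, e.right_inv hb⟩
    · rintro ⟨a, ha, rfl⟩
      rw [e.left_inv (hAs ha)]
      exact ha
  let V : CG → Set (Cn 3) := fun g => {p | p ∈ UU ∧ hom g 0 p i ≠ 0}
  have hVo : ∀ g, IsOpen (V g) := fun g =>
    isOpen_UU.inter ((differentiable_hom g 0 i).continuous.isOpen_preimage _ isOpen_compl_singleton)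
  let P : CG → Set (Cn 3) := fun g => V g ∩ FF g 0 i ⁻¹' B
  have hdiff : ∀ (g : CG) (p) (_ : p ∈ V g), DifferentiableAt ℂ (FF g 0 i) p := fun g p hp =>
    differentiableAt_FF g 0 i hp.1 hp.2
  have hPm : ∀ g, MeasurableSet (P g) := fun g =>
    meas_inter (hVo g).measurableSet
      (fun p hp => (hdiff g p hp).continuousAt.continuousWithinAt) hBm
  have hPd : Pairwise (Function.onFun Disjoint P) := by
    intro g g' hgg
    rw [Function.onFun, Set.disjoint_left]
    rintro p ⟨hp, hpB⟩ ⟨hp', hpB'⟩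
    apply hgg
    have e1 : qq 0 p = qq i (FF g 0 i p) :=
      (hQ.eq_iff 0 i p hp.1 _ (FF_mem _ _ _ hp.1)).2 ⟨g, g.2, hp.2, rfl⟩
    have e2 : qq 0 p = qq i (FF g' 0 i p) :=
      (hQ.eq_iff 0 i p hp.1 _ (FF_mem _ _ _ hp.1)).2 ⟨g', g'.2, hp'.2, rfl⟩
    have e3 : FF g 0 i p = FF g' 0 i p := by
      have t1 := hBt hpB
      have t2 := hBt hpB'
      apply e.symm.injOn (by simpa using t1) (by simpa using t2)
      rw [hi _ t1, hi _ t2, ← e1, e2]
    have e4 : mob g (p 0) = mob g' (p 0) := congrFun e3 0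
    have e5 : mob ((g' : SL(2, ℝ))⁻¹ * g) (p 0) = p 0 := by
      rw [mob_mul _ _ hp.1, e4]
      exact Pool.Agent.TH997.KG.mob_inv_left _ hp.1
    have e6 := free_mob (mul_mem (inv_mem g'.2) g.2) hp.1 e5
    apply Subtype.ext
    exact (inv_mul_eq_one.1 e6).symm
  have hPU : qq 0 ⁻¹' A ∩ UU = ⋃ g, P g := by
    ext p
    rw [Set.mem_iUnion]
    constructor
    · rintro ⟨hpA, hpU⟩
      have hpA' : qq 0 p ∈ A := hpA
      have h1 : e (qq 0 p) ∈ e.target := e.map_source (hAs hpA')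
      have h2 : qq 0 p = qq i (e (qq 0 p)) := by
        rw [← hi _ h1, e.left_inv (hAs hpA')]
      obtain ⟨g, hg, hne, hge⟩ := (hQ.eq_iff 0 i p hpU _ (hiU h1)).1 h2
      refine ⟨⟨g, hg⟩, ⟨hpU, hne⟩, ?_⟩
      change FF g 0 i p ∈ B
      rw [← hge]
      exact ⟨_, hpA', rfl⟩
    · rintro ⟨g, hp, hpB⟩
      refine ⟨?_, hp.1⟩
      have e1 : qq 0 p = qq i (FF g 0 i p) :=
        (hQ.eq_iff 0 i p hp.1 _ (FF_mem _ _ _ hp.1)).2 ⟨g, g.2, hp.2, rfl⟩
      change qq 0 p ∈ A
      rw [e1]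
      exact (hmem _ (hBt hpB)).2 hpB
  -- the left-hand side
  have hae : AEMeasurable (qq 0) ((volume.restrict UU).withDensity
      fun p => ENNReal.ofReal (φ (p 0) * (8 * (m 0 p).det.re))) :=
    (hqc.aemeasurable hUm).mono_ac (withDensity_absolutelyContinuous _ _)
  rw [Measure.map_apply_of_aemeasurable hae hA, withDensity_apply',
    Measure.restrict_restrict' hUm, hPU, lintegral_iUnion hPm hPd]
  -- change of variables
  let G : CG → Cn 3 → ENNReal := fun g b =>
    ENNReal.ofReal (φ (mob (g : SL(2, ℝ))⁻¹ (b 0))) * ENNReal.ofReal (8 * (m i b).det.re)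
  have hcv : ∀ g : CG, ∫⁻ p in P g, ENNReal.ofReal (φ (p 0) * (8 * (m 0 p).det.re)) =
      ∫⁻ b in B, G g b := by
    intro g
    have hinj : Set.InjOn (FF g 0 i) (P g) := by
      rintro p ⟨hp, _⟩ p' ⟨hp', _⟩ hpp
      rw [← (FF_inv hQ g.2 hp.1 hp.2).2, ← (FF_inv hQ g.2 hp'.1 hp'.2).2, hpp]
    have h1 := lintegral_image_eq_lintegral_abs_det_fderiv_mul volume (hPm g)
      (f := FF g 0 i) (f' := fun p => (fderiv ℂ (FF g 0 i) p).restrictScalars ℝ)
      (fun p hp => ((hdiff g p hp.1).hasFDerivAt.restrictScalars ℝ).hasFDerivWithinAt) hinj (G g)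
    have h2 : FF g 0 i '' P g =ᵐ[volume] B := by
      have h3 : FF g 0 i '' P g = B \ {b : Cn 3 | b ∈ UU ∧ hom (g : SL(2, ℝ))⁻¹ i b 0 = 0} := by
        apply Set.Subset.antisymm
        · rintro _ ⟨p, ⟨hp, hpB⟩, rfl⟩
          refine ⟨hpB, fun hc => ?_⟩
          exact (FF_inv hQ g.2 hp.1 hp.2).1 hc.2
        · rintro b ⟨hb, hbc⟩
          have hbU := hBU hb
          have hne : hom (g : SL(2, ℝ))⁻¹ i b 0 ≠ 0 := fun hc => hbc ⟨hbU, hc⟩
          have h4 := FF_inv hQ (inv_mem g.2) hbU hne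
          rw [inv_inv] at h4
          refine ⟨FF (g : SL(2, ℝ))⁻¹ i 0 b, ⟨⟨FF_mem _ _ _ hbU, h4.1⟩, ?_⟩, h4.2⟩
          change FF g 0 i (FF (g : SL(2, ℝ))⁻¹ i 0 b) ∈ B
          rw [h4.2]
          exact hb
      rw [h3]
      exact sdiff_null_ae_eq_self (hom_zero_null _ _)
    rw [← setLIntegral_congr h2, h1]
    refine setLIntegral_congr_fun (hPm g) fun p hp => ?_
    have hpU := hp.1.1
    have hc := det_of_compat (hm.compat g g.2 0 i p hpU hp.1.2)
    have hF0 : FF g 0 i p 0 = mob g (p 0) := rfl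
    have hinv : mob (g : SL(2, ℝ))⁻¹ (FF g 0 i p 0) = p 0 := by
      rw [hF0]
      exact Pool.Agent.TH997.KG.mob_inv_left _ hpU
    change _ = ENNReal.ofReal |((fderiv ℂ (FF g 0 i) p).restrictScalars ℝ).det| *
      (ENNReal.ofReal (φ (mob (g : SL(2, ℝ))⁻¹ (FF g 0 i p 0))) *
        ENNReal.ofReal (8 * (m i (FF g 0 i p)).det.re))
    rw [hinv, hc, Complex.re_ofReal_mul, det_restrict, abs_of_nonneg (Complex.normSq_nonneg _),
      ← ENNReal.ofReal_mul (hφ.nonneg _), ← ENNReal.ofReal_mul (Complex.normSq_nonneg _)]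
    congr 1
    ring
  rw [tsum_congr hcv]
  have hGm : ∀ g : CG, AEMeasurable (G g) (volume.restrict B) := by
    intro g
    have hdet : ContinuousOn (fun b => (m i b).det) UU := by
      have h1 : ∀ j k, ContinuousOn (fun b => m i b j k) UU := fun j k =>
        (hm.smooth i j k).continuousOn
      simp only [Matrix.det_fin_three]
      fun_prop
    have h2 : ContinuousOn (fun b : Cn 3 => φ (mob (g : SL(2, ℝ))⁻¹ (b 0))) UU := by
      refine hφ.smooth.continuous.comp_continuousOn ?_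
      intro b hb
      exact (ContinuousAt.comp (f := fun b : Cn 3 => b 0)
        (hasDerivAt_mob (g : SL(2, ℝ))⁻¹ hb).continuousAt
        (continuous_apply (0 : Fin 3)).continuousAt).continuousWithinAt
    have h3 : AEMeasurable (G g) (volume.restrict UU) := by
      refine AEMeasurable.fun_mul ?_ ?_
      · exact (h2.aemeasurable hUm).ennreal_ofReal
      · exact ((continuousOn_const.mul
          (Complex.continuous_re.comp_continuousOn hdet)).aemeasurable hUm).ennreal_ofReal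
    exact h3.mono_measure (Measure.restrict_mono hBU le_rfl)
  rw [← lintegral_tsum hGm]
  refine setLIntegral_congr_fun hBm fun b hb => ?_
  change ∑' g : CG, ENNReal.ofReal (φ (mob (g : SL(2, ℝ))⁻¹ (b 0))) *
    ENNReal.ofReal (8 * (m i b).det.re) = _
  rw [ENNReal.tsum_mul_right, tsum_ofReal hφ (hBU hb), one_mul,
    hr e he i hiU hi b (hBt hb)]
  norm_num

end Pool.Agent.TH997.KGO
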