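import Pool.Agent.W549.CYDefs

/-! # Wirtinger calculus on `ℂ^n` -/

set_option autoImplicit false

open scoped Manifold ContDiff Topology ComplexConjugate Matrix
open Set Filter

namespace Pool.Agent.TH997.CMan

open Pool.Agent.W549.CY (Cn dz dzbar HermitianMetric chernRicci chernScalar)

variable {n m : ℕ}

theorem single_I (j : Fin n) : (Pi.single j Complex.I : Cn n) = Complex.I • Pi.single j 1 := by
  ext k
  by_cases h : k = j
  · subst h; simp
  · simp [h]

/-- the complex linear part of a real linear map, in the direction `v` -/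
noncomputable def pl (L : Cn n →L[ℝ] ℂ) (v : Cn n) : ℂ := (1 / 2) * (L v - Complex.I * L (Complex.I • v))

/-- the complex antilinear part -/
noncomputable def pb (L : Cn n →L[ℝ] ℂ) (v : Cn n) : ℂ := (1 / 2) * (L v + Complex.I * L (Complex.I • v))

theorem dz_eq (j : Fin n) (u : Cn n → ℂ) (z : Cn n) : dz j u z = pl (fderiv ℝ u z) (Pi.single j 1) := by
  unfold dz pl
  rw [single_I]

theorem dzbar_eq (j : Fin n) (u : Cn n → ℂ) (z : Cn n) :
    dzbar j u z = pb (fderiv ℝ u z) (Pi.single j 1) := by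
  unfold dzbar pb
  rw [single_I]

theorem pl_add_pb (L : Cn n →L[ℝ] ℂ) (v : Cn n) : pl L v + pb L v = L v := by
  unfold pl pb
  ring

theorem pl_add (L : Cn n →L[ℝ] ℂ) (v w : Cn n) : pl L (v + w) = pl L v + pl L w := by
  unfold pl
  rw [smul_add, map_add, map_add]
  ring

theorem pb_add (L : Cn n →L[ℝ] ℂ) (v w : Cn n) : pb L (v + w) = pb L v + pb L w := by
  unfold pb
  rw [smul_add, map_add, map_add]
  ring

theorem apply_smul (L : Cn n →L[ℝ] ℂ) (c : ℂ) (v : Cn n) :
    L (c • v) = (c.re : ℂ) * L v + (c.im : ℂ) * L (Complex.I • v) := by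
  have h1 : c • v = c.re • v + c.im • (Complex.I • v) := by
    ext k
    simp only [Pi.smul_apply, Pi.add_apply, smul_eq_mul, Complex.real_smul]
    conv_lhs => rw [← Complex.re_add_im c]
    ring
  rw [h1, map_add, map_smul, map_smul, Complex.real_smul, Complex.real_smul]

theorem pl_smul (L : Cn n →L[ℝ] ℂ) (c : ℂ) (v : Cn n) : pl L (c • v) = c * pl L v := by
  unfold pl
  rw [smul_smul, apply_smul L c, apply_smul L (Complex.I * c)]
  conv_rhs => rw [← Complex.re_add_im c]
  simp only [Complex.mul_re, Complex.mul_im, Complex.I_re, Complex.I_im, zero_mul, one_mul,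
    zero_sub, zero_add, Complex.ofReal_neg]
  linear_combination (1 / 2 : ℂ) * (c.im : ℂ) * L (Complex.I • v) * Complex.I_mul_I

theorem pb_smul (L : Cn n →L[ℝ] ℂ) (c : ℂ) (v : Cn n) : pb L (c • v) = conj c * pb L v := by
  unfold pb
  rw [smul_smul, apply_smul L c, apply_smul L (Complex.I * c)]
  have hc : conj c = (c.re : ℂ) - (c.im : ℂ) * Complex.I := by
    apply Complex.ext <;> simp
  rw [hc]
  simp only [Complex.mul_re, Complex.mul_im, Complex.I_re, Complex.I_im, zero_mul, one_mul,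
    zero_sub, zero_add, Complex.ofReal_neg]
  linear_combination (1 / 2 : ℂ) * (c.im : ℂ) * L (Complex.I • v) * Complex.I_mul_I

theorem pl_sum (L : Cn n →L[ℝ] ℂ) (v : Cn n) : pl L v = ∑ a, pl L (Pi.single a 1) * v a := by
  let f : Cn n →ₗ[ℂ] ℂ :=
    { toFun := pl L
      map_add' := pl_add L
      map_smul' := fun c v => pl_smul L c v }
  have h := LinearMap.pi_apply_eq_sum_univ f v
  change pl L v = _ at h
  rw [h]
  refine Finset.sum_congr rfl fun a _ => ?_
  have e1 : (fun j => if a = j then (1 : ℂ) else 0) = Pi.single a 1 := by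
    ext j
    by_cases hj : a = j
    · subst hj; simp
    · simp [hj, Ne.symm hj]
  rw [e1, smul_eq_mul, mul_comm]
  rfl

theorem pb_sum (L : Cn n →L[ℝ] ℂ) (v : Cn n) : pb L v = ∑ a, pb L (Pi.single a 1) * conj (v a) := by
  have h0 : ∀ s : Finset (Fin n), pb L (∑ a ∈ s, v a • Pi.single a 1) =
      ∑ a ∈ s, pb L (Pi.single a 1) * conj (v a) := by
    intro s
    classical
    induction s using Finset.induction_on with
    | empty =>
      have := pb_smul L 0 0
      simpa using this
    | insert a s ha ih =>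
      rw [Finset.sum_insert ha, Finset.sum_insert ha, pb_add, ih, pb_smul, mul_comm]
  have h1 : v = ∑ a, v a • (Pi.single a 1 : Cn n) := by
    ext k
    simp [Finset.sum_apply, Pi.single_apply]
  conv_lhs => rw [h1]
  exact h0 _

theorem pl_comp (L : Cn m →L[ℝ] ℂ) (J : Cn n →L[ℂ] Cn m) (v : Cn n) :
    pl (L.comp (J.restrictScalars ℝ)) v = pl L (J v) := by
  unfold pl
  have : J (Complex.I • v) = Complex.I • J v := map_smul _ _ _
  simp [this]

theorem pb_comp (L : Cn m →L[ℝ] ℂ) (J : Cn n →L[ℂ] Cn m) (v : Cn n) :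
    pb (L.comp (J.restrictScalars ℝ)) v = pb L (J v) := by
  unfold pb
  have : J (Complex.I • v) = Complex.I • J v := map_smul _ _ _
  simp [this]

/-- first order chain rule -/
theorem dz_comp {u : Cn m → ℂ} {φ : Cn n → Cn m} {z : Cn n} (hu : DifferentiableAt ℝ u (φ z))
    (hφ : DifferentiableAt ℂ φ z) (j : Fin n) :
    dz j (fun w => u (φ w)) z = ∑ a, dz a u (φ z) * fderiv ℂ φ z (Pi.single j 1) a := by
  have h1 : fderiv ℝ (fun w => u (φ w)) z = (fderiv ℝ u (φ z)).comp
      ((fderiv ℂ φ z).restrictScalars ℝ) :=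
    (hu.hasFDerivAt.comp z (hφ.hasFDerivAt.restrictScalars ℝ)).fderiv
  rw [dz_eq, h1, pl_comp, pl_sum]
  simp only [dz_eq]

theorem dzbar_comp {u : Cn m → ℂ} {φ : Cn n → Cn m} {z : Cn n} (hu : DifferentiableAt ℝ u (φ z))
    (hφ : DifferentiableAt ℂ φ z) (j : Fin n) :
    dzbar j (fun w => u (φ w)) z =
      ∑ a, dzbar a u (φ z) * conj (fderiv ℂ φ z (Pi.single j 1) a) := by
  have h1 : fderiv ℝ (fun w => u (φ w)) z = (fderiv ℝ u (φ z)).comp
      ((fderiv ℂ φ z).restrictScalars ℝ) :=
    (hu.hasFDerivAt.comp z (hφ.hasFDerivAt.restrictScalars ℝ)).fderiv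
  rw [dzbar_eq, h1, pb_comp, pb_sum]
  simp only [dzbar_eq]

theorem dz_congr {u v : Cn n → ℂ} {z : Cn n} (h : u =ᶠ[𝓝 z] v) (j : Fin n) :
    dz j u z = dz j v z := by
  unfold dz
  rw [h.fderiv_eq]

theorem dzbar_congr {u v : Cn n → ℂ} {z : Cn n} (h : u =ᶠ[𝓝 z] v) (j : Fin n) :
    dzbar j u z = dzbar j v z := by
  unfold dzbar
  rw [h.fderiv_eq]

theorem dz_add {u v : Cn n → ℂ} {z : Cn n} (hu : DifferentiableAt ℝ u z)
    (hv : DifferentiableAt ℝ v z) (j : Fin n) :
    dz j (fun w => u w + v w) z = dz j u z + dz j v z := by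
  unfold dz
  rw [fderiv_fun_add hu hv]
  simp only [add_apply]
  ring

theorem dzbar_add {u v : Cn n → ℂ} {z : Cn n} (hu : DifferentiableAt ℝ u z)
    (hv : DifferentiableAt ℝ v z) (j : Fin n) :
    dzbar j (fun w => u w + v w) z = dzbar j u z + dzbar j v z := by
  unfold dzbar
  rw [fderiv_fun_add hu hv]
  simp only [add_apply]
  ring

theorem dz_sum {ι : Type} {s : Finset ι} {u : ι → Cn n → ℂ} {z : Cn n}
    (hu : ∀ i ∈ s, DifferentiableAt ℝ (u i) z) (j : Fin n) :
    dz j (fun w => ∑ i ∈ s, u i w) z = ∑ i ∈ s, dz j (u i) z := by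
  unfold dz
  rw [fderiv_fun_sum hu]
  simp only [sum_apply, Finset.mul_sum, ← Finset.sum_sub_distrib]

theorem dz_mul {u v : Cn n → ℂ} {z : Cn n} (hu : DifferentiableAt ℝ u z)
    (hv : DifferentiableAt ℝ v z) (j : Fin n) :
    dz j (fun w => u w * v w) z = dz j u z * v z + u z * dz j v z := by
  unfold dz
  rw [fderiv_fun_mul hu hv]
  simp only [add_apply, smul_apply, smul_eq_mul]
  ring

/-- `∂ conj(h) = 0` for `h` holomorphic -/
theorem dz_conj {h : Cn n → ℂ} {z : Cn n} (hh : DifferentiableAt ℂ h z) (j : Fin n) :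
    dz j (fun w => conj (h w)) z = 0 := by
  have h1 : HasFDerivAt h ((fderiv ℂ h z).restrictScalars ℝ) z :=
    hh.hasFDerivAt.restrictScalars ℝ
  have h2 : HasFDerivAt (fun w => conj (h w))
      ((Complex.conjCLE : ℂ →L[ℝ] ℂ).comp ((fderiv ℂ h z).restrictScalars ℝ)) z :=
    (Complex.conjCLE : ℂ →L[ℝ] ℂ).hasFDerivAt.comp z h1
  rw [dz_eq, h2.fderiv]
  unfold pl
  have : fderiv ℂ h z (Complex.I • (Pi.single j 1 : Cn n)) =
      Complex.I * fderiv ℂ h z (Pi.single j 1) := by rw [map_smul]; rfl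
  simp only [ContinuousLinearMap.comp_apply, ContinuousLinearMap.coe_restrictScalars',
    ContinuousLinearEquiv.coe_coe, Complex.conjCLE_apply, this, map_mul, Complex.conj_I]
  linear_combination (1 / 2 : ℂ) * conj (fderiv ℂ h z (Pi.single j 1)) * Complex.I_mul_I

/-- second order chain rule for holomorphic maps -/
theorem levi_comp {u : Cn m → ℂ} {φ : Cn n → Cn m} {z : Cn n} (hu : ContDiffAt ℝ 2 u (φ z))
    (hφ : ContDiffAt ℂ 2 φ z) (j k : Fin n) :
    dz j (dzbar k fun w => u (φ w)) z = ∑ a, ∑ b, fderiv ℂ φ z (Pi.single j 1) a *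
      conj (fderiv ℂ φ z (Pi.single k 1) b) * dz a (dzbar b u) (φ z) := by
  have hφc : ContinuousAt φ z := hφ.continuousAt
  have hφd : ∀ᶠ w in 𝓝 z, DifferentiableAt ℂ φ w := by
    filter_upwards [hφ.eventually (by simp)] with w hw using hw.differentiableAt (by simp)
  have hud : ∀ᶠ w in 𝓝 z, DifferentiableAt ℝ u (φ w) := by
    have : ∀ᶠ y in 𝓝 (φ z), DifferentiableAt ℝ u y := by
      filter_upwards [hu.eventually (by simp)] with w hw using hw.differentiableAt (by simp)
    exact hφc.eventually this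
  have h1 : (dzbar k fun w => u (φ w)) =ᶠ[𝓝 z] fun w =>
      ∑ b, dzbar b u (φ w) * conj (fderiv ℂ φ w (Pi.single k 1) b) := by
    filter_upwards [hφd, hud] with w h1 h2 using dzbar_comp h2 h1 k
  rw [dz_congr h1]
  -- differentiability
  have hf1 : ContDiffAt ℝ 1 (fderiv ℝ u) (φ z) := hu.fderiv_right (by norm_num)
  have hdb : ∀ b, DifferentiableAt ℝ (dzbar b u) (φ z) := by
    intro b
    have hf2 : DifferentiableAt ℝ (fderiv ℝ u) (φ z) := hf1.differentiableAt (by simp)
    unfold dzbar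
    fun_prop
  have hφ1 : DifferentiableAt ℂ φ z := hφ.differentiableAt (by simp)
  have hφR : DifferentiableAt ℝ φ z := hφ1.restrictScalars ℝ
  have hD : DifferentiableAt ℂ (fderiv ℂ φ) z :=
    (hφ.fderiv_right (m := 1) (by norm_num)).differentiableAt (by simp)
  have hDb : ∀ b, DifferentiableAt ℂ (fun w => fderiv ℂ φ w (Pi.single k 1) b) z := by
    intro b
    have h3 : DifferentiableAt ℂ (fun w => fderiv ℂ φ w (Pi.single k 1)) z :=
      hD.clm_apply (differentiableAt_const _)
    exact (differentiableAt_pi.1 h3) b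
  have hcj : ∀ b, DifferentiableAt ℝ (fun w => conj (fderiv ℂ φ w (Pi.single k 1) b)) z := by
    intro b
    exact (Complex.conjCLE : ℂ →L[ℝ] ℂ).differentiableAt.comp z ((hDb b).restrictScalars ℝ)
  have hdc : ∀ b, DifferentiableAt ℝ (fun w => dzbar b u (φ w)) z := fun b =>
    (hdb b).comp z hφR
  rw [dz_sum (u := fun b w => dzbar b u (φ w) * conj (fderiv ℂ φ w (Pi.single k 1) b))
    (fun b _ => (hdc b).mul (hcj b))]
  have h4 : ∀ b, dz j (fun w => dzbar b u (φ w) * conj (fderiv ℂ φ w (Pi.single k 1) b)) z =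
      ∑ a, fderiv ℂ φ z (Pi.single j 1) a *
        conj (fderiv ℂ φ z (Pi.single k 1) b) * dz a (dzbar b u) (φ z) := by
    intro b
    rw [dz_mul (hdc b) (hcj b), dz_conj (hDb b), mul_zero, add_zero, dz_comp (hdb b) hφ1,
      Finset.sum_mul]
    refine Finset.sum_congr rfl fun a _ => ?_
    ring
  rw [Finset.sum_congr rfl fun b _ => h4 b, Finset.sum_comm]

/-- `log |h|²` is pluriharmonic -/
theorem levi_log {h : Cn n → ℂ} {z : Cn n} (hh : ContDiffAt ℂ 2 h z) (h0 : h z ≠ 0)
    (j k : Fin n) :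
    dz j (dzbar k fun w => ((Real.log (Complex.normSq (h w)) : ℝ) : ℂ)) z = 0 := by
  have hev : ∀ᶠ w in 𝓝 z, DifferentiableAt ℂ h w ∧ h w ≠ 0 := by
    refine Filter.Eventually.and ?_ (hh.continuousAt.eventually_ne h0)
    filter_upwards [hh.eventually (by simp)] with w hw using hw.differentiableAt (by simp)
  have h1 : (dzbar k fun w => ((Real.log (Complex.normSq (h w)) : ℝ) : ℂ)) =ᶠ[𝓝 z] fun w =>
      conj (fderiv ℂ h w (Pi.single k 1) / h w) := by
    filter_upwards [hev] with w hw
    obtain ⟨hw1, hw0⟩ := hw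
    have hN : Complex.normSq (h w) ≠ 0 := (Complex.normSq_pos.2 hw0).ne'
    have e1 : HasFDerivAt h ((fderiv ℂ h w).restrictScalars ℝ) w :=
      hw1.hasFDerivAt.restrictScalars ℝ
    have e2 : HasFDerivAt (fun w => (h w).re)
        (Complex.reCLM.comp ((fderiv ℂ h w).restrictScalars ℝ)) w :=
      Complex.reCLM.hasFDerivAt.comp w e1
    have e3 : HasFDerivAt (fun w => (h w).im)
        (Complex.imCLM.comp ((fderiv ℂ h w).restrictScalars ℝ)) w :=
      Complex.imCLM.hasFDerivAt.comp w e1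
    have e4 := (e2.mul e2).add (e3.mul e3)
    have e5 : HasFDerivAt (fun w => Real.log (Complex.normSq (h w)))
        ((Complex.normSq (h w))⁻¹ • ((h w).re • (Complex.reCLM.comp
          ((fderiv ℂ h w).restrictScalars ℝ)) + (h w).re • (Complex.reCLM.comp
          ((fderiv ℂ h w).restrictScalars ℝ)) + ((h w).im • (Complex.imCLM.comp
          ((fderiv ℂ h w).restrictScalars ℝ)) + (h w).im • (Complex.imCLM.comp
          ((fderiv ℂ h w).restrictScalars ℝ))))) w := by
      have e6 : (fun w => Real.log (Complex.normSq (h w))) =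
          fun w => Real.log ((h w).re * (h w).re + (h w).im * (h w).im) := by
        funext w
        rw [Complex.normSq_apply]
      rw [e6, Complex.normSq_apply]
      rw [Complex.normSq_apply] at hN
      exact e4.log hN
    have e7 : HasFDerivAt (fun w => ((Real.log (Complex.normSq (h w)) : ℝ) : ℂ))
        (Complex.ofRealCLM.comp ((Complex.normSq (h w))⁻¹ • ((h w).re • (Complex.reCLM.comp
          ((fderiv ℂ h w).restrictScalars ℝ)) + (h w).re • (Complex.reCLM.comp
          ((fderiv ℂ h w).restrictScalars ℝ)) + ((h w).im • (Complex.imCLM.comp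
          ((fderiv ℂ h w).restrictScalars ℝ)) + (h w).im • (Complex.imCLM.comp
          ((fderiv ℂ h w).restrictScalars ℝ)))))) w :=
      Complex.ofRealCLM.hasFDerivAt.comp w e5
    rw [dzbar_eq, e7.fderiv]
    unfold pb
    have e8 : fderiv ℂ h w (Complex.I • (Pi.single k 1 : Cn n)) =
        Complex.I * fderiv ℂ h w (Pi.single k 1) := by rw [map_smul]; rfl
    simp only [ContinuousLinearMap.comp_apply, ContinuousLinearMap.coe_restrictScalars',
      smul_apply, add_apply, Complex.reCLM_apply,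
      Complex.imCLM_apply, Complex.ofRealCLM_apply, e8, smul_eq_mul]
    set d := fderiv ℂ h w (Pi.single k 1) with hd
    have hcw : conj (h w) ≠ 0 := by simpa using hw0
    have hNc : ((Complex.normSq (h w) : ℝ) : ℂ) = h w * conj (h w) := (Complex.mul_conj _).symm
    rw [map_div₀, eq_div_iff hcw]
    have hx : h w = ((h w).re : ℂ) + ((h w).im : ℂ) * Complex.I := (Complex.re_add_im _).symm
    have hcx : conj (h w) = ((h w).re : ℂ) - ((h w).im : ℂ) * Complex.I := by
      apply Complex.ext <;> simp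
    have hdx : conj d = (d.re : ℂ) - (d.im : ℂ) * Complex.I := by
      apply Complex.ext <;> simp
    have hNN : ((h w).re : ℂ) ^ 2 + ((h w).im : ℂ) ^ 2 ≠ 0 := by
      have : ((Complex.normSq (h w) : ℝ) : ℂ) ≠ 0 := by exact_mod_cast hN
      rw [Complex.normSq_apply] at this
      push_cast at this
      rwa [sq, sq]
    rw [hdx, hcx, Complex.normSq_apply]
    simp only [Complex.mul_re, Complex.mul_im, Complex.I_re, Complex.I_im, zero_mul, one_mul,
      zero_sub, zero_add]
    push_cast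
    have hNN' : ((h w).re : ℂ) * ((h w).re : ℂ) + ((h w).im : ℂ) * ((h w).im : ℂ) ≠ 0 := by
      rwa [← sq, ← sq]
    field_simp
    linear_combination (2 * ((h w).re : ℂ) * ((h w).im : ℂ) * (d.im : ℂ) -
      2 * ((h w).im : ℂ) ^ 2 * (d.re : ℂ)) * Complex.I_sq
  rw [dz_congr h1]
  apply dz_conj
  have hD : DifferentiableAt ℂ (fderiv ℂ h) z :=
    (hh.fderiv_right (m := 1) (by norm_num)).differentiableAt (by simp)
  have h3 : DifferentiableAt ℂ (fun w => fderiv ℂ h w (Pi.single k 1)) z :=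
    hD.clm_apply (differentiableAt_const _)
  simp only [div_eq_mul_inv]
  exact h3.mul ((hh.differentiableAt (by simp)).inv h0)

end Pool.Agent.TH997.CMan
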