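import Pool.Agent.TH598.KG.Stmt
import Pool.Agent.TH997.CManA
import Pool.Agent.TH997.J262

/-! # Hermitian metrics and changes of charts -/

set_option autoImplicit false

open scoped Manifold ContDiff Topology ComplexConjugate Matrix
open Set Filter

namespace Pool.Agent.TH997.CMan

open Pool.Agent.W549.CY (Cn dz dzbar HermitianMetric chernRicci chernScalar)
open Pool.Agent.TH598.KG (hf)
open Pool.Agent.TH997.KGO (hf_injective hf_mulVec det_of_compat jac_mulVec)

variable {n : ℕ}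

/-! ### more calculus -/

theorem levi_congr {u v : Cn n → ℂ} {z : Cn n} (h : u =ᶠ[𝓝 z] v) (j k : Fin n) :
    dz j (dzbar k u) z = dz j (dzbar k v) z := by
  apply dz_congr
  filter_upwards [h.eventually_nhds] with w hw using dzbar_congr hw k

theorem contDiffAt_dzbar {u : Cn n → ℂ} {z : Cn n} {m : ℕ} (hu : ContDiffAt ℝ (m + 1 : ℕ) u z)
    (k : Fin n) : ContDiffAt ℝ m (dzbar k u) z := by
  have h1 : ContDiffAt ℝ m (fderiv ℝ u) z := hu.fderiv_right (by norm_cast)
  unfold dzbar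
  fun_prop

theorem contDiffAt_dz {u : Cn n → ℂ} {z : Cn n} {m : ℕ} (hu : ContDiffAt ℝ (m + 1 : ℕ) u z)
    (k : Fin n) : ContDiffAt ℝ m (dz k u) z := by
  have h1 : ContDiffAt ℝ m (fderiv ℝ u) z := hu.fderiv_right (by norm_cast)
  unfold dz
  fun_prop

theorem levi_add {u v : Cn n → ℂ} {z : Cn n} (hu : ContDiffAt ℝ 2 u z) (hv : ContDiffAt ℝ 2 v z)
    (j k : Fin n) : dz j (dzbar k fun w => u w + v w) z =
      dz j (dzbar k u) z + dz j (dzbar k v) z := by
  have h1 : (dzbar k fun w => u w + v w) =ᶠ[𝓝 z] fun w => dzbar k u w + dzbar k v w := by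
    filter_upwards [hu.eventually (by simp), hv.eventually (by simp)] with w h1 h2
    exact dzbar_add (h1.differentiableAt (by simp)) (h2.differentiableAt (by simp)) k
  rw [dz_congr h1]
  exact dz_add ((contDiffAt_dzbar (m := 1) hu k).differentiableAt (by simp))
    ((contDiffAt_dzbar (m := 1) hv k).differentiableAt (by simp)) j

theorem contDiffAt_det {𝕜 : Type} [NontriviallyNormedField 𝕜] [NormedAlgebra 𝕜 ℂ]
    {E : Type} [NormedAddCommGroup E] [NormedSpace 𝕜 E] {r : WithTop ℕ∞}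
    {A : E → Matrix (Fin n) (Fin n) ℂ} {z : E} (hA : ∀ j k, ContDiffAt 𝕜 r (fun w => A w j k) z) :
    ContDiffAt 𝕜 r (fun w => (A w).det) z := by
  simp only [Matrix.det_apply']
  refine ContDiffAt.sum fun σ _ => contDiffAt_const.mul ?_
  exact contDiffAt_prod fun i _ => hA _ _

/-! ### charts -/

variable {X : Type} [TopologicalSpace X] [ChartedSpace (Cn n) X]

/-- the domain of the change of charts -/
def dom (e e' : OpenPartialHomeomorph X (Cn n)) : Set (Cn n) := (e.symm.trans e').source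

omit [ChartedSpace (Cn n) X] in
theorem mem_dom {e e' : OpenPartialHomeomorph X (Cn n)} {z : Cn n} :
    z ∈ dom e e' ↔ z ∈ e.target ∧ e.symm z ∈ e'.source := by
  unfold dom
  rw [OpenPartialHomeomorph.trans_source]
  rfl

omit [ChartedSpace (Cn n) X] in
theorem isOpen_dom (e e' : OpenPartialHomeomorph X (Cn n)) : IsOpen (dom e e') :=
  (e.symm.trans e').open_source

theorem mem_dom_of {e e' : OpenPartialHomeomorph X (Cn n)} {x : X}
    (hx : x ∈ e.source ∩ e'.source) : e x ∈ dom e e' := by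
  rw [mem_dom]
  refine ⟨e.map_source hx.1, ?_⟩
  rw [e.left_inv hx.1]
  exact hx.2

theorem contDiffAt_trans [IsManifold 𝓘(ℂ, Cn n) ω X] {e e' : OpenPartialHomeomorph X (Cn n)}
    (he : e ∈ atlas (Cn n) X) (he' : e' ∈ atlas (Cn n) X) {z : Cn n} (hz : z ∈ dom e e') :
    ContDiffAt ℂ ω (e' ∘ e.symm) z := by
  have h := (contDiffGroupoid ω 𝓘(ℂ, Cn n)).compatible he he'
  have h2 := contMDiffOn_of_mem_contDiffGroupoid h
  exact (contMDiffOn_iff_contDiffOn.1 h2).contDiffAt ((isOpen_dom e e').mem_nhds hz)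

theorem transform_mat (h : HermitianMetric n X) {e e' : OpenPartialHomeomorph X (Cn n)}
    (he : e ∈ atlas (Cn n) X) (he' : e' ∈ atlas (Cn n) X) {z : Cn n} (hz : z ∈ dom e e') :
    h.g e z = (LinearMap.toMatrix' (fderiv ℂ (e' ∘ e.symm) z : Cn n →ₗ[ℂ] Cn n))ᵀ *
      h.g e' ((e' ∘ e.symm) z) *
      (LinearMap.toMatrix' (fderiv ℂ (e' ∘ e.symm) z : Cn n →ₗ[ℂ] Cn n)).map conj := by
  obtain ⟨hz1, hz2⟩ := mem_dom.1 hz
  have hx : e.symm z ∈ e.source ∩ e'.source := ⟨e.map_target hz1, hz2⟩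
  ext j k
  have h1 := h.transform e he e' he' _ hx j k
  rw [e.right_inv hz1] at h1
  rw [h1, Matrix.mul_apply]
  simp only [Matrix.mul_apply, Matrix.transpose_apply, Matrix.map_apply, Finset.sum_mul]
  rw [Finset.sum_comm]
  refine Finset.sum_congr rfl fun b _ => Finset.sum_congr rfl fun a _ => ?_
  have h2 : ∀ a c : Fin n, LinearMap.toMatrix' (fderiv ℂ (e' ∘ e.symm) z : Cn n →ₗ[ℂ] Cn n) a c =
      fderiv ℂ (e' ∘ e.symm) z (Pi.single c 1) a := by
    intro a c
    rw [LinearMap.toMatrix'_apply]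
    rfl
  rw [h2, h2]
  simp only [Function.comp_apply]
  ring

theorem transform_hf (h : HermitianMetric n X) {e e' : OpenPartialHomeomorph X (Cn n)}
    (he : e ∈ atlas (Cn n) X) (he' : e' ∈ atlas (Cn n) X) {z : Cn n} (hz : z ∈ dom e e')
    (v : Cn n) : hf (h.g e z) v =
      hf (h.g e' ((e' ∘ e.symm) z)) (fderiv ℂ (e' ∘ e.symm) z v) := by
  rw [transform_mat h he he' hz, ← hf_mulVec, jac_mulVec]

theorem transform_det (h : HermitianMetric n X) {e e' : OpenPartialHomeomorph X (Cn n)}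
    (he : e ∈ atlas (Cn n) X) (he' : e' ∈ atlas (Cn n) X) {z : Cn n} (hz : z ∈ dom e e') :
    (h.g e z).det = ((Complex.normSq (LinearMap.det
      (fderiv ℂ (e' ∘ e.symm) z : Cn n →ₗ[ℂ] Cn n)) : ℝ) : ℂ) *
        (h.g e' ((e' ∘ e.symm) z)).det :=
  det_of_compat (transform_hf h he he' hz)

open scoped ComplexOrder in
theorem det_pos (h : HermitianMetric n X) {e : OpenPartialHomeomorph X (Cn n)}
    (he : e ∈ atlas (Cn n) X) {z : Cn n} (hz : z ∈ e.target) :
    0 < (h.g e z).det.re ∧ (h.g e z).det.im = 0 := by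
  have h1 := (h.posDef e he z hz).det_pos
  rw [Complex.lt_def] at h1
  exact ⟨h1.1, h1.2.symm⟩

theorem map_dom {e e' : OpenPartialHomeomorph X (Cn n)} {z : Cn n} (hz : z ∈ dom e e') :
    (e' ∘ e.symm) z ∈ e'.target := e'.map_source (mem_dom.1 hz).2

theorem jac_pos (h : HermitianMetric n X) {e e' : OpenPartialHomeomorph X (Cn n)}
    (he : e ∈ atlas (Cn n) X) (he' : e' ∈ atlas (Cn n) X) {z : Cn n} (hz : z ∈ dom e e') :
    LinearMap.det (fderiv ℂ (e' ∘ e.symm) z : Cn n →ₗ[ℂ] Cn n) ≠ 0 := by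
  intro h0
  have h1 := transform_det h he he' hz
  rw [h0] at h1
  have h2 := (det_pos h he (mem_dom.1 hz).1).1
  rw [h1] at h2
  simp at h2

theorem log_transform (h : HermitianMetric n X) {e e' : OpenPartialHomeomorph X (Cn n)}
    (he : e ∈ atlas (Cn n) X) (he' : e' ∈ atlas (Cn n) X) {z : Cn n} (hz : z ∈ dom e e') :
    Real.log (h.g e z).det.re = Real.log (Complex.normSq (LinearMap.det
      (fderiv ℂ (e' ∘ e.symm) z : Cn n →ₗ[ℂ] Cn n))) +
        Real.log (h.g e' ((e' ∘ e.symm) z)).det.re := by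
  rw [transform_det h he he' hz, Complex.re_ofReal_mul, Real.log_mul]
  · exact (Complex.normSq_pos.2 (jac_pos h he he' hz)).ne'
  · exact (det_pos h he' (map_dom hz)).1.ne'

theorem contDiffAt_logdet (h : HermitianMetric n X) {e : OpenPartialHomeomorph X (Cn n)}
    (he : e ∈ atlas (Cn n) X) {z : Cn n} (hz : z ∈ e.target) :
    ContDiffAt ℝ ∞ (fun z => Real.log (h.g e z).det.re) z := by
  have h1 : ∀ j k, ContDiffAt ℝ ∞ (fun w => h.g e w j k) z := fun j k =>
    (h.smooth e he j k).contDiffAt (e.open_target.mem_nhds hz)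
  have h2 : ContDiffAt ℝ ∞ (fun w => (h.g e w).det.re) z :=
    Complex.reCLM.contDiff.contDiffAt.comp z (contDiffAt_det h1)
  exact h2.log (det_pos h he hz).1.ne'

theorem contDiffAt_logdetC (h : HermitianMetric n X) {e : OpenPartialHomeomorph X (Cn n)}
    (he : e ∈ atlas (Cn n) X) {z : Cn n} (hz : z ∈ e.target) :
    ContDiffAt ℝ ∞ (fun z => ((Real.log (h.g e z).det.re : ℝ) : ℂ)) z :=
  Complex.ofRealCLM.contDiff.contDiffAt.comp z (contDiffAt_logdet h he hz)

theorem contDiffAt_jacdet [IsManifold 𝓘(ℂ, Cn n) ω X] {e e' : OpenPartialHomeomorph X (Cn n)}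
    (he : e ∈ atlas (Cn n) X) (he' : e' ∈ atlas (Cn n) X) {z : Cn n} (hz : z ∈ dom e e') :
    ContDiffAt ℂ 2 (fun w => LinearMap.det (fderiv ℂ (e' ∘ e.symm) w : Cn n →ₗ[ℂ] Cn n)) z := by
  have h1 : ContDiffAt ℂ 2 (fderiv ℂ (e' ∘ e.symm)) z :=
    (contDiffAt_trans he he' hz).fderiv_right (m := 2) le_top
  have h2 : ∀ a c : Fin n, ContDiffAt ℂ 2 (fun w => LinearMap.toMatrix'
      (fderiv ℂ (e' ∘ e.symm) w : Cn n →ₗ[ℂ] Cn n) a c) z := by
    intro a c
    simp only [LinearMap.toMatrix'_apply]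
    have h3 : ContDiffAt ℂ 2 (fun w => fderiv ℂ (e' ∘ e.symm) w (Pi.single c 1)) z :=
      h1.clm_apply contDiffAt_const
    exact (contDiffAt_pi.1 h3) a
  have h4 := contDiffAt_det h2
  simpa only [LinearMap.det_toMatrix'] using h4

/-- transformation of the Chern-Ricci form -/
theorem transform_ricci [IsManifold 𝓘(ℂ, Cn n) ω X] (h : HermitianMetric n X)
    {e e' : OpenPartialHomeomorph X (Cn n)}
    (he : e ∈ atlas (Cn n) X) (he' : e' ∈ atlas (Cn n) X) {z : Cn n} (hz : z ∈ dom e e') :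
    chernRicci (h.g e) z =
      (LinearMap.toMatrix' (fderiv ℂ (e' ∘ e.symm) z : Cn n →ₗ[ℂ] Cn n))ᵀ *
      chernRicci (h.g e') ((e' ∘ e.symm) z) *
      (LinearMap.toMatrix' (fderiv ℂ (e' ∘ e.symm) z : Cn n →ₗ[ℂ] Cn n)).map conj := by
  have hz1 := (mem_dom.1 hz).1
  have hev : (fun w => ((Real.log (h.g e w).det.re : ℝ) : ℂ)) =ᶠ[𝓝 z] fun w =>
      ((Real.log (Complex.normSq (LinearMap.det
        (fderiv ℂ (e' ∘ e.symm) w : Cn n →ₗ[ℂ] Cn n))) : ℝ) : ℂ) +
        ((Real.log (h.g e' ((e' ∘ e.symm) w)).det.re : ℝ) : ℂ) := by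
    filter_upwards [(isOpen_dom e e').mem_nhds hz] with w hw
    rw [log_transform h he he' hw]
    push_cast
    rfl
  have hdet := contDiffAt_jacdet he he' hz
  have hdet0 := jac_pos h he he' hz
  have hlog1 : ContDiffAt ℝ 2 (fun w => ((Real.log (Complex.normSq (LinearMap.det
      (fderiv ℂ (e' ∘ e.symm) w : Cn n →ₗ[ℂ] Cn n))) : ℝ) : ℂ)) z := by
    have h1 : ContDiffAt ℝ 2 (fun w => Complex.normSq (LinearMap.det
        (fderiv ℂ (e' ∘ e.symm) w : Cn n →ₗ[ℂ] Cn n))) z := by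
      have h2 := hdet.restrict_scalars ℝ
      have h3 := Complex.reCLM.contDiff.contDiffAt.comp z h2
      have h4 := Complex.imCLM.contDiff.contDiffAt.comp z h2
      simp only [Complex.normSq_apply]
      exact (h3.mul h3).add (h4.mul h4)
    exact Complex.ofRealCLM.contDiff.contDiffAt.comp z
      (h1.log (Complex.normSq_pos.2 hdet0).ne')
  have hφ : ContDiffAt ℂ 2 (e' ∘ e.symm) z := (contDiffAt_trans he he' hz).of_le le_top
  have hu := (contDiffAt_logdetC h he' (map_dom hz)).of_le (m := 2)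
    (WithTop.coe_le_coe.2 le_top)
  have hlog2 : ContDiffAt ℝ 2 (fun w => ((Real.log (h.g e' ((e' ∘ e.symm) w)).det.re : ℝ) : ℂ)) z :=
    hu.comp z (hφ.restrict_scalars ℝ)
  ext j k
  have hL : chernRicci (h.g e) z j k =
      -dz j (dzbar k fun w => ((Real.log (h.g e w).det.re : ℝ) : ℂ)) z := rfl
  rw [hL, levi_congr hev, levi_add hlog1 hlog2, levi_log hdet hdet0, zero_add]
  have h5 := levi_comp (u := fun w => ((Real.log (h.g e' w).det.re : ℝ) : ℂ))
    (φ := e' ∘ e.symm) (z := z) hu hφ j k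
  rw [h5, Matrix.mul_apply]
  simp only [Matrix.mul_apply, Matrix.transpose_apply, Matrix.map_apply, Finset.sum_mul]
  rw [Finset.sum_comm, ← Finset.sum_neg_distrib]
  refine Finset.sum_congr rfl fun b _ => ?_
  rw [← Finset.sum_neg_distrib]
  refine Finset.sum_congr rfl fun a _ => ?_
  have h2 : ∀ a c : Fin n, LinearMap.toMatrix' (fderiv ℂ (e' ∘ e.symm) z : Cn n →ₗ[ℂ] Cn n) a c =
      fderiv ℂ (e' ∘ e.symm) z (Pi.single c 1) a := by
    intro a c
    rw [LinearMap.toMatrix'_apply]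
    rfl
  rw [h2, h2]
  have hR : chernRicci (h.g e') ((e' ∘ e.symm) z) a b =
      -dz a (dzbar b fun w => ((Real.log (h.g e' w).det.re : ℝ) : ℂ)) ((e' ∘ e.symm) z) := rfl
  rw [hR]
  ring

theorem trace_transform {G R J K : Matrix (Fin n) (Fin n) ℂ} (hJ : IsUnit J.det)
    (hK : IsUnit K.det) : ((J * G * K)⁻¹ * (J * R * K)).trace = (G⁻¹ * R).trace := by
  rw [Matrix.mul_inv_rev, Matrix.mul_inv_rev]
  have h1 : K⁻¹ * (G⁻¹ * J⁻¹) * (J * R * K) = K⁻¹ * (G⁻¹ * R * K) := by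
    have : J⁻¹ * J = 1 := Matrix.nonsing_inv_mul J hJ
    calc K⁻¹ * (G⁻¹ * J⁻¹) * (J * R * K) = K⁻¹ * (G⁻¹ * ((J⁻¹ * J) * R) * K) := by
          simp only [Matrix.mul_assoc]
      _ = _ := by rw [this, Matrix.one_mul]
  rw [h1, Matrix.trace_mul_comm, Matrix.mul_assoc, Matrix.mul_nonsing_inv K hK, Matrix.mul_one]

/-- The Chern scalar curvature does not depend on the chart. -/
theorem chernScalar_dom [IsManifold 𝓘(ℂ, Cn n) ω X] (h : HermitianMetric n X)
    {e e' : OpenPartialHomeomorph X (Cn n)} (he : e ∈ atlas (Cn n) X) (he' : e' ∈ atlas (Cn n) X)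
    {z : Cn n} (hz : z ∈ dom e e') :
    chernScalar (h.g e) z = chernScalar (h.g e') ((e' ∘ e.symm) z) := by
  have hj := jac_pos h he he' hz
  have h1 : (LinearMap.toMatrix' (fderiv ℂ (e' ∘ e.symm) z : Cn n →ₗ[ℂ] Cn n)).det ≠ 0 := by
    rwa [LinearMap.det_toMatrix']
  unfold chernScalar
  rw [transform_mat h he he' hz, transform_ricci h he he' hz]
  apply trace_transform
  · rw [Matrix.det_transpose]
    exact h1.isUnit
  · have h3 := RingHom.map_det (starRingEnd ℂ)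
      (LinearMap.toMatrix' (fderiv ℂ (e' ∘ e.symm) z : Cn n →ₗ[ℂ] Cn n))
    have h4 : ((LinearMap.toMatrix' (fderiv ℂ (e' ∘ e.symm) z : Cn n →ₗ[ℂ] Cn n)).map conj).det =
        conj (LinearMap.toMatrix' (fderiv ℂ (e' ∘ e.symm) z : Cn n →ₗ[ℂ] Cn n)).det := by
      rw [h3]
      rfl
    rw [h4]
    exact (by simpa using h1 : conj (LinearMap.toMatrix'
      (fderiv ℂ (e' ∘ e.symm) z : Cn n →ₗ[ℂ] Cn n)).det ≠ 0).isUnit

end Pool.Agent.TH997.CMan
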